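import Pool.Agent.Helper62.C75.SQM
import Pool.Agent.Helper17.K9.K9D

/-!
Matrix algebra over a machine of KerT (MP_c75db0, star frame, row M1): vectors and `3 x 3` matrices
of models.
-/

set_option autoImplicit false
noncomputable section
namespace Pool.Agent.Helper62.TVM

open Pool.Agent.Helper90.C75
open Pool.Agent.Helper90.KMT
open Pool.Agent.Helper90.KMO
open Pool.Agent.Helper86.C75 (Z)
open Pool.Agent.Helper86.CX (Cx andB)
open Pool.Agent.Helper86.CT (Alg Mo er mk cst addM subM mulM conjM)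
open Pool.Agent.Helper17.K9 (V9)

/-! ### the kernel side: numbers -/

/-- a complex constant with radius -/
def cstC {α : Type} (A : Alg α) (c : Cx) (r : Nat) : Mo α := mk A (A.cs c) r
/-- zero -/
def zeM {α : Type} (A : Alg α) : Mo α := cst A (nat_lit 0) (nat_lit 0)
def negM {α : Type} (A : Alg α) (f : Mo α) : Mo α := subM A (zeM A) f
/-- half of a model -/
def hfM {α : Type} (A : Alg α) (f : Mo α) : Mo α := mulM A (cst A (nat_lit 140737488355328) (nat_lit 0)) f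
/-- twice the real part -/
def re2M {α : Type} (A : Alg α) (f : Mo α) : Mo α := addM A f (conjM A f)
/-- the square of the norm -/
def nsqM {α : Type} (A : Alg α) (f : Mo α) : Mo α := mulM A f (conjM A f)
/-- `x0 y0 + x1 y1 + x2 y2` -/
def dot3 {α : Type} (A : Alg α) (x0 x1 x2 y0 y1 y2 : Mo α) : Mo α :=
  addM A (addM A (mulM A x0 y0) (mulM A x1 y1)) (mulM A x2 y2)

/-! ### the kernel side: vectors and matrices -/

/-- a vector of models -/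
structure V3m (α : Type) where
  a : Mo α
  b : Mo α
  c : Mo α

/-- constants -/
structure C3 where
  a : Cx
  b : Cx
  c : Cx
structure C9 where
  a : Cx
  b : Cx
  c : Cx
  d : Cx
  e : Cx
  f : Cx
  g : Cx
  h : Cx
  i : Cx

def cstW {α : Type} (A : Alg α) (C : C3) (r : Nat) : V3m α := ⟨cstC A C.a r, cstC A C.b r, cstC A C.c r⟩
def cstV {α : Type} (A : Alg α) (C : C9) (r : Nat) : V9 α :=
  ⟨cstC A C.a r, cstC A C.b r, cstC A C.c r, cstC A C.d r, cstC A C.e r, cstC A C.f r, cstC A C.g r, cstC A C.h r, cstC A C.i r⟩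

/-- sum -/
def addW {α : Type} (A : Alg α) (x y : V3m α) : V3m α := ⟨addM A x.a y.a, addM A x.b y.b, addM A x.c y.c⟩
def subW {α : Type} (A : Alg α) (x y : V3m α) : V3m α := ⟨subM A x.a y.a, subM A x.b y.b, subM A x.c y.c⟩
def negW {α : Type} (A : Alg α) (x : V3m α) : V3m α := ⟨negM A x.a, negM A x.b, negM A x.c⟩
/-- number times vector -/
def smW {α : Type} (A : Alg α) (s : Mo α) (x : V3m α) : V3m α := ⟨mulM A s x.a, mulM A s x.b, mulM A s x.c⟩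
/-- entrywise conjugate -/
def cjW {α : Type} (A : Alg α) (x : V3m α) : V3m α := ⟨conjM A x.a, conjM A x.b, conjM A x.c⟩
/-- the row `star y_j J_j`, `J = diag (1, 1, -1)` -/
def jW {α : Type} (A : Alg α) (y : V3m α) : V3m α := ⟨conjM A y.a, conjM A y.b, negM A (conjM A y.c)⟩
/-- entrywise product -/
def hdW {α : Type} (A : Alg α) (x y : V3m α) : V3m α := ⟨mulM A x.a y.a, mulM A x.b y.b, mulM A x.c y.c⟩
/-- `sum x_i y_i` -/
def dtW {α : Type} (A : Alg α) (x y : V3m α) : Mo α := dot3 A x.a x.b x.c y.a y.b y.c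

def addV {α : Type} (A : Alg α) (U V : V9 α) : V9 α :=
  ⟨addM A U.a V.a, addM A U.b V.b, addM A U.c V.c, addM A U.d V.d, addM A U.e V.e, addM A U.f V.f, addM A U.g V.g, addM A U.h V.h, addM A U.i V.i⟩
def subV {α : Type} (A : Alg α) (U V : V9 α) : V9 α :=
  ⟨subM A U.a V.a, subM A U.b V.b, subM A U.c V.c, subM A U.d V.d, subM A U.e V.e, subM A U.f V.f, subM A U.g V.g, subM A U.h V.h, subM A U.i V.i⟩
def negV {α : Type} (A : Alg α) (V : V9 α) : V9 α :=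
  ⟨negM A V.a, negM A V.b, negM A V.c, negM A V.d, negM A V.e, negM A V.f, negM A V.g, negM A V.h, negM A V.i⟩
/-- number times matrix -/
def smV {α : Type} (A : Alg α) (s : Mo α) (V : V9 α) : V9 α :=
  ⟨mulM A s V.a, mulM A s V.b, mulM A s V.c, mulM A s V.d, mulM A s V.e, mulM A s V.f, mulM A s V.g, mulM A s V.h, mulM A s V.i⟩
/-- half -/
def hfV {α : Type} (A : Alg α) (V : V9 α) : V9 α :=
  ⟨hfM A V.a, hfM A V.b, hfM A V.c, hfM A V.d, hfM A V.e, hfM A V.f, hfM A V.g, hfM A V.h, hfM A V.i⟩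
/-- entrywise product -/
def hdV {α : Type} (A : Alg α) (U V : V9 α) : V9 α :=
  ⟨mulM A U.a V.a, mulM A U.b V.b, mulM A U.c V.c, mulM A U.d V.d, mulM A U.e V.e, mulM A U.f V.f, mulM A U.g V.g, mulM A U.h V.h, mulM A U.i V.i⟩
/-- product -/
def mulV {α : Type} (A : Alg α) (U V : V9 α) : V9 α :=
  ⟨dot3 A U.a U.b U.c V.a V.d V.g,
    dot3 A U.a U.b U.c V.b V.e V.h,
    dot3 A U.a U.b U.c V.c V.f V.i,
    dot3 A U.d U.e U.f V.a V.d V.g,
    dot3 A U.d U.e U.f V.b V.e V.h,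
    dot3 A U.d U.e U.f V.c V.f V.i,
    dot3 A U.g U.h U.i V.a V.d V.g,
    dot3 A U.g U.h U.i V.b V.e V.h,
    dot3 A U.g U.h U.i V.c V.f V.i⟩
/-- conjugate transpose -/
def ctV {α : Type} (A : Alg α) (V : V9 α) : V9 α :=
  ⟨conjM A V.a, conjM A V.d, conjM A V.g, conjM A V.b, conjM A V.e, conjM A V.h, conjM A V.c, conjM A V.f, conjM A V.i⟩
/-- transpose -/
def trV {α : Type} (V : V9 α) : V9 α :=
  ⟨V.a, V.d, V.g, V.b, V.e, V.h, V.c, V.f, V.i⟩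
/-- outer product `x_i y_j` -/
def ouV {α : Type} (A : Alg α) (x y : V3m α) : V9 α :=
  ⟨mulM A x.a y.a, mulM A x.a y.b, mulM A x.a y.c, mulM A x.b y.a, mulM A x.b y.b, mulM A x.b y.c, mulM A x.c y.a, mulM A x.c y.b, mulM A x.c y.c⟩
/-- outer product `x_i star(y_j) J_j` -/
def oV {α : Type} (A : Alg α) (x y : V3m α) : V9 α := ouV A x (jW A y)
/-- `diag d * V` -/
def dlV {α : Type} (A : Alg α) (d : V3m α) (V : V9 α) : V9 α :=
  ⟨mulM A d.a V.a, mulM A d.a V.b, mulM A d.a V.c, mulM A d.b V.d, mulM A d.b V.e, mulM A d.b V.f, mulM A d.c V.g, mulM A d.c V.h, mulM A d.c V.i⟩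
/-- `V * diag d` -/
def drV {α : Type} (A : Alg α) (V : V9 α) (d : V3m α) : V9 α :=
  ⟨mulM A V.a d.a, mulM A V.b d.b, mulM A V.c d.c, mulM A V.d d.a, mulM A V.e d.b, mulM A V.f d.c, mulM A V.g d.a, mulM A V.h d.b, mulM A V.i d.c⟩
/-- `diag d` -/
def dgV {α : Type} (A : Alg α) (d : V3m α) : V9 α :=
  ⟨d.a, zeM A, zeM A, zeM A, d.b, zeM A, zeM A, zeM A, d.c⟩
/-- `V + s 1` -/
def adV {α : Type} (A : Alg α) (V : V9 α) (s : Mo α) : V9 α :=
  ⟨addM A V.a s, V.b, V.c, V.d, addM A V.e s, V.f, V.g, V.h, addM A V.i s⟩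
/-- `V - s 1` -/
def sbV {α : Type} (A : Alg α) (V : V9 α) (s : Mo α) : V9 α :=
  ⟨subM A V.a s, V.b, V.c, V.d, subM A V.e s, V.f, V.g, V.h, subM A V.i s⟩
/-- matrix times vector -/
def mvV {α : Type} (A : Alg α) (V : V9 α) (x : V3m α) : V3m α :=
  ⟨dot3 A V.a V.b V.c x.a x.b x.c, dot3 A V.d V.e V.f x.a x.b x.c, dot3 A V.g V.h V.i x.a x.b x.c⟩

/-! ### the real side -/

section

variable {α : Type} {D : ℕ} {lf : α → Vt D → ℂ} {A : Alg α} {t : ℕ → ℝ}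

/-- models of the three entries -/
structure TW (D : ℕ) (lf : α → Vt D → ℂ) (t : ℕ → ℝ) (x : Fin 3 → ℂ) (X : V3m α) : Prop where
  a : TOK D lf t (x 0) X.a
  b : TOK D lf t (x 1) X.b
  c : TOK D lf t (x 2) X.c

/-- MODELS OF THE NINE ENTRIES, by rows -/
structure TV (D : ℕ) (lf : α → Vt D → ℂ) (t : ℕ → ℝ) (M : Matrix (Fin 3) (Fin 3) ℂ) (V : V9 α) :
    Prop where
  a : TOK D lf t (M 0 0) V.a
  b : TOK D lf t (M 0 1) V.b
  c : TOK D lf t (M 0 2) V.c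
  d : TOK D lf t (M 1 0) V.d
  e : TOK D lf t (M 1 1) V.e
  f : TOK D lf t (M 1 2) V.f
  g : TOK D lf t (M 2 0) V.g
  h : TOK D lf t (M 2 1) V.h
  i : TOK D lf t (M 2 2) V.i

theorem TV.congr {M N : Matrix (Fin 3) (Fin 3) ℂ} {V : V9 α} (h : TV D lf t M V) (e : M = N) :
    TV D lf t N V := e ▸ h
theorem TW.congr {x y : Fin 3 → ℂ} {X : V3m α} (h : TW D lf t x X) (e : x = y) :
    TW D lf t y X := e ▸ h
theorem tc {f g : ℂ} {F : Mo α} (h : TOK D lf t f F) (e : f = g) : TOK D lf t g F := e ▸ h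

/-- A COMPLEX CONSTANT -/
theorem TOK_cstC (hA : AOK D lf A) (hP : PT D t) {f : ℂ} {c : Cx} {r : ℕ}
    (h : ‖(UU : ℂ) * f - cz c‖ ≤ r) : TOK D lf t f (cstC A c r) := by
  refine ⟨vt_mk hA _ _, ?_⟩
  show ‖(UU : ℂ) * f - avg (wtT D t) (lf (A.cs c))‖ ≤ (r : ℝ)
  have e : lf (A.cs c) = fun _ => cz c := funext fun v => hA.cst c v
  rw [e, avg_const hP.w]
  exact h

/-- the value of a function given by its control values -/
def cval (lf : α → Vt D → ℂ) (t : ℕ → ℝ) (v : α) : ℂ := avg (wtT D t) (lf v) / UU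

/-- A FUNCTION GIVEN BY ITS CONTROL VALUES -/
theorem TOK_val (hA : AOK D lf A) (v : α) : TOK D lf t (cval lf t v) (mk A v (nat_lit 0)) := by
  refine ⟨vt_mk hA _ _, ?_⟩
  show ‖(UU : ℂ) * (avg (wtT D t) (lf v) / UU) - avg (wtT D t) (lf v)‖ ≤ ((nat_lit 0 : ℕ) : ℝ)
  rw [mul_div_cancel₀ _ UUc_ne, sub_self, norm_zero]
  exact Nat.cast_nonneg _

theorem TOK_ze (hA : AOK D lf A) (hP : PT D t) : TOK D lf t 0 (zeM A) :=
  TOK.cst' hA hP (by simp)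

theorem TOK_neg (hA : AOK D lf A) (hP : PT D t) {f : ℂ} {F : Mo α} (hf : TOK D lf t f F) :
    TOK D lf t (-f) (negM A F) := tc ((TOK_ze hA hP).sub hA hf) (zero_sub f)

theorem TOK_hf (hA : AOK D lf A) (hP : PT D t) {f : ℂ} {F : Mo α} (hf : TOK D lf t f F) :
    TOK D lf t ((1 / 2 : ℂ) * f) (hfM A F) := by
  have h2 : TOK D lf t (1 / 2 : ℂ) (cst A (nat_lit 140737488355328) (nat_lit 0)) :=
    TOK.cst' hA hP (by unfold UU; norm_num)
  exact h2.mul hA hP hf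

theorem TOK_re2 (hA : AOK D lf A) {f : ℂ} {F : Mo α} (hf : TOK D lf t f F) :
    TOK D lf t (((2 * f.re : ℝ)) : ℂ) (re2M A F) := by
  refine tc (hf.add hA (hf.conj hA)) ?_
  apply Complex.ext
  · simp
    ring
  · simp

theorem TOK_nsq (hA : AOK D lf A) (hP : PT D t) {f : ℂ} {F : Mo α} (hf : TOK D lf t f F) :
    TOK D lf t (((‖f‖ ^ 2 : ℝ)) : ℂ) (nsqM A F) := by
  refine tc (hf.mul hA hP (hf.conj hA)) ?_
  have := Complex.mul_conj f
  rw [Complex.normSq_eq_norm_sq] at this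
  exact this

theorem TOK_dot3 (hA : AOK D lf A) (hP : PT D t) {x0 x1 x2 y0 y1 y2 : ℂ}
    {X0 X1 X2 Y0 Y1 Y2 : Mo α} (h0 : TOK D lf t x0 X0) (h1 : TOK D lf t x1 X1)
    (h2 : TOK D lf t x2 X2) (g0 : TOK D lf t y0 Y0) (g1 : TOK D lf t y1 Y1)
    (g2 : TOK D lf t y2 Y2) :
    TOK D lf t (x0 * y0 + x1 * y1 + x2 * y2) (dot3 A X0 X1 X2 Y0 Y1 Y2) :=
  ((h0.mul hA hP g0).add hA (h1.mul hA hP g1)).add hA (h2.mul hA hP g2)

/-! #### vectors -/

variable {x y : Fin 3 → ℂ} {X Y : V3m α}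

/-- the number `k` of the three constants -/
def C3.get (C : C3) : Fin 3 → Cx := ![C.a, C.b, C.c]

theorem TW_cst (hA : AOK D lf A) (hP : PT D t) {C : C3} {r : ℕ}
    (h : ∀ i, ‖(UU : ℂ) * x i - cz (C.get i)‖ ≤ r) : TW D lf t x (cstW A C r) :=
  ⟨TOK_cstC hA hP (h 0), TOK_cstC hA hP (h 1), TOK_cstC hA hP (h 2)⟩

theorem TW.add (hA : AOK D lf A) (hx : TW D lf t x X) (hy : TW D lf t y Y) :
    TW D lf t (x + y) (addW A X Y) := ⟨hx.a.add hA hy.a, hx.b.add hA hy.b, hx.c.add hA hy.c⟩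
theorem TW.sub (hA : AOK D lf A) (hx : TW D lf t x X) (hy : TW D lf t y Y) :
    TW D lf t (x - y) (subW A X Y) := ⟨hx.a.sub hA hy.a, hx.b.sub hA hy.b, hx.c.sub hA hy.c⟩
theorem TW.neg (hA : AOK D lf A) (hP : PT D t) (hx : TW D lf t x X) :
    TW D lf t (-x) (negW A X) := ⟨TOK_neg hA hP hx.a, TOK_neg hA hP hx.b, TOK_neg hA hP hx.c⟩
theorem TW.smul (hA : AOK D lf A) (hP : PT D t) {s : ℂ} {S : Mo α} (hs : TOK D lf t s S)
    (hx : TW D lf t x X) : TW D lf t (s • x) (smW A S X) :=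
  ⟨hs.mul hA hP hx.a, hs.mul hA hP hx.b, hs.mul hA hP hx.c⟩
theorem TW.star (hA : AOK D lf A) (hx : TW D lf t x X) : TW D lf t (star x) (cjW A X) :=
  ⟨hx.a.conj hA, hx.b.conj hA, hx.c.conj hA⟩
theorem TW.jw (hA : AOK D lf A) (hP : PT D t) (hx : TW D lf t x X) :
    TW D lf t ![Star.star (x 0), Star.star (x 1), -Star.star (x 2)] (jW A X) :=
  ⟨hx.a.conj hA, hx.b.conj hA, TOK_neg hA hP (hx.c.conj hA)⟩
theorem TW.hd (hA : AOK D lf A) (hP : PT D t) (hx : TW D lf t x X) (hy : TW D lf t y Y) :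
    TW D lf t (fun i => x i * y i) (hdW A X Y) :=
  ⟨hx.a.mul hA hP hy.a, hx.b.mul hA hP hy.b, hx.c.mul hA hP hy.c⟩
theorem TW.dt (hA : AOK D lf A) (hP : PT D t) (hx : TW D lf t x X) (hy : TW D lf t y Y) :
    TOK D lf t (x 0 * y 0 + x 1 * y 1 + x 2 * y 2) (dtW A X Y) :=
  TOK_dot3 hA hP hx.a hx.b hx.c hy.a hy.b hy.c

/-! #### matrices -/

variable {M N : Matrix (Fin 3) (Fin 3) ℂ} {U V : V9 α}

/-- the entries of the nine constants -/
def C9.get (C : C9) : Matrix (Fin 3) (Fin 3) Cx := !![C.a, C.b, C.c; C.d, C.e, C.f; C.g, C.h, C.i]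

theorem TV_cst (hA : AOK D lf A) (hP : PT D t) {C : C9} {r : ℕ}
    (h : ∀ i j, ‖(UU : ℂ) * M i j - cz (C.get i j)‖ ≤ r) : TV D lf t M (cstV A C r) :=
  ⟨TOK_cstC hA hP (h 0 0),
    TOK_cstC hA hP (h 0 1),
    TOK_cstC hA hP (h 0 2),
    TOK_cstC hA hP (h 1 0),
    TOK_cstC hA hP (h 1 1),
    TOK_cstC hA hP (h 1 2),
    TOK_cstC hA hP (h 2 0),
    TOK_cstC hA hP (h 2 1),
    TOK_cstC hA hP (h 2 2)⟩
theorem TV.add (hA : AOK D lf A) (hM : TV D lf t M U) (hN : TV D lf t N V) :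
    TV D lf t (M + N) (addV A U V) :=
  ⟨hM.a.add hA hN.a, hM.b.add hA hN.b, hM.c.add hA hN.c, hM.d.add hA hN.d, hM.e.add hA hN.e, hM.f.add hA hN.f, hM.g.add hA hN.g, hM.h.add hA hN.h, hM.i.add hA hN.i⟩
theorem TV.sub (hA : AOK D lf A) (hM : TV D lf t M U) (hN : TV D lf t N V) :
    TV D lf t (M - N) (subV A U V) :=
  ⟨hM.a.sub hA hN.a, hM.b.sub hA hN.b, hM.c.sub hA hN.c, hM.d.sub hA hN.d, hM.e.sub hA hN.e, hM.f.sub hA hN.f, hM.g.sub hA hN.g, hM.h.sub hA hN.h, hM.i.sub hA hN.i⟩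
theorem TV.neg (hA : AOK D lf A) (hP : PT D t) (hM : TV D lf t M U) :
    TV D lf t (-M) (negV A U) :=
  ⟨TOK_neg hA hP hM.a, TOK_neg hA hP hM.b, TOK_neg hA hP hM.c, TOK_neg hA hP hM.d, TOK_neg hA hP hM.e, TOK_neg hA hP hM.f, TOK_neg hA hP hM.g, TOK_neg hA hP hM.h, TOK_neg hA hP hM.i⟩
theorem TV.smul (hA : AOK D lf A) (hP : PT D t) {s : ℂ} {S : Mo α} (hs : TOK D lf t s S)
    (hM : TV D lf t M U) : TV D lf t (s • M) (smV A S U) :=
  ⟨hs.mul hA hP hM.a, hs.mul hA hP hM.b, hs.mul hA hP hM.c, hs.mul hA hP hM.d, hs.mul hA hP hM.e, hs.mul hA hP hM.f, hs.mul hA hP hM.g, hs.mul hA hP hM.h, hs.mul hA hP hM.i⟩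
theorem TV.half (hA : AOK D lf A) (hP : PT D t) (hM : TV D lf t M U) :
    TV D lf t ((1 / 2 : ℂ) • M) (hfV A U) :=
  ⟨TOK_hf hA hP hM.a, TOK_hf hA hP hM.b, TOK_hf hA hP hM.c, TOK_hf hA hP hM.d, TOK_hf hA hP hM.e, TOK_hf hA hP hM.f, TOK_hf hA hP hM.g, TOK_hf hA hP hM.h, TOK_hf hA hP hM.i⟩
theorem TV.hd (hA : AOK D lf A) (hP : PT D t) (hM : TV D lf t M U) (hN : TV D lf t N V) :
    TV D lf t (Matrix.of fun i j => M i j * N i j) (hdV A U V) :=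
  ⟨hM.a.mul hA hP hN.a, hM.b.mul hA hP hN.b, hM.c.mul hA hP hN.c, hM.d.mul hA hP hN.d, hM.e.mul hA hP hN.e, hM.f.mul hA hP hN.f, hM.g.mul hA hP hN.g, hM.h.mul hA hP hN.h, hM.i.mul hA hP hN.i⟩
theorem TV.mul (hA : AOK D lf A) (hP : PT D t) (hM : TV D lf t M U) (hN : TV D lf t N V) :
    TV D lf t (M * N) (mulV A U V) := by
  have e : ∀ i j, M i 0 * N 0 j + M i 1 * N 1 j + M i 2 * N 2 j = (M * N) i j := by
    intro i j
    rw [Matrix.mul_apply, Fin.sum_univ_three]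
  exact ⟨tc (TOK_dot3 hA hP hM.a hM.b hM.c hN.a hN.d hN.g) (e 0 0),
    tc (TOK_dot3 hA hP hM.a hM.b hM.c hN.b hN.e hN.h) (e 0 1),
    tc (TOK_dot3 hA hP hM.a hM.b hM.c hN.c hN.f hN.i) (e 0 2),
    tc (TOK_dot3 hA hP hM.d hM.e hM.f hN.a hN.d hN.g) (e 1 0),
    tc (TOK_dot3 hA hP hM.d hM.e hM.f hN.b hN.e hN.h) (e 1 1),
    tc (TOK_dot3 hA hP hM.d hM.e hM.f hN.c hN.f hN.i) (e 1 2),
    tc (TOK_dot3 hA hP hM.g hM.h hM.i hN.a hN.d hN.g) (e 2 0),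
    tc (TOK_dot3 hA hP hM.g hM.h hM.i hN.b hN.e hN.h) (e 2 1),
    tc (TOK_dot3 hA hP hM.g hM.h hM.i hN.c hN.f hN.i) (e 2 2)⟩
theorem TV.ct (hA : AOK D lf A) (hM : TV D lf t M U) : TV D lf t M.conjTranspose (ctV A U) :=
  ⟨hM.a.conj hA, hM.d.conj hA, hM.g.conj hA, hM.b.conj hA, hM.e.conj hA, hM.h.conj hA, hM.c.conj hA, hM.f.conj hA, hM.i.conj hA⟩
theorem TV.tr (hM : TV D lf t M U) : TV D lf t M.transpose (trV U) :=
  ⟨hM.a, hM.d, hM.g, hM.b, hM.e, hM.h, hM.c, hM.f, hM.i⟩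
theorem TW.ou (hA : AOK D lf A) (hP : PT D t) (hx : TW D lf t x X) (hy : TW D lf t y Y) :
    TV D lf t (Matrix.of fun i j => x i * y j) (ouV A X Y) :=
  ⟨hx.a.mul hA hP hy.a, hx.a.mul hA hP hy.b, hx.a.mul hA hP hy.c, hx.b.mul hA hP hy.a, hx.b.mul hA hP hy.b, hx.b.mul hA hP hy.c, hx.c.mul hA hP hy.a, hx.c.mul hA hP hy.b, hx.c.mul hA hP hy.c⟩
theorem TW.o (hA : AOK D lf A) (hP : PT D t) (hx : TW D lf t x X) (hy : TW D lf t y Y) :
    TV D lf t (Matrix.of fun i j => x i * ![Star.star (y 0), Star.star (y 1), -Star.star (y 2)] j)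
      (oV A X Y) := hx.ou hA hP (hy.jw hA hP)
theorem TV.dl (hA : AOK D lf A) (hP : PT D t) (hx : TW D lf t x X) (hM : TV D lf t M U) :
    TV D lf t (Matrix.diagonal x * M) (dlV A X U) := by
  have e : ∀ i j, x i * M i j = (Matrix.diagonal x * M) i j := fun i j => by
    rw [Matrix.diagonal_mul]
  exact ⟨tc (hx.a.mul hA hP hM.a) (e 0 0),
    tc (hx.a.mul hA hP hM.b) (e 0 1),
    tc (hx.a.mul hA hP hM.c) (e 0 2),
    tc (hx.b.mul hA hP hM.d) (e 1 0),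
    tc (hx.b.mul hA hP hM.e) (e 1 1),
    tc (hx.b.mul hA hP hM.f) (e 1 2),
    tc (hx.c.mul hA hP hM.g) (e 2 0),
    tc (hx.c.mul hA hP hM.h) (e 2 1),
    tc (hx.c.mul hA hP hM.i) (e 2 2)⟩
theorem TV.dr (hA : AOK D lf A) (hP : PT D t) (hM : TV D lf t M U) (hx : TW D lf t x X) :
    TV D lf t (M * Matrix.diagonal x) (drV A U X) := by
  have e : ∀ i j, M i j * x j = (M * Matrix.diagonal x) i j := fun i j => by
    rw [Matrix.mul_diagonal]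
  exact ⟨tc (hM.a.mul hA hP hx.a) (e 0 0),
    tc (hM.b.mul hA hP hx.b) (e 0 1),
    tc (hM.c.mul hA hP hx.c) (e 0 2),
    tc (hM.d.mul hA hP hx.a) (e 1 0),
    tc (hM.e.mul hA hP hx.b) (e 1 1),
    tc (hM.f.mul hA hP hx.c) (e 1 2),
    tc (hM.g.mul hA hP hx.a) (e 2 0),
    tc (hM.h.mul hA hP hx.b) (e 2 1),
    tc (hM.i.mul hA hP hx.c) (e 2 2)⟩
theorem TW.dg (hA : AOK D lf A) (hP : PT D t) (hx : TW D lf t x X) :
    TV D lf t (Matrix.diagonal x) (dgV A X) :=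
  ⟨tc hx.a (Matrix.diagonal_apply_eq x 0).symm,
    tc (TOK_ze hA hP) (Matrix.diagonal_apply_ne x (by decide : (0 : Fin 3) ≠ 1)).symm,
    tc (TOK_ze hA hP) (Matrix.diagonal_apply_ne x (by decide : (0 : Fin 3) ≠ 2)).symm,
    tc (TOK_ze hA hP) (Matrix.diagonal_apply_ne x (by decide : (1 : Fin 3) ≠ 0)).symm,
    tc hx.b (Matrix.diagonal_apply_eq x 1).symm,
    tc (TOK_ze hA hP) (Matrix.diagonal_apply_ne x (by decide : (1 : Fin 3) ≠ 2)).symm,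
    tc (TOK_ze hA hP) (Matrix.diagonal_apply_ne x (by decide : (2 : Fin 3) ≠ 0)).symm,
    tc (TOK_ze hA hP) (Matrix.diagonal_apply_ne x (by decide : (2 : Fin 3) ≠ 1)).symm,
    tc hx.c (Matrix.diagonal_apply_eq x 2).symm⟩
theorem TV.ad (hA : AOK D lf A) (hM : TV D lf t M U) {s : ℂ} {S : Mo α}
    (hs : TOK D lf t s S) : TV D lf t (M + s • 1) (adV A U S) := by
  have e : ∀ i, M i i + s = (M + s • 1) i i := fun i => by
    simp [Matrix.one_apply_eq]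
  have g : ∀ {i j : Fin 3}, i ≠ j → M i j = (M + s • 1) i j := fun {i j} h => by
    simp [Matrix.one_apply_ne h]
  exact ⟨tc (hM.a.add hA hs) (e 0),
    tc hM.b (g (by decide : (0 : Fin 3) ≠ 1)),
    tc hM.c (g (by decide : (0 : Fin 3) ≠ 2)),
    tc hM.d (g (by decide : (1 : Fin 3) ≠ 0)),
    tc (hM.e.add hA hs) (e 1),
    tc hM.f (g (by decide : (1 : Fin 3) ≠ 2)),
    tc hM.g (g (by decide : (2 : Fin 3) ≠ 0)),
    tc hM.h (g (by decide : (2 : Fin 3) ≠ 1)),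
    tc (hM.i.add hA hs) (e 2)⟩
theorem TV.sb (hA : AOK D lf A) (hM : TV D lf t M U) {s : ℂ} {S : Mo α}
    (hs : TOK D lf t s S) : TV D lf t (M - s • 1) (sbV A U S) := by
  have e : ∀ i, M i i - s = (M - s • 1) i i := fun i => by
    simp [Matrix.one_apply_eq]
  have g : ∀ {i j : Fin 3}, i ≠ j → M i j = (M - s • 1) i j := fun {i j} h => by
    simp [Matrix.one_apply_ne h]
  exact ⟨tc (hM.a.sub hA hs) (e 0),
    tc hM.b (g (by decide : (0 : Fin 3) ≠ 1)),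
    tc hM.c (g (by decide : (0 : Fin 3) ≠ 2)),
    tc hM.d (g (by decide : (1 : Fin 3) ≠ 0)),
    tc (hM.e.sub hA hs) (e 1),
    tc hM.f (g (by decide : (1 : Fin 3) ≠ 2)),
    tc hM.g (g (by decide : (2 : Fin 3) ≠ 0)),
    tc hM.h (g (by decide : (2 : Fin 3) ≠ 1)),
    tc (hM.i.sub hA hs) (e 2)⟩
theorem TV.mv (hA : AOK D lf A) (hP : PT D t) (hM : TV D lf t M U) (hx : TW D lf t x X) :
    TW D lf t (M.mulVec x) (mvV A U X) := by
  have e : ∀ i, M i 0 * x 0 + M i 1 * x 1 + M i 2 * x 2 = M.mulVec x i := by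
    intro i
    rw [Matrix.mulVec, dotProduct, Fin.sum_univ_three]
  exact ⟨tc (TOK_dot3 hA hP hM.a hM.b hM.c hx.a hx.b hx.c) (e 0),
    tc (TOK_dot3 hA hP hM.d hM.e hM.f hx.a hx.b hx.c) (e 1),
    tc (TOK_dot3 hA hP hM.g hM.h hM.i hx.a hx.b hx.c) (e 2)⟩

end

end Pool.Agent.Helper62.TVM
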