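import Pool.Agent.Helper62.C75.NBP
import Pool.Agent.Helper21.CW.SPD

/-!
Row NB5 of MP_c75db0 (star frame): the spectral relations of the rotation letters `(a, 2)` for both
signs from the numbers `C, s, h`, and the models of the projections at a point.
-/

set_option autoImplicit false
noncomputable section
namespace Pool.Agent.Helper62.NBT

open Matrix
open Pool.Agent.Helper90.C75
open Pool.Agent.Helper90.KMT
open Pool.Agent.Helper90.KMO
open Pool.Agent.Helper86.CX (Cx andB)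
open Pool.Agent.Helper86.CT (Alg Mo er mk cst addM subM mulM conjM invM invOK)
open Pool.Agent.Helper17.K9 (V9)
open Pool.Agent.Helper62.TVM
open Pool.Agent.Helper62.LBM
open Pool.Agent.Helper62.NBC
open Pool.Agent.Helper62.NBM
open Pool.Agent.Helper62.NBQ
open Pool.Agent.Helper62.NBP
open Pool.Agent.Helper6.MONO Pool.Agent.Helper6.MONO.W2
open Pool.Agent.Helper26.XM (oJ rfJ_oJ rfd_oJ)
open Pool.Agent.Helper21.NB (rB rBd tr_rB tr_rBd spx_of Px Nx Pd' Nd' sDm_diag)

/-! ### conjugation -/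

/-- entrywise conjugation -/
def cjE (M : Mt) : Mt := Matrix.of fun i j => star (M i j)

theorem cjE_mul (M N : Mt) : cjE (M * N) = cjE M * cjE N := by
  ext i j
  simp only [cjE, Matrix.of_apply, Matrix.mul_apply, Fin.sum_univ_three, star_add, star_mul']
theorem cjE_add (M N : Mt) : cjE (M + N) = cjE M + cjE N := by
  ext i j; simp only [cjE, Matrix.of_apply, Matrix.add_apply, star_add]
theorem cjE_sub (M N : Mt) : cjE (M - N) = cjE M - cjE N := by
  ext i j; simp only [cjE, Matrix.of_apply, Matrix.sub_apply, star_sub]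
theorem cjE_smul (c : ℂ) (M : Mt) : cjE (c • M) = star c • cjE M := by
  ext i j; simp only [cjE, Matrix.of_apply, Matrix.smul_apply, smul_eq_mul, star_mul']
theorem cjE_one : cjE 1 = 1 := by
  ext i j
  simp only [cjE, Matrix.of_apply, Matrix.one_apply]
  split_ifs
  · exact star_one ℂ
  · exact star_zero ℂ

theorem star_rl (r : ℝ) : star (r : ℂ) = r := Complex.conj_ofReal r
theorem star_I : star Complex.I = -Complex.I := Complex.conj_I

theorem SPC_cj {B Bd : Mt} {μ ν : ℂ} {th ps h hd : ℝ} {P N Pd Nd : Mt}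
    (H : SPC B Bd μ ν th ps h hd P N Pd Nd) :
    SPC (cjE B) (cjE Bd) (star μ) (star ν) (-th) (-ps) h hd (cjE P) (cjE N) (cjE Pd) (cjE Nd) := by
  refine ⟨?_, ?_, ?_, ?_, ?_, ?_, ?_, ?_, ?_, ?_⟩
  · rw [← cjE_mul, H.pp]
  · rw [← cjE_mul, H.np]
  · rw [← cjE_mul, H.pn]
  · rw [← cjE_mul, H.nn, cjE_smul, star_rl]
  · rw [← cjE_mul, ← cjE_mul, ← cjE_add, H.dpp]
  · rw [← cjE_mul, ← cjE_mul, ← cjE_add, H.dnp]
  · rw [← cjE_mul, ← cjE_mul, ← cjE_add, H.dpn]
  · rw [← cjE_mul, ← cjE_mul, ← cjE_add, H.dnn, cjE_add, cjE_smul, cjE_smul, star_rl, star_rl]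
  · conv_lhs => rw [H.b]
    simp only [cjE_add, cjE_smul, cjE_sub, cjE_one, star_rl]
  · conv_lhs => rw [H.bd]
    simp only [cjE_add, cjE_smul, cjE_sub, cjE_one, star_rl, star_mul', star_I]
    push_cast
    module

theorem cj_rfJ (v : V3) : cjE (rfJ 1 (star v)) = rfJ 1 v := by
  ext i j
  fin_cases i <;> fin_cases j <;> simp [cjE, rfJ]

theorem cj_rfd (v vd : V3) : cjE (rfd 1 0 (star v) (star vd)) = rfd 1 0 v vd := by
  ext i j
  fin_cases i <;> fin_cases j <;> simp [cjE, rfd]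

theorem cj_sDm (φ : ℝ) : cjE (sDm φ false 2) = sDm φ true 2 := by
  rw [sDm_even φ false (by norm_num), sDm_even φ true (by norm_num)]
  ext i j
  fin_cases i <;> fin_cases j <;> simp [cjE]

theorem brJ_cj (x y : V3) : brJ 1 (star x) (star y) = star (brJ 1 x y) := by
  simp [brJ]

/-! ### both signs -/

/-- `μ` of the letter `(a, 2)` -/
def muA (a : Bool) (C s : ℝ) : ℂ := if a then star (muN C s) else muN C s
def thA (a : Bool) (th : ℝ) : ℝ := if a then -th else th

theorem spc_of {p : ℕ} {v vd : V3} (h2 : brJ 1 v v = 2) (h2' : (brJ 1 vd v).re = 0) {μ : ℂ}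
    {th h hd g ts : ℝ} {T Td : ℂ} (H : SR μ h g th hd ts T Td) (hT : (rB p v).trace = T)
    (hTd : (rBd p v vd).trace = Td) : ∃ P N Pd Nd : Mt,
    SPC (rB p v) (rBd p v vd) μ (-star μ ^ 2) th (-2 * th) h hd P N Pd Nd := by
  have hu := H.u
  have hg := H.g
  have hts := H.ts
  have hu' : μ * star μ = 1 := by rw [mul_comm]; exact hu
  refine ⟨_, _, _, _, spx_of (g := μ * g) (gd := (μ * g) * (Complex.I * th -
    2 * g * (hd - 3 * ts))) h2 h2' hu' ?_ ?_ ?_ ?_⟩
  · rw [hT, H.T]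
  · rw [hTd, H.Td]; ring
  · linear_combination (g * star μ ^ 3 + 2 * g * h) * hu + hg
  · have e1 : (star μ ^ 4 + 2 * star μ * (h : ℂ) + μ ^ 2) * (μ * g) = 1 := by
      linear_combination (g * star μ ^ 3 + 2 * g * h) * hu + hg
    linear_combination (Complex.I * th - 2 * g * (hd - 3 * ts)) * e1 +
      (g * (-(4 * Complex.I * th) * star μ ^ 3 - 2 * Complex.I * th * h + 2 * hd)) * hu -
      (Complex.I * th) * hg + (6 * g : ℂ) * hts

theorem spc_a {p : ℕ} {v vd : V3} (h2 : brJ 1 v v = 2) (h2' : (brJ 1 vd v).re = 0)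
    {C s th h hd g ts : ℝ} {T Td : ℂ} (H : SR (muN C s) h g th hd ts T Td)
    (hT : (rB p v).trace = T) (hTd : (rBd p v vd).trace = Td) (a : Bool) : ∃ P N Pd Nd : Mt,
    SPC (rfJ 1 v * sDm (phi p) a 2) (rfd 1 0 v vd * sDm (phi p) a 2) (muA a C s)
      (-star (muA a C s) ^ 2) (thA a th) (-2 * thA a th) h hd P N Pd Nd := by
  cases a with
  | false => exact spc_of h2 h2' H hT hTd
  | true =>
    have k2 : brJ 1 (star v) (star v) = 2 := by
      rw [brJ_cj, h2]
      exact (by simpa using star_rl 2)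
    have k2' : (brJ 1 (star vd) (star v)).re = 0 := by
      rw [brJ_cj]
      exact (by simpa using h2')
    have kT : (rB p (star v)).trace = T := by
      rw [← hT, tr_rB, tr_rB]
      simp only [Pi.star_apply, star_star]
      ring
    have kTd : (rBd p (star v) (star vd)).trace = Td := by
      rw [← hTd, tr_rBd, tr_rBd]
      simp only [Pi.star_apply, star_star]
      ring
    obtain ⟨P, N, Pd, Nd, K⟩ := spc_of k2 k2' H kT kTd
    have K' := SPC_cj K
    have e1 : cjE (rB p (star v)) = rfJ 1 v * sDm (phi p) true 2 := by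
      unfold rB
      rw [cjE_mul, cj_rfJ, cj_sDm]
    have e2 : cjE (rBd p (star v) (star vd)) = rfd 1 0 v vd * sDm (phi p) true 2 := by
      unfold rBd
      rw [cjE_mul, cj_rfd, cj_sDm]
    rw [e1, e2] at K'
    have e3 : star (-star (muN C s) ^ 2) = -star (star (muN C s)) ^ 2 := by
      rw [star_neg, star_pow]
    have e4 : -(-2 * th) = -2 * -th := by ring
    rw [e3, e4] at K'
    exact ⟨_, _, _, _, K'⟩

/-! ### models at a point -/

/-- `d` of the letter `(a, 2)` -/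
def dA (φ : ℝ) (a : Bool) : ℂ := (if a then star (ep φ) else ep φ) ^ 2

theorem dA_mul (φ : ℝ) (a : Bool) : dA φ a * star (dA φ a) = 1 := by
  have h := ep_mul φ
  unfold dA
  cases a
  · simp only [Bool.false_eq_true, if_false, star_pow]
    rw [← mul_pow, h, one_pow]
  · simp only [if_true, star_pow, star_star]
    rw [← mul_pow, mul_comm, h, one_pow]

theorem bE_of (φ : ℝ) (a : Bool) (v : V3) :
    rfJ 1 v * sDm φ a 2 = bE (ot v (yv v)) (dA φ a) (star (dA φ a)) := by
  have e : sDm φ a 2 = !![dA φ a, 0, 0; 0, star (dA φ a), 0; 0, 0, 1] :=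
    sDm_even φ a (by norm_num)
  rw [e]
  generalize dA φ a = d
  ext i j
  fin_cases i <;> fin_cases j <;>
    simp [bE, ot, yv, rfJ, Matrix.mul_apply, Fin.sum_univ_three]

theorem bdE_of (φ : ℝ) (a : Bool) (v vd : V3) : rfd 1 0 v vd * sDm φ a 2 =
    bdE (ot vd (yv v) + ot v (yv vd)) (dA φ a) (star (dA φ a)) := by
  have e : sDm φ a 2 = !![dA φ a, 0, 0; 0, star (dA φ a), 0; 0, 0, 1] :=
    sDm_even φ a (by norm_num)
  rw [e]
  generalize dA φ a = d
  ext i j
  fin_cases i <;> fin_cases j <;>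
    simp [bdE, ot, yv, rfd, Matrix.mul_apply, Fin.sum_univ_three] <;> ring

theorem yv_two {v : V3} (h2 : brJ 1 v v = 2) :
    v 0 * yv v 0 + v 1 * yv v 1 + v 2 * yv v 2 = 2 := by
  rw [← h2]
  simp [brJ, yv]
  ring

theorem yv_tan {v vd : V3} (h2' : (brJ 1 vd v).re = 0) :
    (vd 0 * yv v 0 + v 0 * yv vd 0) + (vd 1 * yv v 1 + v 1 * yv vd 1) +
      (vd 2 * yv v 2 + v 2 * yv vd 2) = 0 := by
  have e : (vd 0 * yv v 0 + v 0 * yv vd 0) + (vd 1 * yv v 1 + v 1 * yv vd 1) +
      (vd 2 * yv v 2 + v 2 * yv vd 2) = brJ 1 vd v + star (brJ 1 vd v) := by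
    simp [brJ, yv]
    ring
  rw [e]
  apply Complex.ext
  · simp [h2']
  · simp

/-- the trace of the letter with the other sign -/
theorem tr_a {p : ℕ} {v : V3} {T : ℂ} (hT : (rB p v).trace = T) (a : Bool) :
    (rfJ 1 v * sDm (phi p) a 2).trace = if a then star T else T := by
  cases a with
  | false => exact hT
  | true =>
    rw [if_pos rfl, ← hT, tr_rB, ← cj_sDm]
    have e : sDm (phi p) false 2 = !![dA (phi p) false, 0, 0; 0, star (dA (phi p) false), 0; 0, 0, 1] :=
      sDm_even (phi p) false (by norm_num)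
    rw [e]
    simp [dA, cjE, rfJ, Matrix.trace, Matrix.mul_apply, Fin.sum_univ_three]
    ring

theorem trd_a {p : ℕ} {v vd : V3} {Td : ℂ} (hT : (rBd p v vd).trace = Td) (a : Bool) :
    (rfd 1 0 v vd * sDm (phi p) a 2).trace = if a then star Td else Td := by
  cases a with
  | false => exact hT
  | true =>
    rw [if_pos rfl, ← hT, tr_rBd, ← cj_sDm]
    have e : sDm (phi p) false 2 = !![dA (phi p) false, 0, 0; 0, star (dA (phi p) false), 0; 0, 0, 1] :=
      sDm_even (phi p) false (by norm_num)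
    rw [e]
    simp [dA, cjE, rfd, Matrix.trace, Matrix.mul_apply, Fin.sum_univ_three]
    ring

section

variable {α : Type} {D : ℕ} {lf : α → Vt D → ℂ} {A : Alg α} {t : ℕ → ℝ}

/-- kernel: models for the letter `(a, 2)`; `E` the model of `e` -/
def npA {α : Type} (A : Alg α) (N : SN α) (E : Mo α) (v vd : V3m α) (a : Bool) : NP α :=
  Bool.rec (motive := fun _ => NP α) (npM A N (erM A E false (nat_lit 2)) v vd)
    (npM A (cjN A N) (erM A E true (nat_lit 2)) v vd) a

theorem TV_ot (hA : AOK D lf A) (hP : PT D t) {v : V3} {V : V3m α} (hv : TW D lf t v V) :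
    TV D lf t (ot v (yv v)) (oV A V V) := hv.o hA hP hv

theorem TV_ot' (hA : AOK D lf A) (hP : PT D t) {v vd : V3} {V Vd : V3m α} (hv : TW D lf t v V)
    (hd : TW D lf t vd Vd) :
    TV D lf t (ot vd (yv v) + ot v (yv vd)) (addV A (oV A Vd V) (oV A V Vd)) :=
  (hd.o hA hP hv).add hA (hv.o hA hP hd)

/-- MODELS OF THE PROJECTIONS OF `(a, 2)` AT A POINT -/
theorem TNP_a (hA : AOK D lf A) (hP : PT D t) {p : ℕ} {v vd : V3} {V Vd : V3m α}
    (hv : TW D lf t v V) (hd : TW D lf t vd Vd) (h2 : brJ 1 v v = 2) (h2' : (brJ 1 vd v).re = 0)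
    {E : Mo α} (hE : TOK D lf t (ep (phi p)) E) {C s th h hdd g ts : ℝ} {T Td : ℂ} {Nm : SN α}
    (H : SR (muN C s) h g th hdd ts T Td) (hM : TSG D lf t (muN C s) h g th hdd ts Nm)
    (hT : (rB p v).trace = T) (hTd : (rBd p v vd).trace = Td) (a : Bool) :
    ∃ P N Pd Nd : Mt, SPC (rfJ 1 v * sDm (phi p) a 2) (rfd 1 0 v vd * sDm (phi p) a 2)
        (muA a C s) (-star (muA a C s) ^ 2) (thA a th) (-2 * thA a th) h hdd P N Pd Nd ∧
      TNP D lf t P N Pd Nd (npA A Nm E V Vd a) := by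
  obtain ⟨P, N, Pd, Nd, K⟩ := spc_a h2 h2' H hT hTd a
  refine ⟨P, N, Pd, Nd, K, ?_⟩
  have hd0 : TOK D lf t (dA (phi p) a) (erM A E a (nat_lit 2)) := TOK_er hA hP hE a 2
  have eT := tr_a hT a
  have eTd := trd_a hTd a
  rw [bE_of] at eT K
  rw [bdE_of] at eTd K
  cases a with
  | false =>
    exact TNP_main hA hP H hM (TV_ot hA hP hv) (TV_ot' hA hP hv hd) hd0 (hd0.conj hA)
      (yv_two h2) (dA_mul _ _) (yv_tan h2') eT eTd K
  | true =>
    exact TNP_main hA hP H.cj (hM.cj hA) (TV_ot hA hP hv) (TV_ot' hA hP hv hd) hd0 (hd0.conj hA)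
      (yv_two h2) (dA_mul _ _) (yv_tan h2') eT eTd K

end

end Pool.Agent.Helper62.NBT
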