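import Pool.Agent.Helper95.CW.NB3
import Pool.Agent.Helper26.C75.XH
import Pool.Agent.Helper82.CW.NTG
import Pool.Agent.Helper21.SW.M7T

/-!
Row (C) of M7 of MP_c75db0 (star frame), real side: the items of the runs of a rotation of length 2
in the transported coordinates: exact runs, and the reduction of the tail to vertices.
-/

set_option autoImplicit false
noncomputable section
namespace Pool.Agent.Helper62.NBV

open Matrix
open Pool.Agent.Helper6.MONO (V3)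
open Pool.Agent.Helper6.MONO.W2
open Pool.Agent.Helper26.XH (hH hL hR)
open Pool.Agent.Helper21.SW (cK)

/-! ### transport -/

theorem NT_hat {K1 K2 X M : Mt} {v : V3} (h2 : brJ 1 v v = 2)
    (H : NT K1 K2 (rfJ 1 v * X * rfJ 1 v) (rfJ 1 v * M * rfJ 1 v)) :
    NT (cK v K1) (cK v K2) X M := by
  have e : ∀ (K : Mt), ∀ u ∈ NZ (cK v K), 0 ≤ hr K ((rfJ 1 v).mulVec u) := by
    intro K u hu
    have h := hu.1
    unfold cK at h
    rwa [hr_conj] at h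
  exact NT_cy h2 (e K2) (NT_cu h2 (e K1) H)

theorem hat_NZ {K : Mt} {v : V3} (h2 : brJ 1 v v = 2) {u : V3} (hu : u ∈ NZ (cK v K)) :
    (rfJ 1 v).mulVec u ∈ NZ K := by
  refine ⟨?_, hr_c0 h2 u hu.2⟩
  have h := hu.1
  unfold cK at h
  rwa [hr_conj] at h

theorem hr_cK (K : Mt) (v u : V3) : hr (cK v K) u = hr K ((rfJ 1 v).mulVec u) := hr_conj K _ u

/-- the gauge terms in transported coordinates -/
theorem rG_hat {v vd : V3} (h : brJ 1 v v = 2) (h' : (brJ 1 vd v).re = 0) (S0 S1 T : Mt) :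
    rG v vd S0 S1 T * rfJ 1 v = (T * rfJ 1 v) * hL v vd S0 -
      (hR v vd S1 + (2 : ℂ) • hH v vd) * (T * rfJ 1 v) := by
  have c2 := rfJ_sqM h
  have cd := rfd_anti h h'
  have k1 : ∀ Z : Mt, rfJ 1 v * (rfJ 1 v * Z) = Z := fun Z => by
    rw [← mul_assoc, c2, one_mul]
  have k2 : nG v vd = -(rfd 1 0 v vd * rfJ 1 v) := by
    rw [nG, cd, neg_neg]
  have k3 : T * nG v vd * rfJ 1 v = (T * rfJ 1 v) * (rfd 1 0 v vd * rfJ 1 v) := by
    rw [nG]; noncomm_ring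
  have e1 : rG v vd S0 S1 T * rfJ 1 v = (1 / 2 : ℂ) • (nG v vd * (T * rfJ 1 v) -
      T * nG v vd * rfJ 1 v) + T * S0 * (rfJ 1 v * rfJ 1 v) - S1 * rfJ 1 v * (T * rfJ 1 v) := by
    rw [rG]
    simp only [sub_mul, add_mul, smul_mul_assoc, mul_assoc]
  rw [e1, k3, k2, c2, mul_one, hL, hR, hH]
  have k4 : T * rfJ 1 v * (rfJ 1 v * S0) = T * S0 := by rw [mul_assoc, k1]
  rw [mul_sub, k4]
  simp only [sub_mul, add_mul, mul_smul_comm, smul_mul_assoc, neg_mul]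
  module

/-! ### convexity -/

theorem NT_addM {K1 K2 X M N : Mt} (h : NT K1 K2 X M) (h' : NT K1 K2 X N) :
    NT K1 K2 X (M + N) := by
  intro u hu y hy
  have a := h u hu y hy
  have b := h' u hu y hy
  rw [Matrix.add_mulVec, brJ_add_left, star_add, mul_add, Complex.add_re]
  exact add_nonneg a b

theorem NT_smulM {K1 K2 X M : Mt} (h : NT K1 K2 X M) {s : ℝ} (hs : 0 ≤ s) :
    NT K1 K2 X ((s : ℂ) • M) := by
  intro u hu y hy
  have a := h u hu y hy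
  rw [Matrix.smul_mulVec, brJ_smul_left, star_mul']
  have e : star ((s : ℝ) : ℂ) = s := Complex.conj_ofReal s
  rw [e]
  have e2 : brJ 1 (X.mulVec u) y * ((s : ℂ) * star (brJ 1 (M.mulVec u) y)) =
      (s : ℂ) * (brJ 1 (X.mulVec u) y * star (brJ 1 (M.mulVec u) y)) := by ring
  rw [e2, Complex.re_ofReal_mul]
  exact mul_nonneg hs a

/-- coordinates in a square -/
theorem sq_wt {z ρ : ℂ} (h : 2 * ‖ρ‖ ^ 2 ≤ ‖z‖ ^ 2) : ∃ w0 w1 w2 w3 : ℝ, 0 ≤ w0 ∧ 0 ≤ w1 ∧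
    0 ≤ w2 ∧ 0 ≤ w3 ∧ w0 + w1 + w2 + w3 = 1 ∧
    ρ = w0 * z + w1 * (Complex.I * z) + w2 * (-z) + w3 * (-(Complex.I * z)) := by
  by_cases hz : z = 0
  · subst hz
    rw [norm_zero] at h
    have h1 : ‖ρ‖ ^ 2 ≤ 0 := by nlinarith
    have h2 : ρ = 0 := by
      rw [← norm_eq_zero]
      nlinarith [norm_nonneg ρ]
    exact ⟨1, 0, 0, 0, by norm_num, le_rfl, le_rfl, le_rfl, by norm_num, by rw [h2]; simp⟩
  · have hz0 : 0 < ‖z‖ := norm_pos_iff.2 hz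
    obtain ⟨w, hw⟩ : ∃ w, w = ρ / z := ⟨_, rfl⟩
    have hρ : ρ = w * z := by rw [hw, div_mul_cancel₀ _ hz]
    have hn : 2 * ‖w‖ ^ 2 ≤ 1 := by
      rw [hρ, norm_mul, mul_pow] at h
      have hz2 : 0 < ‖z‖ ^ 2 := by positivity
      by_contra hc
      push Not at hc
      nlinarith
    have hn2 : 2 * (w.re ^ 2 + w.im ^ 2) ≤ 1 := by
      rw [Complex.sq_norm, Complex.normSq_apply] at hn
      nlinarith
    set α := w.re with hα
    set β := w.im with hβ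
    have hab : |α| + |β| ≤ 1 := by
      have h1 : |α| ^ 2 + |β| ^ 2 ≤ 1 / 2 := by rw [sq_abs, sq_abs]; linarith
      nlinarith [sq_nonneg (|α| - |β|), abs_nonneg α, abs_nonneg β]
    set e := (1 - |α| - |β|) / 4 with he
    have he0 : 0 ≤ e := by rw [he]; linarith
    refine ⟨(|α| + α) / 2 + e, (|β| + β) / 2 + e, (|α| - α) / 2 + e, (|β| - β) / 2 + e, ?_, ?_, ?_,
      ?_, ?_, ?_⟩
    · have := neg_abs_le α; linarith
    · have := neg_abs_le β; linarith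
    · have := le_abs_self α; linarith
    · have := le_abs_self β; linarith
    · rw [he]; ring
    · rw [hρ]
      have ew : w = (α : ℂ) + β * Complex.I := (Complex.re_add_im w).symm
      rw [ew]
      push_cast
      ring

/-- a disc inside a square -/
theorem NT_sq {K1 K2 X M U : Mt} {z ρ : ℂ} (h : 2 * ‖ρ‖ ^ 2 ≤ ‖z‖ ^ 2)
    (h0 : NT K1 K2 X (M + z • U)) (h1 : NT K1 K2 X (M + (Complex.I * z) • U))
    (h2 : NT K1 K2 X (M - z • U)) (h3 : NT K1 K2 X (M - (Complex.I * z) • U)) :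
    NT K1 K2 X (M + ρ • U) := by
  obtain ⟨w0, w1, w2, w3, k0, k1, k2, k3, ks, kρ⟩ := sq_wt h
  have H := NT_addM (NT_addM (NT_addM (NT_smulM h0 k0) (NT_smulM h1 k1)) (NT_smulM h2 k2))
    (NT_smulM h3 k3)
  refine H.congr rfl ?_
  have ks' : (w0 : ℂ) + w1 + w2 + w3 = 1 := by exact_mod_cast ks
  have e1 : M = ((w0 : ℂ) + w1 + w2 + w3) • M := by rw [ks', one_smul]
  rw [kρ]
  nth_rewrite 1 [e1]
  module

/-- a segment -/
theorem NT_seg {K1 K2 X U M : Mt} {lo hi om : ℝ} (h1 : lo ≤ om) (h2 : om ≤ hi)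
    (k1 : NT K1 K2 (X + (lo : ℂ) • U) M) (k2 : NT K1 K2 (X + (hi : ℂ) • U) M) :
    NT K1 K2 (X + (om : ℂ) • U) M := by
  rcases eq_or_lt_of_le (h1.trans h2) with h | h
  · have e : om = lo := le_antisymm (by rw [h]; exact h2) h1
    rw [e]
    exact k1
  · have hd : 0 < hi - lo := sub_pos.2 h
    have a1 : 0 ≤ (hi - om) / (hi - lo) := div_nonneg (by linarith) hd.le
    have a2 : 0 ≤ (om - lo) / (hi - lo) := div_nonneg (by linarith) hd.le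
    refine ((k1.smulr a1).add (k2.smulr a2)).congr ?_ rfl
    have e1 : (hi - om) / (hi - lo) + (om - lo) / (hi - lo) = 1 := by
      field_simp; ring
    have e2 : (hi - om) / (hi - lo) * lo + (om - lo) / (hi - lo) * hi = om := by
      field_simp; ring
    have e1' : (((hi - om) / (hi - lo) : ℝ) : ℂ) + (((om - lo) / (hi - lo) : ℝ) : ℂ) = 1 := by
      exact_mod_cast e1
    have e2' : (((hi - om) / (hi - lo) : ℝ) : ℂ) * lo + (((om - lo) / (hi - lo) : ℝ) : ℂ) * hi =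
        om := by exact_mod_cast e2
    generalize (((hi - om) / (hi - lo) : ℝ) : ℂ) = a at *
    generalize (((om - lo) / (hi - lo) : ℝ) : ℂ) = b at *
    have e3 : X = (a + b) • X := by rw [e1', one_smul]
    rw [← e2']
    nth_rewrite 1 [e3]
    module

/-! ### exact runs -/

section
variable {φ : ℝ} {v vd : V3} {a : Bool} {k : ℕ} {μ ν : ℂ} {th ps h hd : ℝ} {P N Pd Nd : Mt}
  {K1 K2 K3 S0 S1 : Mt}

/-- `B ^ n = μ ^ n • xT`, `lam = (ν / μ) ^ n` -/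
def xT (S C : ℝ) (lam : ℂ) (P N : Mt) : Mt := (S : ℂ) • N + (C : ℂ) • P + lam • (1 - P)
/-- the derivative without the imaginary multiple; `m = n` -/
def xD (m S C dd hd dh : ℝ) (lam : ℂ) (P N Pd Nd : Mt) : Mt :=
  ((hd * dd : ℝ) : ℂ) • N + ((hd * (m * S) : ℝ) : ℂ) • P + (S : ℂ) • Nd + (C : ℂ) • Pd +
    (Complex.I * dh * (m * lam)) • (1 - P) - lam • Pd

theorem pow_lam (hμ : μ ≠ 0) (n : ℕ) : μ ^ n * (ν / μ) ^ n = ν ^ n := by
  rw [← mul_pow, mul_div_cancel₀ _ hμ]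

theorem powX (H : SPC (rfJ 1 v * sDm φ a k) (rfd 1 0 v vd * sDm φ a k) μ ν th ps h hd P N Pd Nd)
    (hμ : μ ≠ 0) (n : ℕ) : (rfJ 1 v * sDm φ a k) ^ n =
      μ ^ n • xT (chS h n) (chC h n) ((ν / μ) ^ n) P N := by
  have e := pow_lam (ν := ν) hμ n
  rw [H.pow n]
  generalize (ν / μ) ^ n = lam at *
  rw [← e, xT]
  module

theorem dpowX (H : SPC (rfJ 1 v * sDm φ a k) (rfd 1 0 v vd * sDm φ a k) μ ν th ps h hd P N Pd Nd)
    (hμ : μ ≠ 0) (n : ℕ) : dP (rfJ 1 v * sDm φ a k) (rfd 1 0 v vd * sDm φ a k) n =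
      μ ^ n • ((Complex.I * ((n * th : ℝ) : ℂ)) • xT (chS h n) (chC h n) ((ν / μ) ^ n) P N +
        xD n (chS h n) (chC h n) (chD h n) hd (ps - th) ((ν / μ) ^ n) P N Pd Nd) := by
  have e := pow_lam (ν := ν) hμ n
  rw [H.dpow n]
  generalize (ν / μ) ^ n = lam at *
  rw [← e, xT, xD]
  push_cast
  module

/-- A RUN OF LENGTH `n`, exact -/
theorem gi_exact
    (H : SPC (rfJ 1 v * sDm φ a k) (rfd 1 0 v vd * sDm φ a k) μ ν th ps h hd P N Pd Nd)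
    (hv : brJ 1 v v = 2) (hvd : (brJ 1 vd v).re = 0) (hμ : μ ≠ 0) {n : ℕ} (hn : 1 ≤ n)
    (T : NT K1 K2 (xD n (chS h n) (chC h n) (chD h n) hd (ps - th) ((ν / μ) ^ n) P N Pd Nd *
        rfJ 1 v + ((xT (chS h n) (chC h n) ((ν / μ) ^ n) P N * rfJ 1 v) * hL v vd S0 -
          (hR v vd S1 + (2 : ℂ) • hH v vd) *
            (xT (chS h n) (chC h n) ((ν / μ) ^ n) P N * rfJ 1 v)))
      (xT (chS h n) (chC h n) ((ν / μ) ^ n) P N * rfJ 1 v)) :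
    NT (cK v K1) (cK v K2) (nX v vd (nM φ v a k (n - 1)) (nMd φ v vd a k (n - 1)) S0 S1)
      (nM φ v a k (n - 1)) := by
  apply NT_hat hv
  have e1 : rfJ 1 v * nM φ v a k (n - 1) = (rfJ 1 v * sDm φ a k) ^ n := by
    rw [rfJ_nM, Nat.sub_add_cancel hn]
  have e2 : rfd 1 0 v vd * nM φ v a k (n - 1) + rfJ 1 v * nMd φ v vd a k (n - 1) =
      dP (rfJ 1 v * sDm φ a k) (rfd 1 0 v vd * sDm φ a k) n := by
    rw [rfJ_nMd, Nat.sub_add_cancel hn]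
  have e3 := rfJ_nX hv hvd (nM φ v a k (n - 1)) (nMd φ v vd a k (n - 1)) S0 S1
  rw [e2, e1, powX H hμ, rG_smul, dpowX H hμ] at e3
  rw [powX H hμ] at e1
  rw [e3, e1, ← rG_hat hv hvd] at *
  have h1 := (NT_imag K1 K2 (xT (chS h n) (chC h n) ((ν / μ) ^ n) P N * rfJ 1 v) (n * th)).add T
  refine (h1.smulc (μ ^ n)).congr ?_ ?_
  · rw [← smul_add, smul_mul_assoc, add_mul, add_mul, smul_mul_assoc]
    congr 1
    abel
  · rw [smul_mul_assoc]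

/-- the inclusion of a run of length `n`, exact -/
theorem inn_exact
    (H : SPC (rfJ 1 v * sDm φ a k) (rfd 1 0 v vd * sDm φ a k) μ ν th ps h hd P N Pd Nd)
    (hv : brJ 1 v v = 2) (hμ : μ ≠ 0) {n : ℕ} (hn : 1 ≤ n)
    (T : ∀ u ∈ NZ K1, 0 ≤ hr (cK v K3) ((xT (chS h n) (chC h n) ((ν / μ) ^ n) P N *
      rfJ 1 v).mulVec u)) :
    ∀ u ∈ NZ (cK v K1), 0 ≤ hr (cK v K3) ((rfJ 1 v).mulVec ((nM φ v a k (n - 1)).mulVec u)) := by
  intro u hu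
  have e1 : rfJ 1 v * nM φ v a k (n - 1) = μ ^ n • xT (chS h n) (chC h n) ((ν / μ) ^ n) P N := by
    rw [rfJ_nM, Nat.sub_add_cancel hn, powX H hμ]
  rw [Matrix.mulVec_mulVec, e1, Matrix.smul_mulVec, hr_smul]
  refine mul_nonneg (Complex.normSq_nonneg _) ?_
  have h2 := T _ (hat_NZ hv hu)
  rw [← Matrix.mulVec_mulVec, rfJ_sq hv] at h2
  exact h2

/-! ### the tail at the values of `n` -/

theorem gi_at
    (H : SPC (rfJ 1 v * sDm φ a k) (rfd 1 0 v vd * sDm φ a k) μ ν th ps h hd P N Pd Nd)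
    (hv : brJ 1 v v = 2) (hvd : (brJ 1 vd v).re = 0) (hμ : μ ≠ 0) (hh : 1 ≤ h)
    (hd0 : 0 ≤ hd) {n : ℕ} (hn : 2 ≤ n)
    (hA : NT K1 K2 (rX (chO h n) P N * rfJ 1 v) (rT (chR h n) (chQ μ ν h n) P N * rfJ 1 v))
    (hB : NT K1 K2 ((((hd / 4 : ℝ) : ℂ) • rX (chO h n) P N +
        rZ (chR h n) h hd (ps - th) (chQ μ ν h n) (n * chQ μ ν h n) P Pd Nd +
        ((chR h n ^ 2 : ℝ) : ℂ) • rG v vd S0 S1 (rT (chR h n) (chQ μ ν h n) P N)) * rfJ 1 v)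
      (rT (chR h n) (chQ μ ν h n) P N * rfJ 1 v)) :
    NT (cK v K1) (cK v K2) (nX v vd (nM φ v a k (n - 1)) (nMd φ v vd a k (n - 1)) S0 S1)
      (nM φ v a k (n - 1)) := by
  apply NT_hat hv
  have hn1 : 1 ≤ n := by omega
  have e1 : rfJ 1 v * nM φ v a k (n - 1) = (rfJ 1 v * sDm φ a k) ^ n := by
    rw [rfJ_nM, Nat.sub_add_cancel hn1]
  have e2 : rfd 1 0 v vd * nM φ v a k (n - 1) + rfJ 1 v * nMd φ v vd a k (n - 1) =
      dP (rfJ 1 v * sDm φ a k) (rfd 1 0 v vd * sDm φ a k) n := by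
    rw [rfJ_nMd, Nat.sub_add_cancel hn1]
  have e3 := rfJ_nX hv hvd (nM φ v a k (n - 1)) (nMd φ v vd a k (n - 1)) S0 S1
  rw [e2, e1, H.powT hμ hh hn1, rG_smul, H.dpowT hμ hh hn1] at e3
  rw [H.powT hμ hh hn1] at e1
  rw [e3, e1]
  have hs : hd / 4 ≤ hd * chD h n / chS h n * chR h n ^ 2 := by
    have := mul_le_mul_of_nonneg_left (chD_ge hh hn) hd0
    calc hd / 4 = hd * (1 / 4) := by ring
      _ ≤ _ := this
      _ = _ := by ring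
  have hr0 : 0 < chR h n := chR_pos hh hn1
  set z : ℂ := μ ^ n * chS h n with hz
  set r := chR h n with hr
  set om := chO h n with hom
  set ρ := chQ μ ν h n with hρ
  have key : NT K1 K2 (((n * (Complex.I * th)) • rT r ρ P N +
      ((hd * chD h n / chS h n : ℝ) : ℂ) • rX om P N + rY r h hd (ps - th) ρ (n * ρ) P Pd Nd +
      rG v vd S0 S1 (rT r ρ P N)) * rfJ 1 v) (rT r ρ P N * rfJ 1 v) := by
    have h1 := NT_imag K1 K2 (rT r ρ P N * rfJ 1 v) (r ^ 2 * (n * th))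
    have h2 := hA.smulr (sub_nonneg.2 hs)
    have h3 := (h1.add h2).add hB
    refine NT.of_smulr (pow_pos hr0 2) (h3.congr ?_ rfl)
    have e6 : ((r ^ 2 : ℝ) : ℂ) * ((h * hd / r : ℝ) : ℂ) = ((r * h * hd : ℝ) : ℂ) := by
      rw [← Complex.ofReal_mul]
      congr 1
      field_simp
    rw [rZ, rY, ← e6]
    simp only [add_mul, sub_mul, smul_mul_assoc, smul_add, smul_smul, smul_sub]
    push_cast
    module
  refine (key.smulc z).congr ?_ ?_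
  · rw [← smul_add, smul_mul_assoc]
  · rw [smul_mul_assoc]

/-- the inclusion of the tail at the values of `n` -/
theorem inn_at
    (H : SPC (rfJ 1 v * sDm φ a k) (rfd 1 0 v vd * sDm φ a k) μ ν th ps h hd P N Pd Nd)
    (hv : brJ 1 v v = 2) (hμ : μ ≠ 0) (hh : 1 ≤ h) {n : ℕ} (hn : 1 ≤ n)
    (T : ∀ u ∈ NZ K1, 0 ≤ hr (cK v K3) ((rT (chR h n) (chQ μ ν h n) P N * rfJ 1 v).mulVec u)) :
    ∀ u ∈ NZ (cK v K1), 0 ≤ hr (cK v K3) ((rfJ 1 v).mulVec ((nM φ v a k (n - 1)).mulVec u)) := by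
  intro u hu
  have e1 : rfJ 1 v * nM φ v a k (n - 1) =
      (μ ^ n * chS h n) • rT (chR h n) (chQ μ ν h n) P N := by
    rw [rfJ_nM, Nat.sub_add_cancel hn, H.powT hμ hh hn]
  rw [Matrix.mulVec_mulVec, e1, Matrix.smul_mulVec, hr_smul]
  refine mul_nonneg (Complex.normSq_nonneg _) ?_
  have h2 := T _ (hat_NZ hv hu)
  rw [← Matrix.mulVec_mulVec, rfJ_sq hv] at h2
  exact h2

end

/-! ### the tail: vertices -/

/-- the transported matrix of a run: `c`, `N c`, `(1 - P) c` -/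
def tF (r : ℝ) (ρ : ℂ) (c Nc Qc : Mt) : Mt := (Nc + (r : ℂ) • (c - Qc)) + ρ • Qc
/-- first direction -/
def aF (om : ℝ) (c Nc Qc : Mt) : Mt := Nc + (om : ℂ) • (c - Qc)
/-- the part of the second direction which does not depend on the gauges -/
def bb (r h hd dh : ℝ) (ρ η : ℂ) (c Qc Ndc Qdc : Mt) : Mt :=
  (r : ℂ) • (((h * hd : ℝ) : ℂ) • (c - Qc) + (r : ℂ) • (((Ndc + ρ • Qdc) +
    η • ((Complex.I * dh) • Qc)) - (r : ℂ) • Qdc))
/-- gauges -/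
def gg (T L R2 : Mt) : Mt := T * L - R2 * T
/-- second direction without the multiple of the first -/
def bF (r h hd dh : ℝ) (ρ η : ℂ) (L R2 c Nc Qc Ndc Qdc : Mt) : Mt :=
  bb r h hd dh ρ η c Qc Ndc Qdc + gg (((r ^ 2 : ℝ) : ℂ) • tF r ρ c Nc Qc) L R2
/-- the first direction times `r` -/
def aE (r h : ℝ) (c Nc Qc : Mt) : Mt := (r : ℂ) • Nc + ((h ^ 2 - 1 : ℝ) : ℂ) • (c - Qc)

/-- the four tests at the vertices of a square -/
def T4 (K1 K2 X M U : Mt) (z : ℂ) : Prop := (NT K1 K2 X (M + z • U) ∧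
  NT K1 K2 X (M + (Complex.I * z) • U)) ∧ (NT K1 K2 X (M - z • U) ∧
  NT K1 K2 X (M - (Complex.I * z) • U))

theorem T4.out {K1 K2 X M U : Mt} {z ρ : ℂ} (H : T4 K1 K2 X M U z)
    (h : 2 * ‖ρ‖ ^ 2 ≤ ‖z‖ ^ 2) : NT K1 K2 X (M + ρ • U) :=
  NT_sq h H.1.1 H.1.2 H.2.1 H.2.2

theorem rT_c (r : ℝ) (ρ : ℂ) (P N c : Mt) :
    rT r ρ P N * c = tF r ρ c (N * c) ((1 - P) * c) := by
  rw [rT, tF]
  simp only [add_mul, sub_mul, smul_mul_assoc, one_mul]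
  module

theorem rX_c (om : ℝ) (P N c : Mt) : rX om P N * c = aF om c (N * c) ((1 - P) * c) := by
  rw [rX, aF]
  simp only [add_mul, sub_mul, smul_mul_assoc, one_mul]
  module

section
variable {φ : ℝ} {v vd : V3} {a : Bool} {k : ℕ} {μ ν : ℂ} {th ps h hd : ℝ} {P N Pd Nd : Mt}
  {K1 K2 K3 S0 S1 : Mt}

theorem rB_c (hv : brJ 1 v v = 2) (hvd : (brJ 1 vd v).re = 0) (r om h hd dh : ℝ) (ρ η : ℂ)
    (P N Pd Nd S0 S1 : Mt) :
    (((hd / 4 : ℝ) : ℂ) • rX om P N + rZ r h hd dh ρ η P Pd Nd +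
        ((r ^ 2 : ℝ) : ℂ) • rG v vd S0 S1 (rT r ρ P N)) * rfJ 1 v =
      ((hd / 4 : ℝ) : ℂ) • aF om (rfJ 1 v) (N * rfJ 1 v) ((1 - P) * rfJ 1 v) +
        bF r h hd dh ρ η (hL v vd S0) (hR v vd S1 + (2 : ℂ) • hH v vd) (rfJ 1 v) (N * rfJ 1 v)
          ((1 - P) * rfJ 1 v) (Nd * rfJ 1 v) (-Pd * rfJ 1 v) := by
  have e1 := rG_hat hv hvd S0 S1 (rT r ρ P N)
  rw [rT_c] at e1
  rw [add_mul, add_mul, smul_mul_assoc, smul_mul_assoc, rX_c, e1, add_assoc]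
  congr 1
  generalize hL v vd S0 = L
  generalize hR v vd S1 + (2 : ℂ) • hH v vd = R
  generalize rfJ 1 v = c
  rw [rZ, bF, bb, gg, tF]
  simp only [add_mul, sub_mul, mul_add, mul_sub, smul_mul_assoc, mul_smul_comm, smul_add, smul_sub,
    smul_smul, one_mul, neg_mul, smul_neg]
  push_cast
  module

/-- THE TAIL FROM TESTS AT VERTICES: the range of `(h² - 1) / r` by its ends -/
theorem gi_tail
    (H : SPC (rfJ 1 v * sDm φ a k) (rfd 1 0 v vd * sDm φ a k) μ ν th ps h hd P N Pd Nd)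
    (hv : brJ 1 v v = 2) (hvd : (brJ 1 vd v).re = 0) (hμ : μ ≠ 0) (hh : 1 ≤ h)
    (hd0 : 0 ≤ hd) {n : ℕ} (hn : 2 ≤ n) {lo hi : ℝ} {z : ℂ} (h1 : lo ≤ chO h n)
    (h2 : chO h n ≤ hi) (h3 : 2 * ‖chQ μ ν h n‖ ^ 2 ≤ ‖z‖ ^ 2) {Nc Qc Ndc Qdc R2 : Mt}
    (eN : N * rfJ 1 v = Nc) (eQ : (1 - P) * rfJ 1 v = Qc) (eNd : Nd * rfJ 1 v = Ndc)
    (eQd : -Pd * rfJ 1 v = Qdc) (eR : hR v vd S1 + (2 : ℂ) • hH v vd = R2)
    (A1 : T4 K1 K2 (aF lo (rfJ 1 v) Nc Qc) (Nc + (chR h n : ℂ) • (rfJ 1 v - Qc)) Qc z)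
    (A2 : T4 K1 K2 (aF hi (rfJ 1 v) Nc Qc) (Nc + (chR h n : ℂ) • (rfJ 1 v - Qc)) Qc z)
    (B1 : T4 K1 K2 (((hd / 4 : ℝ) : ℂ) • aF lo (rfJ 1 v) Nc Qc +
      bF (chR h n) h hd (ps - th) (chQ μ ν h n) (n * chQ μ ν h n) (hL v vd S0) R2 (rfJ 1 v) Nc Qc
        Ndc Qdc) (Nc + (chR h n : ℂ) • (rfJ 1 v - Qc)) Qc z)
    (B2 : T4 K1 K2 (((hd / 4 : ℝ) : ℂ) • aF hi (rfJ 1 v) Nc Qc +
      bF (chR h n) h hd (ps - th) (chQ μ ν h n) (n * chQ μ ν h n) (hL v vd S0) R2 (rfJ 1 v) Nc Qc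
        Ndc Qdc) (Nc + (chR h n : ℂ) • (rfJ 1 v - Qc)) Qc z) :
    NT (cK v K1) (cK v K2) (nX v vd (nM φ v a k (n - 1)) (nMd φ v vd a k (n - 1)) S0 S1)
      (nM φ v a k (n - 1)) := by
  subst eN eQ eNd eQd eR
  refine gi_at H hv hvd hμ hh hd0 hn ?_ ?_
  · rw [rT_c, rX_c]
    exact NT_seg h1 h2 (A1.out h3) (A2.out h3)
  · rw [rT_c, rB_c hv hvd]
    have k1 := B1.out h3
    have k2 := B2.out h3
    unfold aF at k1 k2 ⊢
    have key := NT_seg (X := ((hd / 4 : ℝ) : ℂ) • (N * rfJ 1 v) + bF (chR h n) h hd (ps - th)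
      (chQ μ ν h n) (n * chQ μ ν h n) (hL v vd S0) (hR v vd S1 + (2 : ℂ) • hH v vd) (rfJ 1 v)
      (N * rfJ 1 v) ((1 - P) * rfJ 1 v) (Nd * rfJ 1 v) (-Pd * rfJ 1 v))
      (U := ((hd / 4 : ℝ) : ℂ) • (rfJ 1 v - (1 - P) * rfJ 1 v)) h1 h2
      (k1.congr (by module) rfl) (k2.congr (by module) rfl)
    exact key.congr (by module) rfl

/-- THE TAIL FROM TESTS AT VERTICES: the directions multiplied by `r` -/
theorem gi_tailE
    (H : SPC (rfJ 1 v * sDm φ a k) (rfd 1 0 v vd * sDm φ a k) μ ν th ps h hd P N Pd Nd)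
    (hv : brJ 1 v v = 2) (hvd : (brJ 1 vd v).re = 0) (hμ : μ ≠ 0) (hh : 1 ≤ h)
    (hd0 : 0 ≤ hd) {n : ℕ} (hn : 2 ≤ n) {z : ℂ} (h3 : 2 * ‖chQ μ ν h n‖ ^ 2 ≤ ‖z‖ ^ 2)
    {Nc Qc Ndc Qdc R2 : Mt}
    (eN : N * rfJ 1 v = Nc) (eQ : (1 - P) * rfJ 1 v = Qc) (eNd : Nd * rfJ 1 v = Ndc)
    (eQd : -Pd * rfJ 1 v = Qdc) (eR : hR v vd S1 + (2 : ℂ) • hH v vd = R2)
    (A1 : T4 K1 K2 (aE (chR h n) h (rfJ 1 v) Nc Qc) (Nc + (chR h n : ℂ) • (rfJ 1 v - Qc)) Qc z)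
    (B1 : T4 K1 K2 (((hd / 4 : ℝ) : ℂ) • aE (chR h n) h (rfJ 1 v) Nc Qc + (chR h n : ℂ) •
      bF (chR h n) h hd (ps - th) (chQ μ ν h n) (n * chQ μ ν h n) (hL v vd S0) R2 (rfJ 1 v) Nc Qc
        Ndc Qdc) (Nc + (chR h n : ℂ) • (rfJ 1 v - Qc)) Qc z) :
    NT (cK v K1) (cK v K2) (nX v vd (nM φ v a k (n - 1)) (nMd φ v vd a k (n - 1)) S0 S1)
      (nM φ v a k (n - 1)) := by
  subst eN eQ eNd eQd eR
  have hn1 : 1 ≤ n := by omega
  have hr := chR_pos hh hn1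
  have hom : aE (chR h n) h (rfJ 1 v) (N * rfJ 1 v) ((1 - P) * rfJ 1 v) =
      (chR h n : ℂ) • aF (chO h n) (rfJ 1 v) (N * rfJ 1 v) ((1 - P) * rfJ 1 v) := by
    have e : ((h ^ 2 - 1 : ℝ) : ℂ) = (chR h n : ℂ) * (chO h n : ℂ) := by
      rw [← Complex.ofReal_mul, mul_comm (chR h n), chO_mul hh hn1]
    rw [aE, aF, e, smul_add, smul_smul]
  rw [hom] at A1 B1
  refine gi_at H hv hvd hμ hh hd0 hn ?_ ?_
  · rw [rT_c, rX_c]
    exact NT.of_smulr hr (A1.out h3)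
  · rw [rT_c, rB_c hv hvd]
    refine NT.of_smulr hr ((B1.out h3).congr ?_ rfl)
    module

/-! ### the inclusion of the tail -/

theorem hr_line (K : Mt) (x y : V3) : ∃ α β : ℂ, ∀ ρ : ℂ, hr K (x + ρ • y) = hr K x +
    (ρ * α + star ρ * β).re + ‖ρ‖ ^ 2 * hr K y := by
  refine ⟨∑ i, ∑ j, star (x i) * K i j * y j, ∑ i, ∑ j, star (y i) * K i j * x j, fun ρ => ?_⟩
  have e : hv K (x + ρ • y) = hv K x + (ρ * (∑ i, ∑ j, star (x i) * K i j * y j) +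
      star ρ * ∑ i, ∑ j, star (y i) * K i j * x j) + ((‖ρ‖ ^ 2 : ℝ) : ℂ) * hv K y := by
    rw [← nsq ρ]
    simp only [hv, Fin.sum_univ_three, Pi.add_apply, Pi.smul_apply, smul_eq_mul, star_add,
      star_mul']
    ring
  rw [hr, e, Complex.add_re, Complex.add_re, Complex.re_ofReal_mul]
  rfl

theorem hr_addK (K L : Mt) (u : V3) : hr (K + L) u = hr K u + hr L u := by
  unfold hr hv
  rw [← Complex.add_re]
  congr 1
  simp only [Fin.sum_univ_three, Matrix.add_apply]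
  ring

theorem hr_smulK (s : ℝ) (K : Mt) (u : V3) : hr ((s : ℂ) • K) u = s * hr K u := by
  unfold hr
  rw [← Complex.re_ofReal_mul]
  congr 1
  simp only [hv, Fin.sum_univ_three, Matrix.smul_apply, smul_eq_mul]
  ring

/-- a vertex form -/
def vF (K M U : Mt) (e : ℝ) : Mt := Mᴴ * K * M + (e : ℂ) • (Uᴴ * K * U)

theorem hr_vF (K M U : Mt) (e : ℝ) (u : V3) :
    hr (vF K M U e) u = hr K (M.mulVec u) + e * hr K (U.mulVec u) := by
  rw [vF, hr_addK, hr_smulK, hr_conj, hr_conj]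

/-- a form on a circle from the vertices of a square -/
theorem hr_circ {K M U : Mt} {z ρ : ℂ} (h : 2 * ‖ρ‖ ^ 2 ≤ ‖z‖ ^ 2) {u : V3} {e : ℝ}
    (he : e = ‖ρ‖ ^ 2 - ‖z‖ ^ 2)
    (h0 : 0 ≤ hr (vF K (M + z • U) U e) u)
    (h1 : 0 ≤ hr (vF K (M + (Complex.I * z) • U) U e) u)
    (h2 : 0 ≤ hr (vF K (M - z • U) U e) u)
    (h3 : 0 ≤ hr (vF K (M - (Complex.I * z) • U) U e) u) :
    0 ≤ hr K ((M + ρ • U).mulVec u) := by
  obtain ⟨w0, w1, w2, w3, k0, k1, k2, k3, ks, kρ⟩ := sq_wt h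
  obtain ⟨α, β, hl⟩ := hr_line K (M.mulVec u) (U.mulVec u)
  have hI : ‖Complex.I * z‖ = ‖z‖ := by rw [norm_mul, Complex.norm_I, one_mul]
  have E : ∀ w : ℂ, ‖w‖ = ‖z‖ → hr (vF K (M + w • U) U e) u =
      hr K (M.mulVec u) + (w * α + star w * β).re + ‖ρ‖ ^ 2 * hr K (U.mulVec u) := by
    intro w hw
    rw [hr_vF, Matrix.add_mulVec, Matrix.smul_mulVec, hl, hw, he]
    ring
  have g0 := E z rfl
  have g1 := E (Complex.I * z) hI
  have g2 := E (-z) (norm_neg z)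
  have g3 := E (-(Complex.I * z)) (by rw [norm_neg, hI])
  rw [neg_smul, ← sub_eq_add_neg] at g2 g3
  rw [g0] at h0
  rw [g1] at h1
  rw [g2] at h2
  rw [g3] at h3
  rw [Matrix.add_mulVec, Matrix.smul_mulVec, hl]
  have m0 := mul_nonneg k0 h0
  have m1 := mul_nonneg k1 h1
  have m2 := mul_nonneg k2 h2
  have m3 := mul_nonneg k3 h3
  have e1 : (ρ * α + star ρ * β).re = w0 * (z * α + star z * β).re +
      w1 * ((Complex.I * z) * α + star (Complex.I * z) * β).re +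
      w2 * (-z * α + star (-z) * β).re +
      w3 * (-(Complex.I * z) * α + star (-(Complex.I * z)) * β).re := by
    have sr : ∀ r : ℝ, star (r : ℂ) = r := fun r => Complex.conj_ofReal r
    rw [kρ, ← Complex.re_ofReal_mul, ← Complex.re_ofReal_mul, ← Complex.re_ofReal_mul,
      ← Complex.re_ofReal_mul, ← Complex.add_re, ← Complex.add_re, ← Complex.add_re]
    congr 1
    simp only [star_add, star_mul', star_neg, sr]
    ring
  have e2 : w3 = 1 - w0 - w1 - w2 := by linarith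
  rw [e1]
  rw [e2] at m3 ⊢
  nlinarith [m0, m1, m2, m3]

/-- THE INCLUSION OF THE TAIL FROM VERTEX FORMS -/
theorem inn_tail
    (H : SPC (rfJ 1 v * sDm φ a k) (rfd 1 0 v vd * sDm φ a k) μ ν th ps h hd P N Pd Nd)
    (hv : brJ 1 v v = 2) (hμ : ‖μ‖ = 1) (hν : ‖ν‖ = 1) (hh : 1 ≤ h) {n : ℕ} (hn : 1 ≤ n) {z : ℂ}
    (h3 : 2 * ‖chQ μ ν h n‖ ^ 2 ≤ ‖z‖ ^ 2) {Nc Qc M : Mt} {e : ℝ}
    (eN : N * rfJ 1 v = Nc) (eQ : (1 - P) * rfJ 1 v = Qc)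
    (he : e = chR h n ^ 2 - (h ^ 2 - 1) - ‖z‖ ^ 2)
    (eM : Nc + (chR h n : ℂ) • (rfJ 1 v - Qc) = M)
    (T0 : ∀ u ∈ NZ K1, 0 ≤ hr (vF (cK v K3) (M + z • Qc) Qc e) u)
    (T1 : ∀ u ∈ NZ K1, 0 ≤ hr (vF (cK v K3) (M + (Complex.I * z) • Qc) Qc e) u)
    (T2 : ∀ u ∈ NZ K1, 0 ≤ hr (vF (cK v K3) (M - z • Qc) Qc e) u)
    (T3 : ∀ u ∈ NZ K1, 0 ≤ hr (vF (cK v K3) (M - (Complex.I * z) • Qc) Qc e) u) :
    ∀ u ∈ NZ (cK v K1), 0 ≤ hr (cK v K3) ((rfJ 1 v).mulVec ((nM φ v a k (n - 1)).mulVec u)) := by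
  have hμ0 : μ ≠ 0 := by intro h; rw [h, norm_zero] at hμ; exact zero_ne_one hμ
  refine inn_at H hv hμ0 hh hn (fun u hu => ?_)
  rw [rT_c, eN, eQ, tF, eM]
  have h4 : ‖chQ μ ν h n‖ ^ 2 = chR h n ^ 2 - (h ^ 2 - 1) := by
    rw [chQ_norm hμ hν hh hn, chR_sq hh hn, div_pow, one_pow]
    ring
  exact hr_circ h3 (by rw [he, h4]) (T0 u hu) (T1 u hu) (T2 u hu) (T3 u hu)

end

end Pool.Agent.Helper62.NBV
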