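import Pool.Agent.Helper62.C75.NBW
import Pool.Agent.Helper26.C75.IT2
import Pool.Agent.Helper21.SW.M7B

/-!
Row (C) of M7 of MP_c75db0 (star frame): the test of the runs of a rotation of length 2 of a cell,
their data at a point, and THE INSTANCE OF THE ITEM TESTS for all kinds.
-/

set_option autoImplicit false
noncomputable section
namespace Pool.Agent.Helper62.NBX

open Matrix
open Pool.Agent.Helper90.C75 (Vt)
open Pool.Agent.Helper90.KMT
open Pool.Agent.Helper90.KMO (UU UU_pos UUc_ne cz zv zv_p)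
open Pool.Agent.Helper86.C75 (Z)
open Pool.Agent.Helper86.CX (Cx andB)
open Pool.Agent.Helper86.CT (N3 Alg Mo KM mk cst addM subM mulM conjM invM invOK A3 A4)
open Pool.Agent.Helper17.K9 (V9)
open Pool.Agent.Helper62.TVM
open Pool.Agent.Helper62.SQM
open Pool.Agent.Helper62.LBM
open Pool.Agent.Helper62.NBC
open Pool.Agent.Helper62.NBM (SN ND psB spM spOK muN thN hdN gN TSN TSN_sp ps_pos utM wtM b3M
  TOK_db)
open Pool.Agent.Helper62.NBQ
open Pool.Agent.Helper62.NBP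
open Pool.Agent.Helper62.NBT (npA muA thA TNP_a dA TV_ot TV_ot' bE_of bdE_of)
open Pool.Agent.Helper62.NBD (BP GB)
open Pool.Agent.Helper62.NBV
open Pool.Agent.Helper62.NBW
open Pool.Agent.Helper51.FR (LE LM LOK cst_nat UU_nat andB_t' RTK)
open Pool.Agent.Helper26.XH (FH HOK hL hR hH)
open Pool.Agent.Helper26.IT (kcM itK itI chK itK_K itI_K Pd_k condB)
open Pool.Agent.Helper6.MONO (V3 Kp xA fB Kp_mono)
open Pool.Agent.Helper6.MONO.W2 (Mt NT NZ IN rfJ rfd nX nM nMd Sy sDm phi Prt RPar sat sati Pd cs sc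
  sc_cs brJ hr ep nW cW vC wC SPC chS chC chD chR chS_ge chS_pos chS_mono chR_pos chR_anti
  chR_mul chR_sq chR_sq_ge tt ptF_k)
open Pool.Agent.Helper21.SW
open Pool.Agent.Helper21.NB (rB rBd SPR nb4 hdC thC gC)

variable {κ γ : Type}

/-! ### kernel side -/

/-- the trace -/
def trM (M : V9 T3) : Mo T3 := addM A3 (addM A3 M.a M.e) M.i
def gt0 (d0 : Mo T3) (v : V3m T3) : Mo T3 := trM (bM A3 (oV A3 v v) d0 (conjM A3 d0))
def gd0 (d0 : Mo T3) (v vd : V3m T3) : Mo T3 :=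
  trM (bdM A3 (addV A3 (oV A3 vd v) (oV A3 v vd)) d0 (conjM A3 d0))
/-- the trace of the block and its derivative: `E` model of `e` -/
def gtM (E : Mo T3) (F : FH T3) : Mo T3 := gt0 (erM A3 E false (nat_lit 2)) F.v
def gdM (E : Mo T3) (F : FH T3) : Mo T3 := gd0 (erM A3 E false (nat_lit 2)) F.v F.vd
/-- the spectral numbers -/
def gsM (E : Mo T3) (F : FH T3) (d : ND T3) : SN T3 := spM A3 (gtM E F) (gdM E F) d

def cN (n : Nat) : Mo T3 := cst A3 n (nat_lit 0)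
/-- the bound of `ρ` of a piece: `m` first length, `S` model of `chS h m`, `g` model of `h² - 1` -/
def pdB (m : Nat) (S g : Mo T3) (b : BP) : Bool :=
  cond (Nat.ble (nat_lit 281474976710656) (Nat.mul b.de m)) true
    (cond (psB A3 (subM A3 (mulM A3 (cN b.de) S) (onM A3))) true
      (psB A3 (addM A3 (subM A3 (mulM A3 (cN b.de) (cN b.de)) (mulM A3 (cN b.t1) (cN b.t1))) g)))
/-- the chain of the pieces: `e` end of the previous one, `N` number of pieces which are left -/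
def goB (m : Nat) (x : CH) (g : Mo T3) (l : List BP) : Nat → Nat → Bool :=
  List.rec (motive := fun _ => Nat → Nat → Bool)
    (fun e _ => psB A3 (subM A3 (mulM A3 (cN e) x.S) x.C))
    (fun b _ ih e N => Nat.rec (motive := fun _ => Bool) false
      (fun N' _ => andB (andB (Nat.ble b.t0 e) (pdB m x.S g b)) (ih b.t1 N')) N) l
/-- the first piece -/
def fiB (g : Mo T3) (b : BP) : Bool :=
  cond (Nat.beq b.t0 (nat_lit 0)) true
    (psB A3 (subM A3 g (mulM A3 (cN b.t0) (cN b.t0))))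
def cv1 (m NB : Nat) (x : CH) (g : Mo T3) (l : List BP) : Bool :=
  List.rec (motive := fun _ => Bool) false (fun b _ _ => andB (fiB g b) (goB m x g l b.t0 NB)) l
/-- the pieces cover all lengths larger than `nB` -/
def cvB (nB NB : Nat) (bp : List BP) (s : SN T3) : Bool :=
  andB (Nat.ble (nat_lit 1) nB) (cv1 (Nat.succ nB) NB (chN s.h (g1M s.h) (Nat.succ nB)) (g1M s.h) bp)
/-- THE TEST OF THE RUNS OF A CELL -/
def gbB (C : Cel κ) (d : GB T3) : Bool :=
  andB (Nat.ble (nat_lit 7) C.D.p) (andB (spOK A3 (gtM C.x.e C.H) d.nd)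
    (cvB C.D.nB C.D.NB d.bp (gsM C.x.e C.H d.nd)))
/-- the models of the letter `(a, 2)` -/
def glM (C : Cel κ) (d : GB T3) (a : Bool) : LC := lcM (gsM C.x.e C.H d.nd) C.x.e C.H a

/-! ### the coverage -/

section
variable {t : ℕ → ℝ} {h : ℝ} {m : ℕ} {x : CH} {g : Mo T3}

theorem TOK_cN (hP : PT 3 t) (n : ℕ) : TOK 3 lf3 t ((n / UU : ℝ) : ℂ) (cN n) :=
  tc (cst_nat a3 hP n) (by push_cast; ring)

theorem pd_ok (hP : PT 3 t) (hh : 1 ≤ h) (hm : 1 ≤ m) {S : Mo T3}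
    (hS : TOK 3 lf3 t ((chS h m : ℝ) : ℂ) S) (hg : TOK 3 lf3 t ((h ^ 2 - 1 : ℝ) : ℂ) g) {b : BP}
    (hb : pdB m S g b = true) {n : ℕ} (hn : m ≤ n) (h1 : chR h n ≤ (b.t1 : ℝ) / UU) :
    1 / chS h n ≤ (b.de : ℝ) / UU := by
  have hU := UU_pos
  have hn1 : 1 ≤ n := hm.trans hn
  have hs := chS_pos hh hn1
  have hsm := chS_pos hh hm
  rcases condB hb with ⟨hb, _⟩ | hb
  · have k1 : 281474976710656 ≤ b.de * m := Nat.le_of_ble_eq_true hb
    have k2 : UU ≤ (b.de : ℝ) * m := by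
      rw [← UU_nat]
      exact_mod_cast k1
    rw [div_le_div_iff₀ hs hU, one_mul]
    have k3 : (m : ℝ) ≤ chS h n := le_trans (by exact_mod_cast hn) (chS_ge hh n)
    exact k2.trans (mul_le_mul_of_nonneg_left k3 (Nat.cast_nonneg _))
  rcases condB hb with ⟨hb, _⟩ | hb
  · have k := ps_pos a3 hP (f := (b.de : ℝ) / UU * chS h m - 1)
      (tc (((TOK_cN hP b.de).mul a3 hP hS).sub a3 (TOK_on a3 hP)) (by push_cast; ring)) hb
    have k2 : chS h m ≤ chS h n := (chS_mono hh).monotone hn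
    have k3 : (b.de : ℝ) / UU * chS h m ≤ b.de / UU * chS h n :=
      mul_le_mul_of_nonneg_left k2 (by positivity)
    rw [div_le_iff₀ hs]
    linarith
  · have k := ps_pos a3 hP (f := (b.de : ℝ) / UU * (b.de / UU) - b.t1 / UU * (b.t1 / UU) +
      (h ^ 2 - 1)) (tc ((((TOK_cN hP b.de).mul a3 hP (TOK_cN hP b.de)).sub a3
        ((TOK_cN hP b.t1).mul a3 hP (TOK_cN hP b.t1))).add a3 hg) (by push_cast; ring)) hb
    have k2 := chR_sq hh hn1
    have hr := chR_pos hh hn1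
    have k3 : chR h n ^ 2 ≤ ((b.t1 : ℝ) / UU) ^ 2 := pow_le_pow_left₀ hr.le h1 2
    have k4 : (1 / chS h n) ^ 2 ≤ ((b.de : ℝ) / UU) ^ 2 := by
      have e : (1 / chS h n) ^ 2 = chR h n ^ 2 - (h ^ 2 - 1) := by
        rw [k2, one_div, inv_pow]
        ring
      rw [e]
      nlinarith
    exact le_of_sq_le_sq k4 (by positivity)

theorem ry_of {e : ℕ} (hP : PT 3 t) (hh : 1 ≤ h) (hm : 1 ≤ m) (hx : TCH t h m x)
    (hb : psB A3 (subM A3 (mulM A3 (cN e) x.S) x.C) = true) : chR h m < (e : ℝ) / UU := by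
  have k := ps_pos a3 hP (f := (e : ℝ) / UU * chS h m - chC h m)
    (tc (((TOK_cN hP e).mul a3 hP hx.S).sub a3 hx.C) (by push_cast; ring)) hb
  rw [← chR_mul hh hm] at k
  have hs := chS_pos hh hm
  by_contra hc
  push Not at hc
  have := mul_le_mul_of_nonneg_right hc hs.le
  linarith

/-- the chain -/
theorem go_ok (hP : PT 3 t) (hh : 1 ≤ h) (hm : 2 ≤ m) (hx : TCH t h m x)
    (hg : TOK 3 lf3 t ((h ^ 2 - 1 : ℝ) : ℂ) g) {n : ℕ} (hn : m ≤ n) :
    ∀ (l : List BP) (e N : ℕ), goB m x g l e N = true → (e : ℝ) / UU ≤ chR h n →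
      ∃ i < N, bcR h l i n
  | [], e, N, hb, he => by
    exfalso
    have k := ry_of hP hh (by omega) hx (e := e) hb
    have k2 := chR_anti hh (m := m) (by omega) hn
    linarith
  | b :: l, e, 0, hb, _ => absurd (show false = true from hb) Bool.false_ne_true
  | b :: l, e, N + 1, hb, he => by
    obtain ⟨b1, b2⟩ := andB_t' (show andB (andB (Nat.ble b.t0 e) (pdB m x.S g b))
      (goB m x g l b.t1 N) = true from hb)
    obtain ⟨b3, b4⟩ := andB_t' b1
    have k0 : (b.t0 : ℝ) ≤ e := by exact_mod_cast Nat.le_of_ble_eq_true b3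
    rcases le_total (chR h n) ((b.t1 : ℝ) / UU) with h1 | h1
    · refine ⟨0, Nat.succ_pos _, b, rfl, ?_, h1, pd_ok hP hh (by omega) hx.S hg b4 hn h1,
        by omega⟩
      exact (div_le_div_of_nonneg_right k0 UU_pos.le).trans he
    · obtain ⟨i, hi, c, hc, k⟩ := go_ok hP hh hm hx hg hn l b.t1 N b2 h1
      exact ⟨i + 1, Nat.succ_lt_succ hi, c, by simpa using hc, k⟩

/-- THE PIECES COVER ALL LENGTHS -/
theorem cv_ok (hP : PT 3 t) (hh : 1 ≤ h) {s : SN T3} (hs : TOK 3 lf3 t ((h : ℝ) : ℂ) s.h)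
    {nB NB : ℕ} {bp : List BP} (hb : cvB nB NB bp s = true) {n : ℕ} (hn : nB < n) :
    ∃ i < NB, bcR h bp i n := by
  obtain ⟨b1, b2⟩ := andB_t' hb
  have hn1 : 1 ≤ nB := Nat.le_of_ble_eq_true b1
  have hg := TOK_g1 hP hs
  have hx := TCH_all hP hs hg (nB + 1)
  cases bp with
  | nil => exact absurd (show false = true from b2) Bool.false_ne_true
  | cons b l =>
    obtain ⟨b3, b4⟩ := andB_t' (show andB (fiB (g1M s.h) b) (goB (nB + 1)
      (chN s.h (g1M s.h) (nB + 1)) (g1M s.h) (b :: l) b.t0 NB) = true from b2)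
    refine go_ok hP hh (by omega) hx hg hn (b :: l) b.t0 NB b4 ?_
    have hn2 : 1 ≤ n := by omega
    have hr := chR_pos hh hn2
    rcases condB b3 with ⟨k, _⟩ | k
    · have e : b.t0 = 0 := Nat.eq_of_beq_eq_true k
      rw [e, Nat.cast_zero, zero_div]
      exact hr.le
    · have k1 := ps_pos a3 hP (f := (h ^ 2 - 1) - (b.t0 : ℝ) / UU * (b.t0 / UU))
        (tc (hg.sub a3 ((TOK_cN hP b.t0).mul a3 hP (TOK_cN hP b.t0))) (by push_cast; ring)) k
      have k2 := chR_sq_ge hh hn2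
      exact le_of_sq_le_sq (by nlinarith) hr.le

/-! ### the data at a point -/

/-- THE DATA OF THE RUNS AT A POINT -/
structure GPt (p : ℕ) (v vd : V3) (t : ℕ → ℝ) (K : Bool → LC) (h : ℝ) : Prop where
  h1 : 1 ≤ h
  sp : ∀ a : Bool, ∃ (μ : ℂ) (th hd : ℝ) (P N Pd Nd : Mt), 0 ≤ hd ∧ star μ * μ = 1 ∧
    SPC (rfJ 1 v * sDm (phi p) a 2) (rfd 1 0 v vd * sDm (phi p) a 2) μ (-star μ ^ 2) th (-2 * th) h
      hd P N Pd Nd ∧ TLC t v μ th h hd P N Pd Nd (K a)

/-- the trace of a model -/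
theorem TV_tr {M : Mt} {U : V9 T3} (hU : TV 3 lf3 t M U) : TOK 3 lf3 t M.trace (trM U) :=
  tc ((hU.a.add a3 hU.e).add a3 hU.i) (Matrix.trace_fin_three M).symm

end

theorem Kp_7 {p : ℕ} (hp : 7 ≤ p) : 3 < Kp p ^ 2 := by
  have h6 : Kp 6 ^ 2 = 3 := by
    unfold Kp
    have e : Real.cos (Real.pi / ((6 : ℕ) : ℝ)) = Real.sqrt 3 / 2 := by
      have := Real.cos_pi_div_six
      push_cast
      exact this
    rw [e]
    have := Real.sq_sqrt (show (0 : ℝ) ≤ 3 by norm_num)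
    ring_nf
    linarith
  have h0 : 0 < Kp 6 := by
    unfold Kp
    have e : Real.cos (Real.pi / ((6 : ℕ) : ℝ)) = Real.sqrt 3 / 2 := by
      have := Real.cos_pi_div_six
      push_cast
      exact this
    rw [e]
    positivity
  have h7 : Kp 6 < Kp p := by
    unfold Kp
    have hp' : (6 : ℝ) < p := by exact_mod_cast (show 6 < p by omega)
    have hpi := Real.pi_pos
    have : Real.cos (Real.pi / ((6 : ℕ) : ℝ)) < Real.cos (Real.pi / (p : ℝ)) := by
      apply Real.cos_lt_cos_of_nonneg_of_le_pi (by positivity)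
      · push_cast
        rw [div_le_iff₀ (by norm_num)]
        nlinarith
      · push_cast
        exact div_lt_div_of_pos_left hpi (by norm_num) hp'
    linarith
  rw [← h6]
  exact pow_lt_pow_left₀ h7 h0.le two_ne_zero

theorem SN_7 {p q r : ℕ} (hp : 7 ≤ p) (hpq : p ≤ q) (hqr : q ≤ r) :
    6 < Pool.Agent.Helper21.NB.SN p q r := by
  have a := Kp_7 hp
  have b := Kp_7 (hp.trans hpq)
  have c := Kp_7 ((hp.trans hpq).trans hqr)
  unfold Pool.Agent.Helper21.NB.SN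
  linarith

section

variable {C : Cel κ} {q r : ℕ} {x : ℝ} {t : ℕ → ℝ} {d : GB T3}

theorem TOK_gt (hP : PT 3 t) {p : ℕ} {v : V3} {F : FH T3} {E : Mo T3} (hv : TW 3 lf3 t v F.v)
    (hE : TOK 3 lf3 t (ep (phi p)) E) : TOK 3 lf3 t (rB p v).trace (gtM E F) := by
  have hd := TOK_er a3 hP hE false 2
  have h := TV_b a3 hP (TV_ot a3 hP hv) hd (hd.conj a3)
  have e : rB p v = bE (ot v (yv v)) (dA (phi p) false) (star (dA (phi p) false)) := bE_of _ _ _
  rw [e]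
  exact TV_tr h

theorem TOK_gd (hP : PT 3 t) {p : ℕ} {v vd : V3} {F : FH T3} {E : Mo T3}
    (hv : TW 3 lf3 t v F.v) (hd : TW 3 lf3 t vd F.vd) (hE : TOK 3 lf3 t (ep (phi p)) E) :
    TOK 3 lf3 t (rBd p v vd).trace (gdM E F) := by
  have h0 := TOK_er a3 hP hE false 2
  have h := TV_bd a3 hP (TV_ot' a3 hP hv hd) h0 (h0.conj a3)
  have e : rBd p v vd = bdE (ot vd (yv v) + ot v (yv vd)) (dA (phi p) false)
      (star (dA (phi p) false)) := bdE_of _ _ _ _
  rw [e]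
  exact TV_tr h

/-- **THE DATA OF THE RUNS AT A POINT OF A CELL** -/
theorem gb_pt (hC : PtC C q r x t) (hg : C.D.gb = true) (hb : gbB C d = true) :
    ∃ h : ℝ, GPt C.D.p (vX C q r x) (wX C q r x) t (glM C d) h ∧
      ∀ n, C.D.nB < n → ∃ i < C.D.NB, bcR h d.bp i n := by
  obtain ⟨b1, b2⟩ := andB_t' hb
  obtain ⟨b3, b4⟩ := andB_t' b2
  have hp7 : 7 ≤ C.D.p := Nat.le_of_ble_eq_true b1
  have hp3 := hC.hp
  have hq : 3 ≤ q := hp3.trans hC.hpq
  have hr : 3 ≤ r := hq.trans hC.hqr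
  obtain ⟨htt, hx1, two, tan, _, _⟩ := ptF_k hC.hp hC.hpq hC.hqr hC.hr4 hC.hxA hC.hx2
  have hE := hC.bx.e
  have hT := TOK_gt hC.hP hC.H.hv hE
  have hTd := TOK_gd hC.hP hC.H.hv hC.H.hvd hE
  obtain ⟨c1, _⟩ := andB_t' b3
  obtain ⟨c2, _⟩ := andB_t' c1
  obtain ⟨_, c4⟩ := andB_t' c2
  have two' : TOK 3 lf3 t ((2 * (rB C.D.p (vX C q r x)).trace.re : ℝ) : ℂ)
      (re2M A3 (gtM C.x.e C.H)) := TOK_re2 a3 hT
  have hW : TOK 3 lf3 t ((2 * (rB C.D.p (vX C q r x)).trace.im : ℝ) * Complex.I)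
      (wtM A3 (gtM C.x.e C.H)) := by
    refine tc (hT.sub a3 (hT.conj a3)) ?_
    apply Complex.ext
    · simp
    · simp; ring
  have h3 : TOK 3 lf3 t ((-(3 * (2 * (rB C.D.p (vX C q r x)).trace.re) ^ 2 -
      (2 * (rB C.D.p (vX C q r x)).trace.im) ^ 2) : ℝ) : ℂ)
      (b3M A3 (re2M A3 (gtM C.x.e C.H)) (wtM A3 (gtM C.x.e C.H))) := by
    have rr := two'.mul a3 hC.hP two'
    refine tc (TOK_neg a3 hC.hP ((rr.add a3 (TOK_db a3 rr)).add a3 (hW.mul a3 hC.hP hW))) ?_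
    push_cast
    linear_combination (-(4 * ((rB C.D.p (vX C q r x)).trace.im : ℂ) ^ 2)) * Complex.I_sq
  have h4 := ps_pos a3 hC.hP h3 c4
  obtain ⟨eT, _⟩ := Pool.Agent.Helper21.NB.tr_pt hp3 hq hr hx1 hC.hx2 htt
  have eT' : (rB C.D.p (vX C q r x)).trace = _ := eT
  have hx4 : (0 : ℝ) ≤ 1 - (x / 2) ^ 2 := by nlinarith [hC.hx2]
  have h5 : 3 * (Pool.Agent.Helper21.NB.SN C.D.p q r + Pool.Agent.Helper21.NB.KN C.D.p q r * x / 2) ^ 2
      < Pool.Agent.Helper21.NB.KN C.D.p q r ^ 2 * (1 - x ^ 2 / 4) := by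
    rw [eT'] at h4
    have e : (2 * (Pool.Agent.Helper21.NB.KN C.D.p q r * Real.sqrt (1 - (x / 2) ^ 2))) ^ 2 =
        4 * (Pool.Agent.Helper21.NB.KN C.D.p q r ^ 2 * (1 - x ^ 2 / 4)) := by
      rw [mul_pow, mul_pow, Real.sq_sqrt hx4]
      ring
    have h6 : 0 < -(3 * (2 * (Pool.Agent.Helper21.NB.SN C.D.p q r +
      Pool.Agent.Helper21.NB.KN C.D.p q r * x / 2)) ^ 2 -
      (2 * (Pool.Agent.Helper21.NB.KN C.D.p q r * Real.sqrt (1 - (x / 2) ^ 2))) ^ 2) := h4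
    rw [e] at h6
    linarith
  obtain ⟨c, s, h, b, H, _, t2, hd0, _⟩ := nb4 (by omega) hC.hpq hC.hqr hC.hxA hx1 hC.hx2 htt
    (SN_7 hp7 hC.hpq hC.hqr) h5 (hC.hQ hg)
  have HB : Br ((rB C.D.p (vX C q r x)).trace.re - 1) (rB C.D.p (vX C q r x)).trace.im c s h := by
    rw [eT']
    exact ⟨H.s0, H.one, H.C1, H.hC, by show _ - 1 = _; rw [H.re]; ring, H.im⟩
  have hM := TSN_sp a3 hC.hP hT hTd HB b3
  have hSR := SR.of_Br (Td := (rBd C.D.p (vX C q r x) (wX C q r x)).trace) HB hM.ne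
  have hG := TSG.of hM
  have hdd : hdN c s h (rBd C.D.p (vX C q r x) (wX C q r x)).trace =
      hdC c s h (2 * Real.sin (phi C.D.p) ^ 2) b := by
    have t2' : (rBd C.D.p (vX C q r x) (wX C q r x)).trace = _ := t2
    rw [t2']
    unfold hdN thN gN muN hdC thC
    simp only [Complex.mul_re, Complex.mul_im, Complex.star_def, Complex.conj_re, Complex.conj_im]
    have e : h + c * (4 * c ^ 2 - 3) = h + 4 * c ^ 3 - 3 * c := by ring
    rw [e]
    have e2 : (2 * Real.sin (phi C.D.p) ^ 2 * -s + b * c) = b * c - 2 * Real.sin (phi C.D.p) ^ 2 * s := by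
      ring
    rw [e2]
    ring
  refine ⟨h, ⟨H.h1, fun a => ?_⟩, fun n hn => cv_ok hC.hP H.h1 hM.hh b4 hn⟩
  obtain ⟨P, N, Pd, Nd, K, hX⟩ := TNP_a a3 hC.hP hC.H.hv hC.H.hvd two tan hE hSR hG rfl rfl a
  refine ⟨muA a c s, thA a _, _, P, N, Pd, Nd, ?_, ?_, K, ?_⟩
  · rw [hdd]
    exact hd0.le
  · cases a with
    | false => exact hSR.u
    | true =>
      show star (star (muN c s)) * star (muN c s) = 1
      rw [star_star, mul_comm]
      exact hSR.u
  · cases a with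
    | false => exact TLC_mk hC.hP hC.H.hc hX hG
    | true => exact TLC_mk hC.hP hC.H.hc hX (hG.cj a3)

/-! ### the dispatcher -/

/-- kinds 6 and 7 -/
def gK (T : TK κ γ) (F : FH T3) (K : LC) (bp : List BP) (k n : Nat) (k1 k2 : κ) (Sl Sr : V9 T3)
    (gs : List γ) : Bool :=
  cond (Nat.beq k (nat_lit 6)) (nth gs (fun g => bxK T F K n k1 k2 Sl Sr g) (nat_lit 0))
    (btK T F K bp n k1 k2 Sl Sr gs)
def gI (K : LC) (bp : List BP) (k n : Nat) (m : Mu) (K1 Kc : KM T3) : Bool :=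
  cond (Nat.beq k (nat_lit 6)) (bxI K n m K1 Kc) (btI K bp n m K1 Kc)
/-- a letter with runs -/
def isG (gb : Bool) (c : Nat) : Bool := andB gb (Nat.beq (Nat.div c (nat_lit 2)) (nat_lit 2))
/-- **ONE ITEM, ALL KINDS** -/
def itG (T : TK κ γ) (C : Cel κ) (d : GB T3) (c P : Nat) (k1 k2 : κ) (Sl Sr : V9 T3)
    (gs : List γ) : Bool :=
  cond (Nat.ble (nat_lit 6) (Nat.mod P (nat_lit 8)))
    (andB (isG C.D.gb c) (gK T C.H (glM C d (Nat.beq (Nat.mod c (nat_lit 2)) (nat_lit 1))) d.bp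
      (Nat.mod P (nat_lit 8)) (Nat.div P (nat_lit 8)) k1 k2 Sl Sr gs))
    (nth gs (fun g => itK T C.H (C.L c) (C.tb c) (chK c (C.tb c) (C.L c).w) c P k1 k2 Sl Sr g)
      (nat_lit 0))
/-- **ONE INVARIANCE ITEM, ALL KINDS** -/
def itJ (T : TK κ γ) (C : Cel κ) (d : GB T3) (c P : Nat) (k1 kt : κ) (m : Mu) : Bool :=
  cond (Nat.ble (nat_lit 6) (Nat.mod P (nat_lit 8)))
    (andB (isG C.D.gb c) (gI (glM C d (Nat.beq (Nat.mod c (nat_lit 2)) (nat_lit 1))) d.bp
      (Nat.mod P (nat_lit 8)) (Nat.div P (nat_lit 8)) m (T.km k1) (kcM T C.H kt)))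
    (itI T C.H (C.L c) (C.tb c) (chK c (C.tb c) (C.L c).w) c P k1 kt m)
/-- THE INSTANCE -/
def itGI (T : TK κ γ) (d : GB T3) : IT κ (List γ) :=
  ⟨fun C c P k1 k2 Sl Sr gs => itG T C d c P k1 k2 Sl Sr gs,
    fun C c P k1 kt m => itJ T C d c P k1 kt m⟩

theorem P_67 {P : ℕ} (h : Nat.ble (nat_lit 6) (Nat.mod P (nat_lit 8)) = true) :
    P % 8 = 6 ∨ P % 8 = 7 := by
  have h1 : 6 ≤ P % 8 := Nat.le_of_ble_eq_true h
  omega

/-- **THE LAWS OF THE ITEMS, ALL KINDS** -/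
theorem itl_G {T : TK κ γ} {KV : κ → (ℕ → ℝ) → Mt} (hT : TKL KV T) (hC : PtC C q r x t)
    (hb : C.D.gb = true → gbB C d = true) : ∃ bc : ℕ → ℕ → Prop,
      (C.D.gb = true → ∀ n, C.D.nB < n → ∃ i < C.D.NB, bc i n) ∧
      ITL KV (itGI T d) C q r x t (RTK C.tb (nW (phi C.D.p) (vX C q r x)) bc) := by
  obtain ⟨htt, hx1, two, tan, _, _⟩ := ptF_k hC.hp hC.hpq hC.hqr hC.hr4 hC.hxA hC.hx2
  obtain ⟨h, hG⟩ : ∃ h : ℝ, C.D.gb = true → GPt C.D.p (vX C q r x) (wX C q r x) t (glM C d) h ∧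
      ∀ n, C.D.nB < n → ∃ i < C.D.NB, bcR h d.bp i n := by
    by_cases hg : C.D.gb = true
    · obtain ⟨h, H⟩ := gb_pt hC hg (hb hg)
      exact ⟨h, fun _ => H⟩
    · exact ⟨0, fun h => absurd h hg⟩
  refine ⟨bcR h d.bp, fun hg => (hG hg).2, ⟨?_, ?_⟩⟩
  · intro c P k1 k2 Sl Sr gs S S' hk hl hr
    obtain ⟨g, rfl⟩ : ∃ g : Sy, c = sc g := ⟨cs c, (sc_cs c).symm⟩
    have ecs : cs (sc g) = g := Pool.Agent.Helper6.MONO.W2.TY.cs_sc g
    have hL : LOK 3 lf3 t C.D.p (vX C q r x) (wX C q r x) (cs (sc g)) (C.L (sc g)) := by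
      rw [ecs]
      exact hC.L g
    rcases condB hk with ⟨h6, h7⟩ | h7
    · obtain ⟨g1, g2⟩ := andB_t' h7
      obtain ⟨g3, g4⟩ := andB_t' (show andB C.D.gb (Nat.beq (Nat.div (sc g) (nat_lit 2))
        (nat_lit 2)) = true from g1)
      have e2 : g.2 = 2 := by
        have k : Nat.div (sc g) 2 = 2 := Nat.eq_of_beq_eq_true g4
        rwa [sc_div2] at k
      obtain ⟨μ, th, hd, P', N, Pd', Nd, m1, m2, m3, m4⟩ := (hG g3).1.sp g.1
      have hh := (hG g3).1.h1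
      rw [sc_mod] at g2
      replace m3 : SPC (rfJ 1 (vX C q r x) * sDm (phi C.D.p) g.1 g.2)
          (rfd 1 0 (vX C q r x) (wX C q r x) * sDm (phi C.D.p) g.1 g.2) μ (-star μ ^ 2) th (-2 * th) h
          hd P' N Pd' Nd := by
        rw [e2]
        exact m3
      rcases P_67 h6 with e | e
      · have ee : Nat.beq (Nat.mod P (nat_lit 8)) (nat_lit 6) = true := by
          show Nat.beq (P % 8) 6 = true
          rw [e]
          rfl
        unfold gK at g2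
        rw [ee] at g2
        rw [ecs, Pd_k, e]
        obtain ⟨y, _, g5⟩ := nth_t (show nth gs (fun g' => bxK T C.H (glM C d g.1)
          (Nat.div P (nat_lit 8)) k1 k2 Sl Sr g') (nat_lit 0) = true from g2)
        exact bxK_ok hT hC.hP two tan hC.H m3 m2 m4 hl hr g5
      · have ee : Nat.beq (Nat.mod P (nat_lit 8)) (nat_lit 6) = false := by
          show Nat.beq (P % 8) 6 = false
          rw [e]
          rfl
        unfold gK at g2
        rw [ee] at g2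
        rw [ecs, Pd_k, e]
        intro n hn
        exact btK_ok hT hC.hP two tan hC.H m3 m2 hh m1 m4 hl hr (show btK T C.H (glM C d g.1) d.bp
          (Nat.div P (nat_lit 8)) k1 k2 Sl Sr gs = true from g2) hn
    · obtain ⟨y, _, g5⟩ := nth_t h7
      exact itK_K hT hC.hP two hC.H hL hl hr g5
  · intro c P k1 kt m hk
    obtain ⟨g, rfl⟩ : ∃ g : Sy, c = sc g := ⟨cs c, (sc_cs c).symm⟩
    have ecs : cs (sc g) = g := Pool.Agent.Helper6.MONO.W2.TY.cs_sc g
    have hL : LOK 3 lf3 t C.D.p (vX C q r x) (wX C q r x) (cs (sc g)) (C.L (sc g)) := by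
      rw [ecs]
      exact hC.L g
    rcases condB hk with ⟨h6, h7⟩ | h7
    · obtain ⟨g1, g2⟩ := andB_t' h7
      obtain ⟨g3, g4⟩ := andB_t' (show andB C.D.gb (Nat.beq (Nat.div (sc g) (nat_lit 2))
        (nat_lit 2)) = true from g1)
      have e2 : g.2 = 2 := by
        have k : Nat.div (sc g) 2 = 2 := Nat.eq_of_beq_eq_true g4
        rwa [sc_div2] at k
      obtain ⟨μ, th, hd, P', N, Pd', Nd, m1, m2, m3, m4⟩ := (hG g3).1.sp g.1
      have hh := (hG g3).1.h1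
      rw [sc_mod] at g2
      replace m3 : SPC (rfJ 1 (vX C q r x) * sDm (phi C.D.p) g.1 g.2)
          (rfd 1 0 (vX C q r x) (wX C q r x) * sDm (phi C.D.p) g.1 g.2) μ (-star μ ^ 2) th (-2 * th) h
          hd P' N Pd' Nd := by
        rw [e2]
        exact m3
      rcases P_67 h6 with e | e
      · have ee : Nat.beq (Nat.mod P (nat_lit 8)) (nat_lit 6) = true := by
          show Nat.beq (P % 8) 6 = true
          rw [e]
          rfl
        unfold gI at g2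
        rw [ee] at g2
        rw [ecs, Pd_k, e]
        exact bxI_ok hT hC.hP two hC.H m3 m2 m4 (show bxI (glM C d g.1) (Nat.div P (nat_lit 8)) m
          (T.km k1) (kcM T C.H kt) = true from g2)
      · have ee : Nat.beq (Nat.mod P (nat_lit 8)) (nat_lit 6) = false := by
          show Nat.beq (P % 8) 6 = false
          rw [e]
          rfl
        unfold gI at g2
        rw [ee] at g2
        rw [ecs, Pd_k, e]
        intro n hn
        exact btI_ok hT hC.hP two hC.H m3 m2 hh m4 (show btI (glM C d g.1) d.bp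
          (Nat.div P (nat_lit 8)) m (T.km k1) (kcM T C.H kt) = true from g2) hn
    · exact itI_K hT hC.hP two hC.H hL h7

end

end Pool.Agent.Helper62.NBX
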