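import Pool.Agent.Helper62.C75.NBM

/-!
Row (C) of M7 of MP_c75db0 (star frame): data of the runs of a rotation of length 2.
-/

set_option autoImplicit false
namespace Pool.Agent.Helper62.NBD

open Pool.Agent.Helper86.C75 (Z)
open Pool.Agent.Helper86.CX (Cx)
open Pool.Agent.Helper86.CT (N3)
open Pool.Agent.Helper62.NBM (ND)

/-- A PIECE OF THE TAIL (units `2 ^ (-48)`): `t0 ≤ r ≤ t1`, bound `de` of `ρ`, vertex `zr + i zi` of
a square around the disc; `ex = true`: the directions are multiplied by `r`; `ex = false`: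
`ka (h² - 1) ≤ (h² - 1) / r` (`ka t1 ≤ 1`) and `(h² - 1) / r ≤ r` (`kb = 0`) or
`(h² - 1) / r ≤ kb (h² - 1)` (`1 ≤ kb t0`); `et`: bound of `n / chS h n`; `la` (a number, not in
units): `la` times the vertex is a vertex for `n ρ`, `la ≤ n`; `kd`, `ke`: multipliers of
`t0 chS h m - chC h m` in the tests of `de`, `et` -/
structure BP where
  t0 : Nat
  t1 : Nat
  de : Nat
  zr : Nat
  zi : Nat
  ka : Nat
  kb : Nat
  et : Nat
  la : Nat
  kd : Nat
  ke : Nat
  ex : Bool

/-- DATA OF THE RUNS FOR A CELL: data of the spectral numbers, pieces of the tail -/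
structure GB (α : Type) where
  nd : ND α
  bp : List BP

/-- no data (cells without runs) -/
def gb0 : GB (N3 (N3 (N3 Cx))) :=
  ⟨⟨N3.k (N3.k (N3.k ⟨Z.p (nat_lit 0), Z.p (nat_lit 0)⟩)), (nat_lit 0),
    N3.k (N3.k (N3.k ⟨Z.p (nat_lit 0), Z.p (nat_lit 0)⟩)), (nat_lit 0), (nat_lit 0)⟩, []⟩

end Pool.Agent.Helper62.NBD
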