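import Pool.Agent.C75W.Im

/-!
The real part of the double eigenvalue branch (MP_c75db0, star frame, row NB5): the sign of a
polynomial decides the position of `C = Re μ`.
-/

set_option autoImplicit false
noncomputable section
namespace Pool.Agent.Helper62.NBC

/-- the equation of `C`, `A = Re T - 1`, `T = Im T` -/
def gB (A T y : ℝ) : ℝ := (1 - y ^ 2) * (A + 4 * y ^ 2) ^ 2 - T ^ 2 * y ^ 2

/-- the data `C + i s = μ`, `h` of `T = 2 h μ - conj μ²` -/
structure Br (A T C s h : ℝ) : Prop where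
  s0 : 0 < s
  cs : s ^ 2 + C ^ 2 = 1
  c1 : C < 1 / 2
  hC : 0 < h + C
  re : A = 2 * h * C - 2 * C ^ 2
  im : T = 2 * s * (h + C)

theorem Br.pos {A T C s h : ℝ} (H : Br A T C s h) (hA : 0 < A) : 0 < C := by
  have h1 : 0 < C * (2 * (h + C)) := by
    have : C * (2 * (h + C)) = A + 4 * C ^ 2 := by rw [H.re]; ring
    rw [this]; positivity
  have h2 : 0 < 2 * (h + C) := by linarith [H.hC]
  by_contra hc
  push Not at hc
  have := mul_nonpos_of_nonpos_of_nonneg hc h2.le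
  linarith

theorem Br.root {A T C s h : ℝ} (H : Br A T C s h) : gB A T C = 0 := by
  have h1 : A + 4 * C ^ 2 = 2 * C * (h + C) := by rw [H.re]; ring
  have h2 : 1 - C ^ 2 = s ^ 2 := by linarith [H.cs]
  unfold gB
  rw [h1, h2, H.im]
  ring

/-- the quadratic factor is negative on the interval -/
theorem quad_neg {A T Y0 Y : ℝ} (hA : 0 < A) (hT : 3 * (A + 1) ^ 2 < T ^ 2) (h0 : 0 < Y0)
    (h1 : Y0 < 1 / 4) (hr : (1 - Y0) * (A + 4 * Y0) ^ 2 - T ^ 2 * Y0 = 0) (y0 : 0 < Y)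
    (y1 : Y < 1 / 4) : Y0 * (-16 * Y ^ 2 + (16 - 8 * A - 16 * Y0) * Y) - A ^ 2 ≤ 0 := by
  by_contra hc
  push Not at hc
  have hq : Y0 * (-16 * (1 / 4) ^ 2 + (16 - 8 * A - 16 * Y0) * (1 / 4)) - A ^ 2 < 0 := by
    have e : (1 / 4 - Y0) * (Y0 * (-16 * (1 / 4) ^ 2 + (16 - 8 * A - 16 * Y0) * (1 / 4)) - A ^ 2) =
        Y0 * ((1 - 1 / 4) * (A + 4 * (1 / 4)) ^ 2 - T ^ 2 * (1 / 4)) -
          1 / 4 * ((1 - Y0) * (A + 4 * Y0) ^ 2 - T ^ 2 * Y0) := by ring
    have h2 : Y0 * ((1 - 1 / 4) * (A + 4 * (1 / 4)) ^ 2 - T ^ 2 * (1 / 4)) < 0 := by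
      apply mul_neg_of_pos_of_neg h0
      nlinarith
    rw [hr, mul_zero, sub_zero] at e
    rw [← e] at h2
    by_contra h3
    push Not at h3
    have := mul_nonneg (show (0 : ℝ) ≤ 1 / 4 - Y0 by linarith) h3
    linarith
  set b := 16 - 8 * A - 16 * Y0 with hb
  have hA2 : 0 < A ^ 2 := by positivity
  -- the slope
  have g1 : 0 < Y0 * ((1 / 4 - Y) * (16 * Y + 4 - b)) := by
    have e : Y0 * ((1 / 4 - Y) * (16 * Y + 4 - b)) = (Y0 * (-16 * Y ^ 2 + b * Y) - A ^ 2) -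
      (Y0 * (-16 * (1 / 4) ^ 2 + b * (1 / 4)) - A ^ 2) := by ring
    rw [e]; linarith
  have g2 : 0 < (1 / 4 - Y) * (16 * Y + 4 - b) := by
    by_contra h3
    push Not at h3
    have := mul_nonpos_of_nonneg_of_nonpos h0.le h3
    linarith
  have g3 : b < 8 := by
    by_contra h3
    push Not at h3
    have h4 : 16 * Y + 4 - b ≤ 0 := by linarith
    have := mul_nonpos_of_nonneg_of_nonpos (show (0 : ℝ) ≤ 1 / 4 - Y by linarith) h4
    linarith
  have g4 : 0 < -16 * Y ^ 2 + b * Y := by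
    by_contra h3
    push Not at h3
    have := mul_nonpos_of_nonneg_of_nonpos h0.le h3
    linarith
  have g5 : 0 < b := by
    by_contra h3
    push Not at h3
    have := mul_nonpos_of_nonpos_of_nonneg h3 y0.le
    nlinarith
  have g6 : -16 * Y ^ 2 + b * Y ≤ b ^ 2 / 64 := by nlinarith [sq_nonneg (32 * Y - b)]
  have g7 : b ^ 2 / 64 < 1 := by nlinarith
  have g8 : A ^ 2 < 1 / 4 := by
    have : Y0 * (-16 * Y ^ 2 + b * Y) ≤ Y0 * 1 := mul_le_mul_of_nonneg_left (by linarith) h0.le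
    linarith
  have g9 : 1 / 2 < A := by
    rw [hb] at g3
    linarith
  nlinarith

/-- THE SIGN DECIDES -/
theorem Br.sign {A T C s h : ℝ} (H : Br A T C s h) (hA : 0 < A) (hT : 3 * (A + 1) ^ 2 < T ^ 2)
    {y : ℝ} (y0 : 0 < y) (y1 : y < 1 / 2) :
    (0 < gB A T y → y < C) ∧ (gB A T y < 0 → C < y) := by
  have hC := H.pos hA
  have hr := H.root
  have hc1 := H.c1
  have h0 : 0 < C ^ 2 := by positivity
  have h1 : C ^ 2 < 1 / 4 := by nlinarith
  have h2 : 0 < y ^ 2 := by positivity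
  have h3 : y ^ 2 < 1 / 4 := by nlinarith
  have hr' : (1 - C ^ 2) * (A + 4 * C ^ 2) ^ 2 - T ^ 2 * C ^ 2 = 0 := hr
  have hq := quad_neg hA hT h0 h1 hr' h2 h3
  have e : C ^ 2 * gB A T y = (y ^ 2 - C ^ 2) *
      (C ^ 2 * (-16 * (y ^ 2) ^ 2 + (16 - 8 * A - 16 * C ^ 2) * y ^ 2) - A ^ 2) +
      y ^ 2 * ((1 - C ^ 2) * (A + 4 * C ^ 2) ^ 2 - T ^ 2 * C ^ 2) := by
    unfold gB; ring
  rw [hr', mul_zero, add_zero] at e
  constructor
  · intro hg
    by_contra hc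
    push Not at hc
    have a1 : C ^ 2 ≤ y ^ 2 := by nlinarith
    have a2 := mul_nonpos_of_nonneg_of_nonpos (sub_nonneg.2 a1) hq
    have a3 := mul_pos h0 hg
    linarith
  · intro hg
    by_contra hc
    push Not at hc
    have a1 : y ^ 2 ≤ C ^ 2 := by nlinarith
    have a2 := mul_nonneg_of_nonpos_of_nonpos (sub_nonpos.2 a1) hq
    have a3 := mul_neg_of_pos_of_neg h0 hg
    linarith

end Pool.Agent.Helper62.NBC
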