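import Pool.Agent.Helper62.C75.LBM
import Pool.Agent.Helper62.C75.NBC

/-!
Row NB5 of MP_c75db0 (star frame): models of the spectral numbers of a rotation letter: `C = Re μ`
by the sign test, `s = Im μ`, `h`, `g`, `θ'`, `h'`.
-/

set_option autoImplicit false
noncomputable section
namespace Pool.Agent.Helper62.NBM

open Pool.Agent.Helper90.C75
open Pool.Agent.Helper90.KMT
open Pool.Agent.Helper90.KMO
open Pool.Agent.Helper86.C75 (Z)
open Pool.Agent.Helper86.CX (Cx andB)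
open Pool.Agent.Helper86.CT (Alg Mo er mk cst addM subM mulM conjM invM invOK)
open Pool.Agent.Helper17.K9 (V9)
open Pool.Agent.Helper62.TVM
open Pool.Agent.Helper62.SQM
open Pool.Agent.Helper62.LBM
open Pool.Agent.Helper62.NBC

/-! ### the kernel side -/

/-- twice -/
def dbM {α : Type} (A : Alg α) (f : Mo α) : Mo α := addM A f f
/-- the number `i` -/
def iM {α : Type} (A : Alg α) : Mo α := cstC A ⟨Z.p (nat_lit 0), Z.p (nat_lit 281474976710656)⟩ (nat_lit 0)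
/-- `U + 8 y²`, `yy` the model of `y²` -/
def u8M {α : Type} (A : Alg α) (U yy : Mo α) : Mo α := addM A U (dbM A (dbM A (dbM A yy)))
/-- `(1 - y²) (U + 8 y²)²` -/
def ga1 {α : Type} (A : Alg α) (U yy : Mo α) : Mo α :=
  mulM A (subM A (onM A) yy) (mulM A (u8M A U yy) (u8M A U yy))
/-- `4 gB` at `y`: `U = 2 A`, `W = T - conj T` -/
def ga2 {α : Type} (A : Alg α) (U W yy : Mo α) : Mo α := addM A (ga1 A U yy) (mulM A (mulM A W W) yy)
def gbM {α : Type} (A : Alg α) (U W y : Mo α) : Mo α := ga2 A U W (mulM A y y)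
/-- the real part is positive -/
def psB {α : Type} (A : Alg α) (F : Mo α) : Bool := cenOK A (nat_lit 1) (nat_lit 281474976710656) F.r F.v
/-- the values are real -/
def rlB {α : Type} (A : Alg α) (c : α) : Bool := Nat.beq (A.nb (A.sub c (A.cj c))) (nat_lit 0)
/-- `U = 2 Re T - 2` -/
def utM {α : Type} (A : Alg α) (T : Mo α) : Mo α := subM A (re2M A T) (dbM A (onM A))
/-- `W = T - conj T` -/
def wtM {α : Type} (A : Alg α) (T : Mo α) : Mo α := subM A T (conjM A T)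
/-- `- (3 (U + 2)² + W²)` -/
def b3M {α : Type} (A : Alg α) (R W : Mo α) : Mo α :=
  negM A (addM A (addM A (mulM A R R) (dbM A (mulM A R R))) (mulM A W W))
def tp1 {α : Type} (A : Alg α) (T U W : Mo α) : Bool := andB (psB A U) (psB A (b3M A (re2M A T) W))
def yp1 {α : Type} (A : Alg α) (U W y z : Mo α) : Bool :=
  andB (andB (psB A y) (psB A (subM A (hfM A (onM A)) z)))
    (andB (psB A (gbM A U W y)) (psB A (negM A (gbM A U W z))))
/-- the tests of `C` with the radius `r` -/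
def yp2 {α : Type} (A : Alg α) (U W : Mo α) (c : α) (r : Nat) : Bool :=
  andB (rlB A c) (yp1 A U W (subM A (mk A c (nat_lit 0)) (cst A r (nat_lit 0)))
    (addM A (mk A c (nat_lit 0)) (cst A r (nat_lit 0))))
def cOK {α : Type} (A : Alg α) (T : Mo α) (c : α) (r : Nat) : Bool :=
  andB (tp1 A T (utM A T) (wtM A T)) (yp2 A (utM A T) (wtM A T) c r)
/-- THE MODEL OF `C` -/
def cM {α : Type} (A : Alg α) (c : α) (r : Nat) : Mo α := mk A c r

/-- the spectral numbers: `μ`, its conjugate, `h`, `g`, `i θ'`, `h'`, `θ' sin 3θ`, `μ²` -/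
structure SN (α : Type) where
  mu : Mo α
  mc : Mo α
  h : Mo α
  g : Mo α
  it : Mo α
  hd : Mo α
  ts : Mo α
  m2 : Mo α

/-- data of the numbers: control values of `C` and `s`, radius, lower bound and centre of `s` -/
structure ND (α : Type) where
  c : α
  r : Nat
  s : α
  m : Nat
  n : Nat

/-- `1 - C²` -/
def snF {α : Type} (A : Alg α) (C : Mo α) : Mo α := subM A (onM A) (mulM A C C)
def snM {α : Type} (A : Alg α) (C : Mo α) (d : ND α) : Mo α := sqM A d.m (snF A C) (mk A d.s (nat_lit 0))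
def muM {α : Type} (A : Alg α) (C S : Mo α) : Mo α := addM A C (mulM A (iM A) S)
/-- `4 s` -/
def s4M {α : Type} (A : Alg α) (S : Mo α) : Mo α := dbM A (dbM A S)
/-- `h = - i W / (4 s) - C` -/
def hM {α : Type} (A : Alg α) (W C S : Mo α) : Mo α :=
  subM A (mulM A (negM A (mulM A (iM A) W)) (invM A (s4M A S))) C
/-- `4 C²` -/
def c4M {α : Type} (A : Alg α) (C : Mo α) : Mo α := dbM A (dbM A (mulM A C C))
/-- `2 (h + C (4 C² - 3))` -/
def qdM {α : Type} (A : Alg α) (C h : Mo α) : Mo α :=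
  dbM A (addM A h (mulM A C (subM A (c4M A C) (addM A (onM A) (dbM A (onM A))))))
/-- `i θ' = g (Z - conj Z)/2`, `Z = T' conj μ` -/
def itM {α : Type} (A : Alg α) (g Z : Mo α) : Mo α := mulM A g (hfM A (subM A Z (conjM A Z)))
/-- `θ' sin 3θ` -/
def tsM {α : Type} (A : Alg α) (C S it : Mo α) : Mo α :=
  negM A (mulM A (mulM A (iM A) it) (mulM A S (subM A (c4M A C) (onM A))))
def hdM {α : Type} (A : Alg α) (Z ts : Mo α) : Mo α := subM A (hfM A (hfM A (re2M A Z))) ts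
def sn3 {α : Type} (A : Alg α) (C S mu h g Z it : Mo α) : SN α :=
  ⟨mu, conjM A mu, h, g, it, hdM A Z (tsM A C S it), tsM A C S it, mulM A mu mu⟩
def sn2 {α : Type} (A : Alg α) (C S mu h g Z : Mo α) : SN α := sn3 A C S mu h g Z (itM A g Z)
def sn1 {α : Type} (A : Alg α) (Td C S mu h : Mo α) : SN α :=
  sn2 A C S mu h (invM A (qdM A C h)) (mulM A Td (conjM A mu))
def sn0 {α : Type} (A : Alg α) (T Td C S : Mo α) : SN α :=
  sn1 A Td C S (muM A C S) (hM A (wtM A T) C S)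
/-- THE MODELS OF THE SPECTRAL NUMBERS -/
def spM {α : Type} (A : Alg α) (T Td : Mo α) (d : ND α) : SN α :=
  sn0 A T Td (cM A d.c d.r) (snM A (cM A d.c d.r) d)
def sq0 {α : Type} (A : Alg α) (T C S : Mo α) : Bool :=
  andB (invOK A (s4M A S)) (invOK A (qdM A C (hM A (wtM A T) C S)))
/-- THE TEST -/
def spOK {α : Type} (A : Alg α) (T : Mo α) (d : ND α) : Bool :=
  andB (cOK A T d.c d.r) (andB (sqOK A d.m d.n (snF A (cM A d.c d.r)) (mk A d.s (nat_lit 0)))
    (sq0 A T (cM A d.c d.r) (snM A (cM A d.c d.r) d)))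

/-! ### the real side -/

section

variable {α : Type} {D : ℕ} {lf : α → Vt D → ℂ} {A : Alg α} {t : ℕ → ℝ}

theorem TOK_i (hA : AOK D lf A) (hP : PT D t) : TOK D lf t Complex.I (iM A) := by
  refine TOK_cstC hA hP ?_
  have e : (UU : ℂ) * Complex.I - cz ⟨Z.p (nat_lit 0), Z.p (nat_lit 281474976710656)⟩ = 0 := by
    apply Complex.ext
    · show ((UU : ℂ) * Complex.I).re - ((zv (Z.p (nat_lit 0)) : ℤ) : ℝ) = 0
      rw [zv_p]; simp
    · show ((UU : ℂ) * Complex.I).im - ((zv (Z.p (nat_lit 281474976710656)) : ℤ) : ℝ) = 0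
      rw [zv_p]; unfold UU; simp
  rw [e, norm_zero]
  exact Nat.cast_nonneg _

theorem TOK_db (hA : AOK D lf A) {f : ℂ} {F : Mo α} (hf : TOK D lf t f F) :
    TOK D lf t (2 * f) (dbM A F) := tc (hf.add hA hf) (by ring)

theorem ps_pos (hA : AOK D lf A) (hP : PT D t) {f : ℝ} {F : Mo α} (hf : TOK D lf t (f : ℂ) F)
    (h : psB A F = true) : 0 < f := by
  have h1 := TOK_lb hA hP hf (m := nat_lit 1) (c := nat_lit 281474976710656) h
  rw [Complex.ofReal_re] at h1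
  have h2 : ((nat_lit 1 : ℕ) : ℝ) = 1 := Nat.cast_one
  rw [h2] at h1
  by_contra hc
  push Not at hc
  have := mul_nonpos_of_nonneg_of_nonpos UU_pos.le hc
  linarith

/-- real control values -/
theorem rl_real (hA : AOK D lf A) (hP : PT D t) {c : α} (h : rlB A c = true) :
    ∃ y : ℝ, (y : ℂ) = cval lf t c := by
  have h1 : A.nb (A.sub c (A.cj c)) = 0 := Nat.eq_of_beq_eq_true h
  have h2 : avg (wtT D t) (lf c) - avg (wtT D t) (lf (A.cj c)) = 0 := by
    rw [← avg_sub]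
    have e : (fun v => lf c v - lf (A.cj c) v) = lf (A.sub c (A.cj c)) := by
      funext v; exact (hA.law.hsub _ _ v).symm
    rw [e, ← norm_le_zero_iff]
    refine (norm_avg_le hP.w (hA.mag _)).trans ?_
    rw [h1]; simp
  have h3 : avg (wtT D t) (lf (A.cj c)) = star (avg (wtT D t) (lf c)) := by
    have h4 := (TOK_val (t := t) hA c).conj hA
    have h5 : ‖(UU : ℂ) * star (cval lf t c) - avg (wtT D t) (lf (A.cj c))‖ ≤ ((nat_lit 0 : ℕ) : ℝ) :=
      h4.mod
    have h6 : ((nat_lit 0 : ℕ) : ℝ) = 0 := Nat.cast_zero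
    rw [h6, norm_le_zero_iff, sub_eq_zero] at h5
    rw [← h5]
    unfold cval
    rw [star_div₀]
    have h7 : star (UU : ℂ) = UU := Complex.conj_ofReal _
    rw [h7, mul_div_cancel₀ _ UUc_ne]
  rw [h3, sub_eq_zero] at h2
  have h8 : star (cval lf t c) = cval lf t c := by
    unfold cval
    rw [star_div₀, ← h2]
    congr 1
    exact Complex.conj_ofReal _
  exact ⟨(cval lf t c).re, Complex.conj_eq_iff_re.1 h8⟩

theorem TOK_gb (hA : AOK D lf A) (hP : PT D t) {a b y : ℝ} {U W Y : Mo α}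
    (hU : TOK D lf t ((2 * a : ℝ) : ℂ) U) (hW : TOK D lf t ((2 * b : ℝ) * Complex.I) W)
    (hY : TOK D lf t (y : ℂ) Y) : TOK D lf t ((4 * gB a b y : ℝ) : ℂ) (gbM A U W Y) := by
  have yy := hY.mul hA hP hY
  have u8 := hU.add hA (TOK_db hA (TOK_db hA (TOK_db hA yy)))
  refine tc ((((TOK_on hA hP).sub hA yy).mul hA hP (u8.mul hA hP u8)).add hA
    ((hW.mul hA hP hW).mul hA hP yy)) ?_
  unfold gB
  push_cast
  linear_combination (4 * (b : ℂ) ^ 2 * y ^ 2) * Complex.I_sq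

/-- THE MODEL OF `C` -/
theorem TOK_C (hA : AOK D lf A) (hP : PT D t) {T : ℂ} {Tm : Mo α} (hT : TOK D lf t T Tm)
    {C s h : ℝ} (H : Br (T.re - 1) T.im C s h) {c : α} {r : ℕ} (hok : cOK A Tm c r = true) :
    TOK D lf t (C : ℂ) (cM A c r) := by
  obtain ⟨h1, h2⟩ := andB_t hok
  obtain ⟨a1, a2⟩ := andB_t h1
  obtain ⟨b1, b2⟩ := andB_t h2
  obtain ⟨c1, c2⟩ := andB_t b2
  obtain ⟨d1, d2⟩ := andB_t c1
  obtain ⟨e1, e2⟩ := andB_t c2
  have two : TOK D lf t ((2 * T.re : ℝ) : ℂ) (re2M A Tm) := TOK_re2 hA hT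
  have hU : TOK D lf t ((2 * (T.re - 1) : ℝ) : ℂ) (utM A Tm) := by
    refine tc (two.sub hA (TOK_db hA (TOK_on hA hP))) ?_
    push_cast; ring
  have hW : TOK D lf t ((2 * T.im : ℝ) * Complex.I) (wtM A Tm) := by
    refine tc (hT.sub hA (hT.conj hA)) ?_
    apply Complex.ext
    · simp
    · simp; ring
  have hpos := ps_pos hA hP hU a1
  have hA0 : 0 < T.re - 1 := by linarith
  have h3 : TOK D lf t ((-(3 * (2 * T.re) ^ 2 - (2 * T.im) ^ 2) : ℝ) : ℂ)
      (b3M A (re2M A Tm) (wtM A Tm)) := by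
    have rr := two.mul hA hP two
    refine tc (TOK_neg hA hP ((rr.add hA (TOK_db hA rr)).add hA (hW.mul hA hP hW))) ?_
    push_cast
    linear_combination (-(4 * (T.im : ℂ) ^ 2)) * Complex.I_sq
  have hneg := ps_pos hA hP h3 a2
  have hT3 : 3 * (T.re - 1 + 1) ^ 2 < T.im ^ 2 := by nlinarith
  obtain ⟨y, hy⟩ := rl_real (t := t) hA hP b1
  have hval := TOK_val (t := t) hA c
  rw [← hy] at hval
  have hr : TOK D lf t ((r / UU : ℝ) : ℂ) (cst A r (nat_lit 0)) := by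
    refine TOK.cst' hA hP ?_
    push_cast
    rw [mul_div_cancel₀ _ UUc_ne]
  have y1 : TOK D lf t ((y - r / UU : ℝ) : ℂ) (subM A (mk A c (nat_lit 0)) (cst A r (nat_lit 0))) :=
    tc (hval.sub hA hr) (by push_cast; ring)
  have y2 : TOK D lf t ((y + r / UU : ℝ) : ℂ) (addM A (mk A c (nat_lit 0)) (cst A r (nat_lit 0))) :=
    tc (hval.add hA hr) (by push_cast; ring)
  have p1 := ps_pos hA hP y1 d1
  have hz : TOK D lf t ((1 / 2 - (y + r / UU) : ℝ) : ℂ)
      (subM A (hfM A (onM A)) (addM A (mk A c (nat_lit 0)) (cst A r (nat_lit 0)))) := by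
    refine tc ((TOK_hf hA hP (TOK_on hA hP)).sub hA y2) ?_
    push_cast; ring
  have p2 := ps_pos hA hP hz d2
  have p3 := ps_pos hA hP (TOK_gb hA hP hU hW y1) e1
  have g2 := TOK_neg hA hP (TOK_gb hA hP hU hW y2)
  have p4 := ps_pos hA hP (tc g2 (by push_cast; ring :
    -((4 * gB (T.re - 1) T.im (y + r / UU) : ℝ) : ℂ) =
      ((-(4 * gB (T.re - 1) T.im (y + r / UU)) : ℝ) : ℂ))) e2
  have hr0 : 0 ≤ r / UU := div_nonneg (Nat.cast_nonneg _) UU_pos.le
  have q1 := (H.sign hA0 hT3 (y := y - r / UU) p1 (by linarith)).1 (by linarith)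
  have q2 := (H.sign hA0 hT3 (y := y + r / UU) (by linarith) (by linarith)).2 (by linarith)
  refine ⟨vt_mk hA _ _, ?_⟩
  show ‖(UU : ℂ) * (C : ℂ) - avg (wtT D t) (lf c)‖ ≤ (r : ℝ)
  have e3 : avg (wtT D t) (lf c) = UU * (y : ℂ) := by
    rw [hy]; unfold cval
    rw [mul_div_cancel₀ _ UUc_ne]
  have e4 : (UU : ℂ) * (C : ℂ) - UU * (y : ℂ) = ((UU * (C - y) : ℝ) : ℂ) := by push_cast; ring
  rw [e3, e4, Complex.norm_real, Real.norm_eq_abs, abs_mul, abs_of_pos UU_pos]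
  have e5 : |C - y| ≤ r / UU := by rw [abs_le]; constructor <;> linarith
  calc UU * |C - y| ≤ UU * (r / UU) := mul_le_mul_of_nonneg_left e5 UU_pos.le
    _ = r := mul_div_cancel₀ _ UU_pos.ne'

/-- the real numbers -/
def gN (C h : ℝ) : ℝ := 1 / (2 * (h + C * (4 * C ^ 2 - 3)))
def muN (C s : ℝ) : ℂ := ⟨C, s⟩
def thN (C s h : ℝ) (Td : ℂ) : ℝ := gN C h * (Td * star (muN C s)).im
def hdN (C s h : ℝ) (Td : ℂ) : ℝ :=
  (Td * star (muN C s)).re / 2 - thN C s h Td * (s * (4 * C ^ 2 - 1))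

/-- the models are right -/
structure TSN (D : ℕ) (lf : α → Vt D → ℂ) (t : ℕ → ℝ) (C s h : ℝ) (Td : ℂ) (N : SN α) : Prop where
  mu : TOK D lf t (muN C s) N.mu
  mc : TOK D lf t (star (muN C s)) N.mc
  hh : TOK D lf t (h : ℂ) N.h
  g : TOK D lf t ((gN C h : ℝ) : ℂ) N.g
  it : TOK D lf t (Complex.I * ((thN C s h Td : ℝ) : ℂ)) N.it
  hd : TOK D lf t ((hdN C s h Td : ℝ) : ℂ) N.hd
  ts : TOK D lf t ((thN C s h Td * (s * (4 * C ^ 2 - 1)) : ℝ) : ℂ) N.ts
  m2 : TOK D lf t (muN C s ^ 2) N.m2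
  ne : h + C * (4 * C ^ 2 - 3) ≠ 0

/-- THE MODELS OF THE SPECTRAL NUMBERS -/
theorem TSN_sp (hA : AOK D lf A) (hP : PT D t) {T Td : ℂ} {Tm Tdm : Mo α} (hT : TOK D lf t T Tm)
    (hTd : TOK D lf t Td Tdm) {C s h : ℝ} (H : Br (T.re - 1) T.im C s h) {d : ND α}
    (hok : spOK A Tm d = true) : TSN D lf t C s h Td (spM A Tm Tdm d) := by
  obtain ⟨h1, h2⟩ := andB_t hok
  obtain ⟨h3, h4⟩ := andB_t h2
  obtain ⟨h5, h6⟩ := andB_t h4
  have hC := TOK_C hA hP hT H h1
  have hF : TOK D lf t ((1 - C ^ 2 : ℝ) : ℂ) (snF A (cM A d.c d.r)) :=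
    tc ((TOK_on hA hP).sub hA (hC.mul hA hP hC)) (by push_cast; ring)
  have es : √(1 - C ^ 2) = s := by
    have : 1 - C ^ 2 = s ^ 2 := by linarith [H.cs]
    rw [this]; exact Real.sqrt_sq H.s0.le
  have hnn : 0 ≤ 1 - C ^ 2 := by
    have : 1 - C ^ 2 = s ^ 2 := by linarith [H.cs]
    rw [this]; positivity
  have hS : TOK D lf t (s : ℂ) (snM A (cM A d.c d.r) d) := by
    have := (TOK_sqrt hA hP hnn hF h3).1
    rw [es] at this
    exact this
  set Cm := cM A d.c d.r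
  set Sm := snM A Cm d
  have hmu : TOK D lf t (muN C s) (muM A Cm Sm) := by
    refine tc (hC.add hA ((TOK_i hA hP).mul hA hP hS)) ?_
    apply Complex.ext <;> simp [muN]
  have hW : TOK D lf t ((2 * T.im : ℝ) * Complex.I) (wtM A Tm) := by
    refine tc (hT.sub hA (hT.conj hA)) ?_
    apply Complex.ext
    · simp
    · simp; ring
  obtain ⟨i1, i2⟩ := TOK.inv hA hP (TOK_db hA (TOK_db hA hS)) h5
  have hh : TOK D lf t (h : ℂ) (hM A (wtM A Tm) Cm Sm) := by
    refine tc (((TOK_neg hA hP ((TOK_i hA hP).mul hA hP hW)).mul hA hP i1).sub hA hC) ?_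
    have hs : (s : ℂ) ≠ 0 := Complex.ofReal_ne_zero.2 H.s0.ne'
    have h7 := H.im
    have h8 : ((T.im : ℝ) : ℂ) = 2 * s * (h + C) := by rw [h7]; push_cast; ring
    push_cast
    rw [h8]
    field_simp
    linear_combination (-(h + C : ℂ)) * Complex.I_sq
  have hq : TOK D lf t ((2 * (h + C * (4 * C ^ 2 - 3)) : ℝ) : ℂ)
      (qdM A Cm (hM A (wtM A Tm) Cm Sm)) := by
    refine tc (TOK_db hA (hh.add hA (hC.mul hA hP ((TOK_db hA (TOK_db hA (hC.mul hA hP hC))).sub hA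
      ((TOK_on hA hP).add hA (TOK_db hA (TOK_on hA hP))))))) ?_
    push_cast; ring
  obtain ⟨j1, j2⟩ := TOK.inv hA hP hq h6
  have hg : TOK D lf t ((gN C h : ℝ) : ℂ) (invM A (qdM A Cm (hM A (wtM A Tm) Cm Sm))) := by
    refine tc j1 ?_
    unfold gN
    push_cast
    rw [one_div]
  have hne : h + C * (4 * C ^ 2 - 3) ≠ 0 := by
    intro h0
    apply j2
    rw [h0]; simp
  have hZ := hTd.mul hA hP (hmu.conj hA)
  have hit : TOK D lf t (Complex.I * ((thN C s h Td : ℝ) : ℂ))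
      (itM A (invM A (qdM A Cm (hM A (wtM A Tm) Cm Sm))) (mulM A Tdm (conjM A (muM A Cm Sm)))) := by
    refine tc (hg.mul hA hP (TOK_hf hA hP (hZ.sub hA (hZ.conj hA)))) ?_
    unfold thN
    set z := Td * star (muN C s)
    have e : z - star z = 2 * Complex.I * (z.im : ℂ) := by
      apply Complex.ext
      · simp
      · simp; ring
    rw [e]
    push_cast
    ring
  have hts : TOK D lf t ((thN C s h Td * (s * (4 * C ^ 2 - 1)) : ℝ) : ℂ) (tsM A Cm Sm
      (itM A (invM A (qdM A Cm (hM A (wtM A Tm) Cm Sm))) (mulM A Tdm (conjM A (muM A Cm Sm))))) := by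
    refine tc (TOK_neg hA hP (((TOK_i hA hP).mul hA hP hit).mul hA hP (hS.mul hA hP
      ((TOK_db hA (TOK_db hA (hC.mul hA hP hC))).sub hA (TOK_on hA hP))))) ?_
    push_cast
    linear_combination (-((thN C s h Td : ℝ) : ℂ) * (s * (4 * (C : ℂ) ^ 2 - 1))) * Complex.I_sq
  refine ⟨hmu, hmu.conj hA, hh, hg, hit, ?_, hts, tc (hmu.mul hA hP hmu) (by ring), hne⟩
  refine tc ((TOK_hf hA hP (TOK_hf hA hP (TOK_re2 hA hZ))).sub hA hts) ?_
  unfold hdN
  push_cast
  ring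

end

end Pool.Agent.Helper62.NBM
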