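import Pool.Agent.Helper95.CW.NB1

/-!
Row NB5 of MP_c75db0 (star frame), algebra: closed forms of the spectral projection of a rotation
letter `B = (1 - v ⊗ y) diag (d0, d1, 1)` and of its derivative.
-/

set_option autoImplicit false
noncomputable section
namespace Pool.Agent.Helper62.NBQ

open Matrix
open Pool.Agent.Helper6.MONO Pool.Agent.Helper6.MONO.W2

/-- the tensor product -/
def ot (v y : V3) : Mt := Matrix.of fun i j => v i * y j
/-- `star v J` -/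
def yv (v : V3) : V3 := ![star (v 0), star (v 1), -star (v 2)]

/-- `(1 - O) diag (d0, d1, 1)` -/
def bE (O : Mt) (d0 d1 : ℂ) : Mt :=
  !![(1 - O 0 0) * d0, -(O 0 1 * d1), -O 0 2;
    -(O 1 0 * d0), (1 - O 1 1) * d1, -O 1 2;
    -(O 2 0 * d0), -(O 2 1 * d1), 1 - O 2 2]
/-- `- O' diag (d0, d1, 1)` -/
def bdE (O : Mt) (d0 d1 : ℂ) : Mt :=
  !![-(O 0 0 * d0), -(O 0 1 * d1), -O 0 2;
    -(O 1 0 * d0), -(O 1 1 * d1), -O 1 2;
    -(O 2 0 * d0), -(O 2 1 * d1), -O 2 2]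
/-- the closed form of `B² - 2 μ h B + μ²` -/
def qcE (d0 d1 n0 n1 n2 m2 : ℂ) (O : Mt) : Mt :=
  !![d0 * (m2 * (n1 * n2) - O 1 1 * n2 - O 2 2 * n1), O 0 1 * (d1 * n2), O 0 2 * n1;
    O 1 0 * (d0 * n2), d1 * (m2 * (n0 * n2) - O 0 0 * n2 - O 2 2 * n0), O 1 2 * n0;
    O 2 0 * (d0 * n1), O 2 1 * (d1 * n0), m2 * (n0 * n1) - O 0 0 * n1 - O 1 1 * n0]
/-- its derivative -/
def qdE (d0 d1 n0 n1 n2 m2 nn m2' : ℂ) (O O' : Mt) : Mt :=
  !![d0 * (m2' * (n1 * n2) + m2 * (nn * (n1 + n2)) - (O' 1 1 * n2 + O 1 1 * nn) -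
        (O' 2 2 * n1 + O 2 2 * nn)), d1 * (O' 0 1 * n2 + O 0 1 * nn), O' 0 2 * n1 + O 0 2 * nn;
    d0 * (O' 1 0 * n2 + O 1 0 * nn), d1 * (m2' * (n0 * n2) + m2 * (nn * (n0 + n2)) -
      (O' 0 0 * n2 + O 0 0 * nn) - (O' 2 2 * n0 + O 2 2 * nn)), O' 1 2 * n0 + O 1 2 * nn;
    d0 * (O' 2 0 * n1 + O 2 0 * nn), d1 * (O' 2 1 * n0 + O 2 1 * nn),
      m2' * (n0 * n1) + m2 * (nn * (n0 + n1)) - (O' 0 0 * n1 + O 0 0 * nn) -
      (O' 1 1 * n0 + O 1 1 * nn)]

section alg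

variable {v v' y y' : V3} {d0 d1 nu m2 nu' m2' : ℂ}

/-- THE CLOSED FORM -/
theorem qc_eq (h1 : v 0 * y 0 + v 1 * y 1 + v 2 * y 2 = 2) (h2 : d0 * d1 = 1)
    (h3 : m2 * nu = -1) :
    bE (ot v y) d0 d1 * bE (ot v y) d0 d1 - ((bE (ot v y) d0 d1).trace - nu) • bE (ot v y) d0 d1 +
      m2 • 1 = qcE d0 d1 (d0 - nu) (d1 - nu) (1 - nu) m2 (ot v y) := by
  ext i j
  fin_cases i <;> fin_cases j <;>
    simp only [bE, qcE, ot, Matrix.add_apply, Matrix.sub_apply, Matrix.smul_apply, smul_eq_mul,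
      Matrix.mul_apply, Fin.sum_univ_three, Matrix.trace, Matrix.diag_apply, Matrix.of_apply,
      Matrix.cons_val', Matrix.cons_val_zero, Matrix.cons_val_one, Matrix.cons_val,
      Matrix.one_apply, Fin.isValue, Fin.zero_eta, Fin.mk_one, Fin.reduceFinMk, if_true,
      Fin.reduceEq, if_false, mul_one, mul_zero, add_zero]
  · linear_combination (d0 * (d1 + 1 - nu)) * h1 - m2 * h2 + (d0 * (1 + d1 - nu)) * h3
  · ring
  · ring
  · ring
  · linear_combination (d1 * (d0 + 1 - nu)) * h1 - m2 * h2 + (d1 * (1 + d0 - nu)) * h3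
  · ring
  · ring
  · ring
  · linear_combination (d0 + d1 - nu) * h1 - m2 * h2 + (d0 + d1 - nu) * h3

/-- ITS DERIVATIVE -/
theorem qd_eq (h1 : v 0 * y 0 + v 1 * y 1 + v 2 * y 2 = 2) (h2 : d0 * d1 = 1)
    (h3 : m2 * nu = -1) (h1' : (v' 0 * y 0 + v 0 * y' 0) + (v' 1 * y 1 + v 1 * y' 1) +
      (v' 2 * y 2 + v 2 * y' 2) = 0) (h3' : m2' * nu + m2 * nu' = 0) :
    bdE (ot v' y + ot v y') d0 d1 * bE (ot v y) d0 d1 +
      bE (ot v y) d0 d1 * bdE (ot v' y + ot v y') d0 d1 -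
      ((bdE (ot v' y + ot v y') d0 d1).trace - nu') • bE (ot v y) d0 d1 -
      ((bE (ot v y) d0 d1).trace - nu) • bdE (ot v' y + ot v y') d0 d1 + m2' • 1 =
      qdE d0 d1 (d0 - nu) (d1 - nu) (1 - nu) m2 (-nu') m2' (ot v y) (ot v' y + ot v y') := by
  ext i j
  fin_cases i <;> fin_cases j <;>
    simp only [bE, bdE, qdE, ot, Matrix.add_apply, Matrix.sub_apply, Matrix.smul_apply, smul_eq_mul,
      Matrix.mul_apply, Fin.sum_univ_three, Matrix.trace, Matrix.diag_apply, Matrix.of_apply,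
      Matrix.cons_val', Matrix.cons_val_zero, Matrix.cons_val_one, Matrix.cons_val,
      Matrix.one_apply, Fin.isValue, Fin.zero_eta, Fin.mk_one, Fin.reduceFinMk, if_true,
      Fin.reduceEq, if_false, mul_one, mul_zero, add_zero]
  · linear_combination (d0 * (d1 + 1 - nu)) * h1' - (d0 * nu') * h1 - m2' * h2 +
      (d0 * (1 + d1 - nu)) * h3' - (d0 * nu') * h3
  · ring
  · ring
  · ring
  · linear_combination (d1 * (d0 + 1 - nu)) * h1' - (d1 * nu') * h1 - m2' * h2 +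
      (d1 * (1 + d0 - nu)) * h3' - (d1 * nu') * h3
  · ring
  · ring
  · ring
  · linear_combination (d0 + d1 - nu) * h1' - nu' * h1 - m2' * h2 +
      (d0 + d1 - nu) * h3' - nu' * h3

end alg

/-! ### the projection from the spectral relations -/

section spc

variable {B Bd : Mt} {μ ν : ℂ} {th ps h hd : ℝ} {P N Pd Nd : Mt}

theorem SPC_Q (H : SPC B Bd μ ν th ps h hd P N Pd Nd) :
    B * B - (2 * μ * h) • B + (μ ^ 2) • (1 : Mt) = (ν ^ 2 - 2 * μ * h * ν + μ ^ 2) • (1 - P) := by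
  nth_rewrite 1 [H.b]
  nth_rewrite 1 [H.b]
  rw [H.b]
  simp only [mul_add, add_mul, mul_sub, sub_mul, smul_mul_assoc, mul_smul_comm, smul_add,
    smul_sub, smul_smul, one_mul, mul_one, H.pp, H.np, H.pn, H.nn]
  push_cast
  module

theorem SPC_Qd (H : SPC B Bd μ ν th ps h hd P N Pd Nd) :
    Bd * B + B * Bd - (2 * μ * (Complex.I * th * h + hd)) • B - (2 * μ * h) • Bd +
      (2 * (Complex.I * th) * μ ^ 2) • (1 : Mt) =
    (2 * (Complex.I * ps) * ν ^ 2 - 2 * μ * (Complex.I * th * h + hd) * ν -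
      2 * μ * h * (Complex.I * ps * ν) + 2 * (Complex.I * th) * μ ^ 2) • (1 - P) -
    (ν ^ 2 - 2 * μ * h * ν + μ ^ 2) • Pd := by
  have e1 : Pd * P = Pd - P * Pd := eq_sub_of_add_eq H.dpp
  have e2 : Nd * P = Nd - N * Pd := eq_sub_of_add_eq H.dnp
  have e3 : Pd * N = Nd - P * Nd := eq_sub_of_add_eq H.dpn
  have e4 : Nd * N = ((2 * h * hd : ℝ) : ℂ) • P + ((h ^ 2 - 1 : ℝ) : ℂ) • Pd - N * Nd :=
    eq_sub_of_add_eq H.dnn
  rw [H.bd]
  rw [H.b]
  simp only [mul_add, add_mul, mul_sub, sub_mul, smul_mul_assoc, mul_smul_comm, smul_add,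
    smul_sub, smul_smul, one_mul, mul_one, H.pp, H.np, H.pn, H.nn, e1, e2, e3, e4]
  push_cast
  module

/-- `N` is linear in `B` and `P` -/
theorem SPC_N (H : SPC B Bd μ ν th ps h hd P N Pd Nd) {mc : ℂ} (hm : mc * μ = 1) :
    N = mc • B - (mc * ν) • (1 - P) - (h : ℂ) • P := by
  rw [H.b, smul_add, smul_smul, hm, one_smul, smul_smul]
  abel

theorem SPC_Nd (H : SPC B Bd μ ν th ps h hd P N Pd Nd) {mc : ℂ} (hm : mc * μ = 1) :
    Nd = mc • Bd - (Complex.I * ps * (mc * ν)) • (1 - P) + (mc * ν) • Pd -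
      (Complex.I * th) • (mc • B - (mc * ν) • (1 - P)) - (hd : ℂ) • P - (h : ℂ) • Pd := by
  have e1 : mc • Bd = (Complex.I * th) • (N + (h : ℂ) • P) + (Nd + (hd : ℂ) • P + (h : ℂ) • Pd) +
    (Complex.I * ps * (mc * ν)) • (1 - P) - (mc * ν) • Pd := by
    rw [H.bd]
    simp only [smul_add, smul_sub, smul_smul]
    have f1 : mc * (Complex.I * th * μ) = Complex.I * th := by
      linear_combination (Complex.I * th) * hm
    have f2 : mc * (Complex.I * th * μ * h) = Complex.I * th * h := by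
      linear_combination (Complex.I * th * h) * hm
    have f3 : mc * (μ * hd) = hd := by linear_combination (hd : ℂ) * hm
    have f4 : mc * (μ * h) = h := by linear_combination (h : ℂ) * hm
    have f5 : mc * (Complex.I * ps * ν) = Complex.I * ps * (mc * ν) := by ring
    rw [f1, f2, hm, f3, f4, f5, one_smul]
  have e2 : mc • B - (mc * ν) • (1 - P) = N + (h : ℂ) • P := by
    rw [SPC_N H hm]
    abel
  rw [e2, e1]
  abel

end spc

end Pool.Agent.Helper62.NBQ
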