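import Pool.Agent.Helper62.C75.NBM
import Pool.Agent.Helper62.C75.NBQ
import Pool.Agent.Helper26.C75.XM

/-!
Row NB5 of MP_c75db0 (star frame): models of the spectral projections of a rotation letter and of
their derivatives.
-/

set_option autoImplicit false
noncomputable section
namespace Pool.Agent.Helper62.NBP

open Matrix
open Pool.Agent.Helper90.C75
open Pool.Agent.Helper90.KMT
open Pool.Agent.Helper90.KMO
open Pool.Agent.Helper86.C75 (Z)
open Pool.Agent.Helper86.CX (Cx andB)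
open Pool.Agent.Helper86.CT (Alg Mo er mk cst addM subM mulM conjM invM invOK)
open Pool.Agent.Helper17.K9 (V9)
open Pool.Agent.Helper62.TVM
open Pool.Agent.Helper62.SQM
open Pool.Agent.Helper62.LBM
open Pool.Agent.Helper62.NBC
open Pool.Agent.Helper62.NBM
open Pool.Agent.Helper62.NBQ
open Pool.Agent.Helper6.MONO Pool.Agent.Helper6.MONO.W2
open Pool.Agent.Helper26.XM (oJ rfJ_oJ rfd_oJ)

/-! ### the kernel side -/

/-- the conjugate numbers -/
def cjN {α : Type} (A : Alg α) (N : SN α) : SN α :=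
  ⟨N.mc, N.mu, N.h, N.g, conjM A N.it, N.hd, N.ts, conjM A N.m2⟩

/-- `(1 - O) diag (d0, d1, 1)` -/
def bM {α : Type} (A : Alg α) (O : V9 α) (d0 d1 : Mo α) : V9 α :=
  ⟨mulM A (subM A (onM A) O.a) d0, negM A (mulM A O.b d1), negM A O.c,
    negM A (mulM A O.d d0), mulM A (subM A (onM A) O.e) d1, negM A O.f,
    negM A (mulM A O.g d0), negM A (mulM A O.h d1), subM A (onM A) O.i⟩
def bdM {α : Type} (A : Alg α) (O : V9 α) (d0 d1 : Mo α) : V9 α :=
  ⟨negM A (mulM A O.a d0), negM A (mulM A O.b d1), negM A O.c,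
    negM A (mulM A O.d d0), negM A (mulM A O.e d1), negM A O.f,
    negM A (mulM A O.g d0), negM A (mulM A O.h d1), negM A O.i⟩

/-- `m2 (x y) - a y - b x` -/
def q1M {α : Type} (A : Alg α) (m2 x y a b : Mo α) : Mo α :=
  subM A (subM A (mulM A m2 (mulM A x y)) (mulM A a y)) (mulM A b x)
def qcM {α : Type} (A : Alg α) (d0 d1 n0 n1 n2 m2 : Mo α) (O : V9 α) : V9 α :=
  ⟨mulM A d0 (q1M A m2 n1 n2 O.e O.i), mulM A O.b (mulM A d1 n2), mulM A O.c n1,
    mulM A O.d (mulM A d0 n2), mulM A d1 (q1M A m2 n0 n2 O.a O.i), mulM A O.f n0,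
    mulM A O.g (mulM A d0 n1), mulM A O.h (mulM A d1 n0), q1M A m2 n0 n1 O.a O.e⟩
/-- `m2' (x y) + m2 (n (x + y)) - (a' y + a n) - (b' x + b n)` -/
def q2M {α : Type} (A : Alg α) (m2 m2' n x y a a' b b' : Mo α) : Mo α :=
  subM A (subM A (addM A (mulM A m2' (mulM A x y)) (mulM A m2 (mulM A n (addM A x y))))
    (addM A (mulM A a' y) (mulM A a n))) (addM A (mulM A b' x) (mulM A b n))
def q3M {α : Type} (A : Alg α) (a a' x n : Mo α) : Mo α := addM A (mulM A a' x) (mulM A a n)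
def qdM' {α : Type} (A : Alg α) (d0 d1 n0 n1 n2 m2 nn m2' : Mo α) (O O' : V9 α) : V9 α :=
  ⟨mulM A d0 (q2M A m2 m2' nn n1 n2 O.e O'.e O.i O'.i), mulM A d1 (q3M A O.b O'.b n2 nn),
      q3M A O.c O'.c n1 nn,
    mulM A d0 (q3M A O.d O'.d n2 nn), mulM A d1 (q2M A m2 m2' nn n0 n2 O.a O'.a O.i O'.i),
      q3M A O.f O'.f n0 nn,
    mulM A d0 (q3M A O.g O'.g n1 nn), mulM A d1 (q3M A O.h O'.h n0 nn),
      q2M A m2 m2' nn n0 n1 O.a O'.a O.e O'.e⟩

/-- `N`, `Π = 1 - P` and their derivatives -/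
structure NP (α : Type) where
  N : V9 α
  Q : V9 α
  Nd : V9 α
  Qd : V9 α

def nuM {α : Type} (A : Alg α) (N : SN α) : Mo α := negM A (conjM A N.m2)
/-- the weight `i θ' - 2 g (h' - 3 θ' sin 3θ)` -/
def wgM {α : Type} (A : Alg α) (N : SN α) : Mo α :=
  subM A N.it (dbM A (mulM A N.g (subM A N.hd (addM A N.ts (dbM A N.ts)))))
def piM {α : Type} (A : Alg α) (N : SN α) (d0 d1 nu mg : Mo α) (O : V9 α) : V9 α :=
  smV A mg (qcM A d0 d1 (subM A d0 nu) (subM A d1 nu) (subM A (onM A) nu) N.m2 O)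
def pdM {α : Type} (A : Alg α) (N : SN α) (d0 d1 nu mg : Mo α) (O O' Q : V9 α) : V9 α :=
  addV A (smV A mg (qdM' A d0 d1 (subM A d0 nu) (subM A d1 nu) (subM A (onM A) nu) N.m2
    (dbM A (mulM A N.it nu)) (dbM A (mulM A N.it N.m2)) O O')) (smV A (wgM A N) Q)
def np3 {α : Type} (A : Alg α) (N : SN α) (k3 : Mo α) (B Bd Q Qd : V9 α) : NP α :=
  ⟨sbV A (addV A (smV A N.mc B) (smV A (subM A N.h k3) Q)) N.h, Q,
    sbV A (addV A (addV A (smV A N.mc (subV A Bd (smV A N.it B)))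
      (smV A (addM A (addM A (mulM A N.it k3) (dbM A (mulM A N.it k3))) N.hd) Q))
      (smV A (subM A N.h k3) Qd)) N.hd, Qd⟩
def np2 {α : Type} (A : Alg α) (N : SN α) (d0 d1 nu mg : Mo α) (O O' Q : V9 α) : NP α :=
  np3 A N (mulM A N.mc nu) (bM A O d0 d1) (bdM A O' d0 d1) Q (pdM A N d0 d1 nu mg O O' Q)
def np1 {α : Type} (A : Alg α) (N : SN α) (d0 d1 nu mg : Mo α) (O O' : V9 α) : NP α :=
  np2 A N d0 d1 nu mg O O' (piM A N d0 d1 nu mg O)
def np0 {α : Type} (A : Alg α) (N : SN α) (d0 d1 : Mo α) (O O' : V9 α) : NP α :=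
  np1 A N d0 d1 (nuM A N) (mulM A N.mu N.g) O O'
/-- THE MODELS OF `N`, `Π` AND OF THEIR DERIVATIVES, `d0 = e²` or its conjugate -/
def npM {α : Type} (A : Alg α) (N : SN α) (d0 : Mo α) (v vd : V3m α) : NP α :=
  np0 A N d0 (conjM A d0) (oV A v v) (addV A (oV A vd v) (oV A v vd))

/-! ### the numbers -/

/-- relations of the spectral numbers -/
structure SR (μ : ℂ) (h g th hd ts : ℝ) (T Td : ℂ) : Prop where
  u : star μ * μ = 1
  T : T = 2 * μ * h - star μ ^ 2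
  Td : Td = 2 * μ * (Complex.I * th * h + hd) + 2 * Complex.I * th * star μ ^ 2
  g : (g : ℂ) * (star μ ^ 3 + 2 * h + μ ^ 3) = 1
  ts : (ts : ℂ) = Complex.I * th / 2 * (star μ ^ 3 - μ ^ 3)

theorem SR.of_Br {T Td : ℂ} {C s h : ℝ} (H : Br (T.re - 1) T.im C s h)
    (hne : h + C * (4 * C ^ 2 - 3) ≠ 0) :
    SR (muN C s) h (gN C h) (thN C s h Td) (hdN C s h Td)
      (thN C s h Td * (s * (4 * C ^ 2 - 1))) T Td := by
  have hcs := H.cs
  have hre := H.re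
  have him := H.im
  have hu : star (muN C s) * muN C s = 1 := by
    apply Complex.ext
    · simp [muN]; linarith
    · simp [muN]; ring
  obtain ⟨a, ha⟩ : ∃ a : ℝ, a = C * (4 * C ^ 2 - 3) := ⟨_, rfl⟩
  obtain ⟨b, hb⟩ : ∃ b : ℝ, b = s * (4 * C ^ 2 - 1) := ⟨_, rfl⟩
  have h3 : star (muN C s) ^ 3 = (a : ℂ) - Complex.I * (b : ℂ) := by
    have e : star (muN C s) ^ 3 = star (muN C s) * (star (muN C s) * star (muN C s)) := by ring
    rw [e]
    apply Complex.ext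
    · simp [muN]; linear_combination (-3 * C) * hcs - ha
    · simp [muN]; linear_combination s * hcs + hb
  have h4 : muN C s ^ 3 = (a : ℂ) + Complex.I * (b : ℂ) := by
    have e : muN C s ^ 3 = muN C s * (muN C s * muN C s) := by ring
    rw [e]
    apply Complex.ext
    · simp [muN]; linear_combination (-3 * C) * hcs - ha
    · simp [muN]; linear_combination (-s) * hcs - hb
  have hg : gN C h * (2 * (h + a)) = 1 := by
    rw [ha]
    unfold gN
    rw [one_div, inv_mul_cancel₀ (mul_ne_zero two_ne_zero hne)]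
  have hz : Td * star (muN C s) = 2 * (Complex.I * (thN C s h Td) * h + hdN C s h Td) +
      2 * Complex.I * (thN C s h Td) * star (muN C s) ^ 3 := by
    rw [h3]
    set z := Td * star (muN C s) with hzz
    have h5 : thN C s h Td = gN C h * z.im := rfl
    have h6 : hdN C s h Td = z.re / 2 - thN C s h Td * b := by rw [hb]; rfl
    apply Complex.ext
    · simp only [Complex.add_re, Complex.mul_re, Complex.sub_re, Complex.ofReal_re,
        Complex.ofReal_im, Complex.I_re, Complex.I_im, Complex.re_ofNat, Complex.im_ofNat,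
        Complex.mul_im, Complex.sub_im, Complex.add_im]
      rw [h6]; ring
    · simp only [Complex.add_re, Complex.mul_re, Complex.sub_re, Complex.ofReal_re,
        Complex.ofReal_im, Complex.I_re, Complex.I_im, Complex.re_ofNat, Complex.im_ofNat,
        Complex.mul_im, Complex.sub_im, Complex.add_im]
      rw [h5]
      linear_combination (-z.im) * hg
  refine ⟨hu, ?_, ?_, ?_, ?_⟩
  · have e : star (muN C s) ^ 2 = star (muN C s) * star (muN C s) := by ring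
    rw [e]
    apply Complex.ext
    · simp [muN]; linear_combination hre - hcs
    · simp [muN]; linear_combination him
  · linear_combination (-Td + 2 * Complex.I * (thN C s h Td) * star (muN C s) ^ 2) * hu +
      (muN C s) * hz
  · rw [h3, h4]
    have : ((gN C h : ℝ) : ℂ) * (2 * (h + (a : ℂ))) = 1 := by
      rw [← Complex.ofReal_add, ← Complex.ofReal_ofNat, ← Complex.ofReal_mul, ← Complex.ofReal_mul,
        hg, Complex.ofReal_one]
    linear_combination this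
  · rw [h3, h4, ← hb]
    push_cast
    linear_combination (((thN C s h Td : ℝ) : ℂ) * b) * Complex.I_sq

theorem SR.cj {μ : ℂ} {h g th hd ts : ℝ} {T Td : ℂ} (H : SR μ h g th hd ts T Td) :
    SR (star μ) h g (-th) hd ts (star T) (star Td) := by
  have sr : ∀ r : ℝ, star (r : ℂ) = r := fun r => Complex.conj_ofReal r
  have si : star Complex.I = -Complex.I := Complex.conj_I
  have s2 : star (2 : ℂ) = 2 := by
    have := sr 2
    push_cast at this
    exact this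
  refine ⟨?_, ?_, ?_, ?_, ?_⟩
  · rw [star_star, mul_comm]; exact H.u
  · rw [H.T, star_sub, star_mul', star_mul', star_pow, star_star, sr, s2]
  · rw [H.Td]
    simp only [star_add, star_mul', star_pow, star_star, sr, s2, si]
    push_cast
    ring
  · rw [star_star, ← H.g]; ring
  · rw [star_star, H.ts]; push_cast; ring

/-- the models of the numbers, general form -/
structure TSG (D : ℕ) {α : Type} (lf : α → Vt D → ℂ) (t : ℕ → ℝ) (μ : ℂ) (h g th hd ts : ℝ)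
    (N : SN α) : Prop where
  mu : TOK D lf t μ N.mu
  mc : TOK D lf t (star μ) N.mc
  hh : TOK D lf t (h : ℂ) N.h
  g : TOK D lf t (g : ℂ) N.g
  it : TOK D lf t (Complex.I * (th : ℂ)) N.it
  hd : TOK D lf t (hd : ℂ) N.hd
  ts : TOK D lf t (ts : ℂ) N.ts
  m2 : TOK D lf t (μ ^ 2) N.m2

section

variable {α : Type} {D : ℕ} {lf : α → Vt D → ℂ} {A : Alg α} {t : ℕ → ℝ}

theorem TSG.of {C s h : ℝ} {Td : ℂ} {N : SN α} (H : TSN D lf t C s h Td N) :
    TSG D lf t (muN C s) h (gN C h) (thN C s h Td) (hdN C s h Td)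
      (thN C s h Td * (s * (4 * C ^ 2 - 1))) N :=
  ⟨H.mu, H.mc, H.hh, H.g, H.it, H.hd, H.ts, H.m2⟩

theorem TSG.cj (hA : AOK D lf A) {μ : ℂ} {h g th hd ts : ℝ} {N : SN α}
    (H : TSG D lf t μ h g th hd ts N) : TSG D lf t (star μ) h g (-th) hd ts (cjN A N) := by
  refine ⟨H.mc, tc H.mu (star_star μ).symm, H.hh, H.g, tc (H.it.conj hA) ?_, H.hd, H.ts,
    tc (H.m2.conj hA) (star_pow μ 2)⟩
  rw [star_mul']
  have sr : star (th : ℂ) = th := Complex.conj_ofReal th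
  have si : star Complex.I = -Complex.I := Complex.conj_I
  rw [sr, si]
  push_cast
  ring

theorem TV_b (hA : AOK D lf A) (hP : PT D t) {O : Mt} {U : V9 α} (hO : TV D lf t O U) {d0 d1 : ℂ}
    {D0 D1 : Mo α} (h0 : TOK D lf t d0 D0) (h1 : TOK D lf t d1 D1) :
    TV D lf t (bE O d0 d1) (bM A U D0 D1) :=
  ⟨((TOK_on hA hP).sub hA hO.a).mul hA hP h0, TOK_neg hA hP (hO.b.mul hA hP h1),
    TOK_neg hA hP hO.c, TOK_neg hA hP (hO.d.mul hA hP h0),
    ((TOK_on hA hP).sub hA hO.e).mul hA hP h1, TOK_neg hA hP hO.f,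
    TOK_neg hA hP (hO.g.mul hA hP h0), TOK_neg hA hP (hO.h.mul hA hP h1),
    (TOK_on hA hP).sub hA hO.i⟩

theorem TV_bd (hA : AOK D lf A) (hP : PT D t) {O : Mt} {U : V9 α} (hO : TV D lf t O U) {d0 d1 : ℂ}
    {D0 D1 : Mo α} (h0 : TOK D lf t d0 D0) (h1 : TOK D lf t d1 D1) :
    TV D lf t (bdE O d0 d1) (bdM A U D0 D1) :=
  ⟨TOK_neg hA hP (hO.a.mul hA hP h0), TOK_neg hA hP (hO.b.mul hA hP h1),
    TOK_neg hA hP hO.c, TOK_neg hA hP (hO.d.mul hA hP h0),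
    TOK_neg hA hP (hO.e.mul hA hP h1), TOK_neg hA hP hO.f,
    TOK_neg hA hP (hO.g.mul hA hP h0), TOK_neg hA hP (hO.h.mul hA hP h1),
    TOK_neg hA hP hO.i⟩

section q

variable {m2 m2' n x y a a' b b' : ℂ} {M2 M2' Nn X Y Aa Aa' Bb Bb' : Mo α}

theorem TOK_q1 (hA : AOK D lf A) (hP : PT D t) (h2 : TOK D lf t m2 M2) (hx : TOK D lf t x X)
    (hy : TOK D lf t y Y) (ha : TOK D lf t a Aa) (hb : TOK D lf t b Bb) :
    TOK D lf t (m2 * (x * y) - a * y - b * x) (q1M A M2 X Y Aa Bb) :=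
  ((h2.mul hA hP (hx.mul hA hP hy)).sub hA (ha.mul hA hP hy)).sub hA (hb.mul hA hP hx)

theorem TOK_q2 (hA : AOK D lf A) (hP : PT D t) (h2 : TOK D lf t m2 M2) (h2' : TOK D lf t m2' M2')
    (hn : TOK D lf t n Nn) (hx : TOK D lf t x X) (hy : TOK D lf t y Y) (ha : TOK D lf t a Aa)
    (ha' : TOK D lf t a' Aa') (hb : TOK D lf t b Bb) (hb' : TOK D lf t b' Bb') :
    TOK D lf t (m2' * (x * y) + m2 * (n * (x + y)) - (a' * y + a * n) - (b' * x + b * n))
      (q2M A M2 M2' Nn X Y Aa Aa' Bb Bb') :=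
  ((((h2'.mul hA hP (hx.mul hA hP hy)).add hA (h2.mul hA hP (hn.mul hA hP (hx.add hA hy)))).sub hA
    ((ha'.mul hA hP hy).add hA (ha.mul hA hP hn)))).sub hA
    ((hb'.mul hA hP hx).add hA (hb.mul hA hP hn))

theorem TOK_q3 (hA : AOK D lf A) (hP : PT D t) (ha : TOK D lf t a Aa) (ha' : TOK D lf t a' Aa')
    (hx : TOK D lf t x X) (hn : TOK D lf t n Nn) :
    TOK D lf t (a' * x + a * n) (q3M A Aa Aa' X Nn) :=
  (ha'.mul hA hP hx).add hA (ha.mul hA hP hn)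

end q

section mats

variable {d0 d1 n0 n1 n2 m2 nn m2' : ℂ} {D0 D1 N0 N1 N2 M2 Nn M2' : Mo α} {O O' : Mt}
  {U U' : V9 α}

theorem TV_qc (hA : AOK D lf A) (hP : PT D t) (h0 : TOK D lf t d0 D0) (h1 : TOK D lf t d1 D1)
    (k0 : TOK D lf t n0 N0) (k1 : TOK D lf t n1 N1) (k2 : TOK D lf t n2 N2)
    (h2 : TOK D lf t m2 M2) (hO : TV D lf t O U) :
    TV D lf t (qcE d0 d1 n0 n1 n2 m2 O) (qcM A D0 D1 N0 N1 N2 M2 U) :=
  ⟨h0.mul hA hP (TOK_q1 hA hP h2 k1 k2 hO.e hO.i), hO.b.mul hA hP (h1.mul hA hP k2),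
    hO.c.mul hA hP k1, hO.d.mul hA hP (h0.mul hA hP k2),
    h1.mul hA hP (TOK_q1 hA hP h2 k0 k2 hO.a hO.i), hO.f.mul hA hP k0,
    hO.g.mul hA hP (h0.mul hA hP k1), hO.h.mul hA hP (h1.mul hA hP k0),
    TOK_q1 hA hP h2 k0 k1 hO.a hO.e⟩

theorem TV_qd (hA : AOK D lf A) (hP : PT D t) (h0 : TOK D lf t d0 D0) (h1 : TOK D lf t d1 D1)
    (k0 : TOK D lf t n0 N0) (k1 : TOK D lf t n1 N1) (k2 : TOK D lf t n2 N2)
    (h2 : TOK D lf t m2 M2) (hn : TOK D lf t nn Nn) (h2' : TOK D lf t m2' M2')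
    (hO : TV D lf t O U) (hO' : TV D lf t O' U') :
    TV D lf t (qdE d0 d1 n0 n1 n2 m2 nn m2' O O') (qdM' A D0 D1 N0 N1 N2 M2 Nn M2' U U') :=
  ⟨h0.mul hA hP (TOK_q2 hA hP h2 h2' hn k1 k2 hO.e hO'.e hO.i hO'.i),
    h1.mul hA hP (TOK_q3 hA hP hO.b hO'.b k2 hn), TOK_q3 hA hP hO.c hO'.c k1 hn,
    h0.mul hA hP (TOK_q3 hA hP hO.d hO'.d k2 hn),
    h1.mul hA hP (TOK_q2 hA hP h2 h2' hn k0 k2 hO.a hO'.a hO.i hO'.i),
    TOK_q3 hA hP hO.f hO'.f k0 hn, h0.mul hA hP (TOK_q3 hA hP hO.g hO'.g k1 hn),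
    h1.mul hA hP (TOK_q3 hA hP hO.h hO'.h k0 hn),
    TOK_q2 hA hP h2 h2' hn k0 k1 hO.a hO'.a hO.e hO'.e⟩

end mats

/-- THE MODELS OF `N`, `Π`, `N'`, `Π'` -/
structure TNP (D : ℕ) (lf : α → Vt D → ℂ) (t : ℕ → ℝ) (P N Pd Nd : Mt) (X : NP α) : Prop where
  N : TV D lf t N X.N
  Q : TV D lf t (1 - P) X.Q
  Nd : TV D lf t Nd X.Nd
  Qd : TV D lf t (-Pd) X.Qd

theorem TNP_main (hA : AOK D lf A) (hP : PT D t) {μ : ℂ} {h g th hd ts : ℝ} {T Td : ℂ} {Nm : SN α}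
    (hS : SR μ h g th hd ts T Td) (hM : TSG D lf t μ h g th hd ts Nm) {v y v' y' : V3}
    {d0 d1 : ℂ} {U U' : V9 α} {D0 D1 : Mo α} (hU : TV D lf t (ot v y) U)
    (hU' : TV D lf t (ot v' y + ot v y') U') (h0 : TOK D lf t d0 D0) (h1 : TOK D lf t d1 D1)
    (e1 : v 0 * y 0 + v 1 * y 1 + v 2 * y 2 = 2) (e2 : d0 * d1 = 1)
    (e3 : (v' 0 * y 0 + v 0 * y' 0) + (v' 1 * y 1 + v 1 * y' 1) +
      (v' 2 * y 2 + v 2 * y' 2) = 0)
    (eT : (bE (ot v y) d0 d1).trace = T) (eTd : (bdE (ot v' y + ot v y') d0 d1).trace = Td)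
    {P N Pd Nd : Mt} (H : SPC (bE (ot v y) d0 d1) (bdE (ot v' y + ot v y') d0 d1) μ
      (-star μ ^ 2) th (-2 * th) h hd P N Pd Nd) :
    TNP D lf t P N Pd Nd (np0 A Nm D0 D1 U U') := by
  have hu := hS.u
  have hg := hS.g
  have hts := hS.ts
  set s := star μ with hs
  have hnu : TOK D lf t (-s ^ 2) (nuM A Nm) := TOK_neg hA hP (tc (hM.m2.conj hA) (star_pow μ 2))
  have m3 : μ ^ 2 * (-s ^ 2) = -1 := by linear_combination (-(s * μ) - 1) * hu
  have k0 := h0.sub hA hnu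
  have k1 := h1.sub hA hnu
  have k2 := (TOK_on hA hP).sub hA hnu
  have hmg : TOK D lf t (μ * g) (mulM A Nm.mu Nm.g) := hM.mu.mul hA hP hM.g
  -- `Q`
  have q1 := qc_eq (v := v) (y := y) e1 e2 m3
  have q2 := SPC_Q H
  have eh : T - -s ^ 2 = 2 * μ * h := by rw [hS.T]; ring
  rw [eT, eh, q2] at q1
  have gq : (μ * g) * ((-s ^ 2) ^ 2 - 2 * μ * h * (-s ^ 2) + μ ^ 2) = 1 := by
    linear_combination (g * s ^ 3 + 2 * g * h * (s * μ + 1)) * hu + hg
  have ePi : 1 - P = (μ * g) • qcE d0 d1 (d0 - -s ^ 2) (d1 - -s ^ 2) (1 - -s ^ 2) (μ ^ 2)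
      (ot v y) := by
    rw [← q1, smul_smul, gq, one_smul]
  have hPi : TV D lf t (1 - P) (piM A Nm D0 D1 (nuM A Nm) (mulM A Nm.mu Nm.g) U) :=
    (TV.smul hA hP hmg (TV_qc hA hP h0 h1 k0 k1 k2 hM.m2 hU)).congr ePi.symm
  -- `Q'`
  have m3' : (2 * (Complex.I * th) * μ ^ 2) * (-s ^ 2) + μ ^ 2 * (2 * Complex.I * th * s ^ 2) = 0 := by
    ring
  have r1 := qd_eq (v := v) (y := y) (v' := v') (y' := y') e1 e2 m3 e3 m3'
  have r2 := SPC_Qd H
  have ehd : Td - 2 * Complex.I * th * s ^ 2 = 2 * μ * (Complex.I * th * h + hd) := by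
    rw [hS.Td]; ring
  rw [eT, eTd, eh, ehd, r2] at r1
  have gq' : (μ * g) * (2 * (Complex.I * ((-2 * th : ℝ) : ℂ)) * (-s ^ 2) ^ 2 -
      2 * μ * (Complex.I * th * h + hd) * (-s ^ 2) -
      2 * μ * h * (Complex.I * ((-2 * th : ℝ) : ℂ) * (-s ^ 2)) + 2 * (Complex.I * th) * μ ^ 2) =
      -(Complex.I * th) + 2 * (g * (hd - (ts + 2 * ts))) := by
    push_cast
    linear_combination (g * (-4 * Complex.I * th * s ^ 3 +
      (-2 * Complex.I * th * h + 2 * hd) * (s * μ + 1))) * hu - (Complex.I * th) * hg +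
      (6 * g : ℂ) * hts
  have ePd : -Pd = (μ * g) • qdE d0 d1 (d0 - -s ^ 2) (d1 - -s ^ 2) (1 - -s ^ 2) (μ ^ 2)
      (-(2 * Complex.I * th * s ^ 2)) (2 * (Complex.I * th) * μ ^ 2) (ot v y)
      (ot v' y + ot v y') + (Complex.I * th - 2 * (g * (hd - (ts + 2 * ts)))) • (1 - P) := by
    rw [← r1, smul_sub, smul_smul, smul_smul, gq, gq', one_smul]
    module
  have hnn : TOK D lf t (-(2 * Complex.I * th * s ^ 2)) (dbM A (mulM A Nm.it (nuM A Nm))) :=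
    tc (TOK_db hA (hM.it.mul hA hP hnu)) (by ring)
  have hm2' : TOK D lf t (2 * (Complex.I * th) * μ ^ 2) (dbM A (mulM A Nm.it Nm.m2)) :=
    tc (TOK_db hA (hM.it.mul hA hP hM.m2)) (by ring)
  have hwg : TOK D lf t (Complex.I * th - 2 * (g * (hd - (ts + 2 * ts)))) (wgM A Nm) :=
    hM.it.sub hA (TOK_db hA (hM.g.mul hA hP (hM.hd.sub hA (hM.ts.add hA (TOK_db hA hM.ts)))))
  have hPd : TV D lf t (-Pd) (pdM A Nm D0 D1 (nuM A Nm) (mulM A Nm.mu Nm.g) U U'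
      (piM A Nm D0 D1 (nuM A Nm) (mulM A Nm.mu Nm.g) U)) :=
    ((TV.smul hA hP hmg (TV_qd hA hP h0 h1 k0 k1 k2 hM.m2 hnn hm2' hU hU')).add hA
      (TV.smul hA hP hwg hPi)).congr ePd.symm
  -- `N`
  have k3 : TOK D lf t (s * -s ^ 2) (mulM A Nm.mc (nuM A Nm)) := hM.mc.mul hA hP hnu
  have hB := TV_b hA hP hU h0 h1
  have hBd := TV_bd hA hP hU' h0 h1
  have eN : N = s • bE (ot v y) d0 d1 + ((h : ℂ) - s * -s ^ 2) • (1 - P) - (h : ℂ) • 1 := by
    rw [SPC_N H hu]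
    module
  have hN := ((TV.smul hA hP hM.mc hB).add hA
    (TV.smul hA hP (hM.hh.sub hA k3) hPi)).sb hA hM.hh
  -- `N'`
  have eNd : Nd = s • (bdE (ot v' y + ot v y') d0 d1 - (Complex.I * th) • bE (ot v y) d0 d1) +
      (Complex.I * th * (s * -s ^ 2) + 2 * (Complex.I * th * (s * -s ^ 2)) + hd) • (1 - P) +
      ((h : ℂ) - s * -s ^ 2) • (-Pd) - (hd : ℂ) • 1 := by
    rw [SPC_Nd H hu]
    push_cast
    module
  have itk := hM.it.mul hA hP k3
  have hNd := (((TV.smul hA hP hM.mc (hBd.sub hA (TV.smul hA hP hM.it hB))).add hA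
    (TV.smul hA hP ((itk.add hA (TOK_db hA itk)).add hA hM.hd) hPi)).add hA
    (TV.smul hA hP (hM.hh.sub hA k3) hPd)).sb hA hM.hd
  exact ⟨hN.congr eN.symm, hPi, hNd.congr eNd.symm, hPd⟩

end

end Pool.Agent.Helper62.NBP
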