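import Pool.Agent.Helper62.C75.NBV
import Pool.Agent.Helper62.C75.NBT
import Pool.Agent.Helper62.C75.NBD
import Pool.Agent.Helper26.C75.IT

/-!
Row (C) of M7 of MP_c75db0 (star frame), kernel side: the items of the runs of a rotation of length
2: models of exact runs and of the directions of the tail, tests, theorems against `sat`, `sati`.
-/

set_option autoImplicit false
noncomputable section
namespace Pool.Agent.Helper62.NBW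

open Matrix
open Pool.Agent.Helper90.C75 (Vt)
open Pool.Agent.Helper90.KMT
open Pool.Agent.Helper90.KMO (UU UU_pos UUc_ne cz zv zv_p)
open Pool.Agent.Helper86.C75 (Z)
open Pool.Agent.Helper86.CX (Cx andB)
open Pool.Agent.Helper86.CT (N3 Alg Mo KM mk cst addM subM mulM conjM invM invOK A3 A4)
open Pool.Agent.Helper17.K9 (V9)
open Pool.Agent.Helper62.TVM
open Pool.Agent.Helper62.SQM
open Pool.Agent.Helper62.LBM
open Pool.Agent.Helper62.NBC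
open Pool.Agent.Helper62.NBM (SN ND dbM iM psB spM spOK muN thN hdN gN TSN TSN_sp TOK_i TOK_db ps_pos)
open Pool.Agent.Helper62.NBP
open Pool.Agent.Helper62.NBT (npA muA thA TNP_a)
open Pool.Agent.Helper62.NBD (BP)
open Pool.Agent.Helper62.NBV
open Pool.Agent.Helper51.FR (cst_nat UU_nat andB_t' trK HK_tr IN_gen)
open Pool.Agent.Helper26.XH (FH HOK hL hR hH)
open Pool.Agent.Helper26.IT (upK kcM vU tU kU)
open Pool.Agent.Helper91.BX (crM cr_ex upM upV tu)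
open Pool.Agent.Helper82.TST (HK Lw LwOK Lw3 Lw4 Lw3_ok Lw4_ok geT cg9 smK)
open Pool.Agent.Helper6.MONO (V3)
open Pool.Agent.Helper6.MONO.W2 (Mt NT NZ IN rfJ rfd nX nM nMd Sy sDm phi Prt RPar sat sati Pd cs brJ
  hr SPC chS chC chD chR chO chQ chS_zero chC_zero chD_zero chS_succ chC_succ chD_succ chR_pos
  chO_mul chO_nn chO_le chQ_norm rfJ_sqM)
open Pool.Agent.Helper21.SW
open Pool.Agent.Helper21.NB (rB rBd)

variable {κ γ : Type}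

/-! ### kernel side: the letter -/

/-- models of `N c`, `(1 - P) c`, `N' c`, `- P' c`, `c - (1 - P) c`, numbers -/
structure LC where
  N : V9 T3
  Q : V9 T3
  Nd : V9 T3
  Qd : V9 T3
  C : V9 T3
  s : SN T3

def lc2 (s : SN T3) (c N Q Nd Qd : V9 T3) : LC := ⟨N, Q, Nd, Qd, subV A3 c Q, s⟩
def lc1 (s : SN T3) (c : V9 T3) (X : NP T3) : LC :=
  lc2 s c (mulV A3 X.N c) (mulV A3 X.Q c) (mulV A3 X.Nd c) (mulV A3 X.Qd c)
/-- the numbers of the letter `(a, 2)` -/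
def sA (s : SN T3) (a : Bool) : SN T3 := Bool.rec (motive := fun _ => SN T3) s (cjN A3 s) a
/-- THE MODELS OF THE LETTER `(a, 2)`: `E` model of `e` -/
def lcM (s : SN T3) (E : Mo T3) (F : FH T3) (a : Bool) : LC :=
  lc1 (sA s a) F.c (npA A3 s E F.v F.vd a)

/-! ### kernel side: exact runs -/

structure CH where
  S : Mo T3
  C : Mo T3
  D : Mo T3

/-- `h² - 1` -/
def g1M (h : Mo T3) : Mo T3 := subM A3 (mulM A3 h h) (onM A3)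
def stC (h g1 : Mo T3) (n : Nat) (x : CH) : CH :=
  ⟨addM A3 x.C (mulM A3 h x.S), addM A3 (mulM A3 h x.C) (mulM A3 g1 x.S),
    addM A3 (mulM A3 (cst A3 (Nat.mul (Nat.succ n) (nat_lit 281474976710656)) (nat_lit 0)) x.S)
      (mulM A3 h x.D)⟩
/-- `chS h n`, `chC h n`, `chD h n` -/
def chN (h g1 : Mo T3) (n : Nat) : CH :=
  Nat.rec (motive := fun _ => CH) ⟨zeM A3, onM A3, zeM A3⟩ (fun m x => stC h g1 m x) n

/-- `ν / μ = - conj μ ^ 3` -/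
def lamM (s : SN T3) : Mo T3 := mulM A3 s.mc (nuM A3 s)

def xt1 (K : LC) (x : CH) (lam : Mo T3) : V9 T3 :=
  addV A3 (addV A3 (smV A3 x.S K.N) (smV A3 x.C K.C)) (smV A3 lam K.Q)
/-- THE RUN OF LENGTH `n` -/
def xtM (K : LC) (n : Nat) : V9 T3 :=
  xt1 K (chN K.s.h (g1M K.s.h) n) (powM A3 (lamM K.s) n)

/-- `- 3 x` -/
def m3M (x : Mo T3) : Mo T3 := negM A3 (addM A3 x (dbM A3 x))
def xd1 (K : LC) (n : Nat) (x : CH) (lam : Mo T3) : V9 T3 :=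
  addV A3 (addV A3 (addV A3 (smV A3 (mulM A3 K.s.hd x.D) K.N)
    (smV A3 (mulM A3 K.s.hd (mulM A3 (cst A3 (Nat.mul n (nat_lit 281474976710656)) (nat_lit 0))
      x.S)) K.C))
    (addV A3 (smV A3 x.S K.Nd) (smV A3 (subM A3 lam x.C) K.Qd)))
    (smV A3 (mulM A3 (m3M K.s.it) (mulM A3 (cst A3 (Nat.mul n (nat_lit 281474976710656))
      (nat_lit 0)) lam)) K.Q)
def xdM (K : LC) (n : Nat) : V9 T3 :=
  xd1 K n (chN K.s.h (g1M K.s.h) n) (powM A3 (lamM K.s) n)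

/-- `R + 2 H` -/
def r2M (F : FH T3) (Sr : V9 T3) : V9 T3 := addV A3 Sr (addV A3 F.h F.h)
def ggM {α : Type} (A : Alg α) (T L R : V9 α) : V9 α := subV A (mulV A T L) (mulV A R T)

def bx2 (T : TK κ γ) (F : FH T3) (k1 k2 : κ) (Sl Sr : V9 T3) (g : γ) (M D : V9 T3) : Bool :=
  T.t3 k1 k2 g M (addV A3 D (ggM A3 M Sl (r2M F Sr)))
/-- kind 6 -/
def bxK (T : TK κ γ) (F : FH T3) (K : LC) (n : Nat) (k1 k2 : κ) (Sl Sr : V9 T3) (g : γ) : Bool :=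
  andB (Nat.ble (nat_lit 1) n) (bx2 T F k1 k2 Sl Sr g (xtM K n) (xdM K n))
def bxI (K : LC) (n : Nat) (m : Mu) (K1 Kc : KM T3) : Bool :=
  andB (Nat.ble (nat_lit 1) n) (geT Lw3 (nat_lit 0) m.l m.m (cg9 A3 (xtM K n) Kc) K1)

/-! ### kernel side: the tail -/

/-- the entry `n` of a list -/
def nth {β : Type} (l : List β) (f : β → Bool) : Nat → Bool :=
  List.rec (motive := fun _ => Nat → Bool) (fun _ => false)
    (fun x _ ih n => Nat.rec (motive := fun _ => Bool) (f x) (fun m _ => ih m) n) l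

/-- the conditions of a piece -/
def pcB (b : BP) : Bool :=
  andB (Nat.ble (Nat.mul (nat_lit 2) (Nat.mul b.de b.de)) (Nat.add (Nat.mul b.zr b.zr)
    (Nat.mul b.zi b.zi)))
  (cond b.ex true (andB (Nat.ble (Nat.mul b.ka b.t1) (nat_lit 79228162514264337593543950336))
    (cond (Nat.beq b.kb (nat_lit 0)) true
      (Nat.ble (nat_lit 79228162514264337593543950336) (Nat.mul b.kb b.t0)))))

def rrM (b : BP) : Mo T4 := crM A3 b.t0 b.t1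
def z0M (K : LC) (b : BP) : V9 T4 :=
  upV (smV A3 (cstC A3 ⟨Z.p b.zr, Z.p b.zi⟩ (nat_lit 0)) K.Q)
def z1M (K : LC) (b : BP) : V9 T4 :=
  upV (smV A3 (cstC A3 ⟨Z.m b.zi, Z.p b.zr⟩ (nat_lit 0)) K.Q)
def mM (K : LC) (r : Mo T4) : V9 T4 := addV A4 (upV K.N) (smV A4 r (upV K.C))
def aK (K : LC) (k : Nat) : V9 T4 :=
  upV (addV A3 K.N (smV A3 (mulM A3 (cst A3 k (nat_lit 0)) (g1M K.s.h)) K.C))
def aHi (K : LC) (b : BP) (r : Mo T4) : V9 T4 :=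
  cond (Nat.beq b.kb (nat_lit 0)) (mM K r) (aK K b.kb)
def aEx (K : LC) (r : Mo T4) : V9 T4 :=
  addV A4 (smV A4 r (upV K.N)) (upV (smV A3 (g1M K.s.h) K.C))
def rhoM (b : BP) : Mo T3 := cst A3 (nat_lit 0) b.de
def etaM : Mo T3 := cst A3 (nat_lit 0) (nat_lit 281474976710656)
def eeM (K : LC) (b : BP) : V9 T3 :=
  addV A3 (addV A3 K.Nd (smV A3 (rhoM b) K.Qd)) (smV A3 etaM (smV A3 (m3M K.s.it) K.Q))
def bbM (K : LC) (b : BP) (r : Mo T4) : V9 T4 :=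
  smV A4 r (addV A4 (upV (smV A3 (mulM A3 K.s.h K.s.hd) K.C))
    (smV A4 r (subV A4 (upV (eeM K b)) (smV A4 r (upV K.Qd)))))
def ttM (K : LC) (b : BP) (r : Mo T4) : V9 T4 :=
  addV A4 (upV (addV A3 K.N (smV A3 (rhoM b) K.Q))) (smV A4 r (upV K.C))
def h4M (K : LC) : Mo T4 := upM (hfM A3 (hfM A3 K.s.hd))
/-- `hd / 4 A + B` -/
def cbM (K : LC) (X B : V9 T4) : V9 T4 := addV A4 (smV A4 (h4M K) X) B

/-- four tests -/
def q4T (T : TK κ γ) (k1 k2 : κ) (gs : List γ) (n : Nat) (M U V X : V9 T4) : Bool :=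
  andB (andB (nth gs (fun g => T.t4 k1 k2 g (addV A4 M U) X) n)
      (nth gs (fun g => T.t4 k1 k2 g (addV A4 M V) X) (Nat.add n (nat_lit 1))))
    (andB (nth gs (fun g => T.t4 k1 k2 g (subV A4 M U) X) (Nat.add n (nat_lit 2)))
      (nth gs (fun g => T.t4 k1 k2 g (subV A4 M V) X) (Nat.add n (nat_lit 3))))

/-- sixteen tests: first direction at the ends, second direction at the ends -/
def btF (T : TK κ γ) (k1 k2 : κ) (gs : List γ) (M U V A1 A2 B1 B2 G : V9 T4) : Bool :=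
  andB (andB (q4T T k1 k2 gs (nat_lit 0) M U V A1) (q4T T k1 k2 gs (nat_lit 4) M U V A2))
    (andB (q4T T k1 k2 gs (nat_lit 8) M U V (addV A4 B1 G))
      (q4T T k1 k2 gs (nat_lit 12) M U V (addV A4 B2 G)))
/-- eight tests -/
def btE (T : TK κ γ) (k1 k2 : κ) (gs : List γ) (M U V A1 B1 G : V9 T4) : Bool :=
  andB (q4T T k1 k2 gs (nat_lit 0) M U V A1) (q4T T k1 k2 gs (nat_lit 4) M U V (addV A4 B1 G))
def bt1 (T : TK κ γ) (F : FH T3) (K : LC) (k1 k2 : κ) (Sl Sr : V9 T3) (gs : List γ) (b : BP)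
    (r r2 : Mo T4) (M U V tt bb : V9 T4) : Bool :=
  cond b.ex
    (btE T k1 k2 gs M U V (aEx K r) (cbM K (aEx K r) (smV A4 r bb))
      (ggM A4 (smV A4 (mulM A4 r r2) tt) (upV Sl) (upV (r2M F Sr))))
    (btF T k1 k2 gs M U V (aK K b.ka) (aHi K b r) (cbM K (aK K b.ka) bb) (cbM K (aHi K b r) bb)
      (ggM A4 (smV A4 r2 tt) (upV Sl) (upV (r2M F Sr))))
/-- kind 7, a piece -/
def bt0 (T : TK κ γ) (F : FH T3) (K : LC) (k1 k2 : κ) (Sl Sr : V9 T3) (gs : List γ) (b : BP)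
    (r : Mo T4) : Bool :=
  bt1 T F K k1 k2 Sl Sr gs b r (mulM A4 r r) (mM K r) (z0M K b) (z1M K b) (ttM K b r) (bbM K b r)
def btK (T : TK κ γ) (F : FH T3) (K : LC) (bp : List BP) (i : Nat) (k1 k2 : κ) (Sl Sr : V9 T3)
    (gs : List γ) : Bool :=
  nth bp (fun b => andB (pcB b) (bt0 T F K k1 k2 Sl Sr gs b (rrM b))) i

/-- sum of forms -/
def adK {α : Type} (A : Alg α) (X Y : KM α) : KM α :=
  ⟨addM A X.a Y.a, addM A X.b Y.b, addM A X.c Y.c, addM A X.x Y.x, addM A X.y Y.y, addM A X.w Y.w⟩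
/-- `r² - (h² - 1) - |z|²` -/
def e1M (K : LC) (b : BP) (r : Mo T4) : Mo T4 :=
  subM A4 (mulM A4 r r) (upM (addM A3 (g1M K.s.h) (addM A3
    (mulM A3 (cst A3 b.zr (nat_lit 0)) (cst A3 b.zr (nat_lit 0)))
    (mulM A3 (cst A3 b.zi (nat_lit 0)) (cst A3 b.zi (nat_lit 0))))))
def i4T (m : Mu) (K1 Kc W : KM T4) (M : V9 T4) : Bool :=
  geT Lw4 (nat_lit 0) m.l m.m (adK A4 (cg9 A4 M Kc) W) K1
def bi1 (m : Mu) (K1 Kc W : KM T4) (M U V : V9 T4) : Bool :=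
  andB (andB (i4T m K1 Kc W (addV A4 M U)) (i4T m K1 Kc W (addV A4 M V)))
    (andB (i4T m K1 Kc W (subV A4 M U)) (i4T m K1 Kc W (subV A4 M V)))
def btI (K : LC) (bp : List BP) (i : Nat) (m : Mu) (K1 Kc : KM T3) : Bool :=
  nth bp (fun b => andB (pcB b) (bi1 m (upK K1) (upK Kc) (smK A4 (e1M K b (rrM b))
    (upK (cg9 A3 K.Q Kc))) (mM K (rrM b)) (z0M K b) (z1M K b))) i

/-! ### the real side: the letter -/

variable {t : ℕ → ℝ} {v vd : V3}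

/-- THE MODELS ARE RIGHT -/
structure TLC (t : ℕ → ℝ) (v : V3) (μ : ℂ) (th h hd : ℝ) (P N Pd Nd : Mt) (K : LC) : Prop where
  N : TV 3 lf3 t (N * rfJ 1 v) K.N
  Q : TV 3 lf3 t ((1 - P) * rfJ 1 v) K.Q
  Nd : TV 3 lf3 t (Nd * rfJ 1 v) K.Nd
  Qd : TV 3 lf3 t (-Pd * rfJ 1 v) K.Qd
  C : TV 3 lf3 t (rfJ 1 v - (1 - P) * rfJ 1 v) K.C
  mc : TOK 3 lf3 t (star μ) K.s.mc
  m2 : TOK 3 lf3 t (μ ^ 2) K.s.m2
  h : TOK 3 lf3 t ((h : ℝ) : ℂ) K.s.h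
  hd : TOK 3 lf3 t ((hd : ℝ) : ℂ) K.s.hd
  it : TOK 3 lf3 t (Complex.I * ((th : ℝ) : ℂ)) K.s.it

theorem TLC_mk (hP : PT 3 t) {μ : ℂ} {th h hd g ts : ℝ} {P N Pd Nd : Mt} {c : V9 T3} {X : NP T3}
    {s : SN T3} (hc : TV 3 lf3 t (rfJ 1 v) c) (hX : TNP 3 lf3 t P N Pd Nd X)
    (hs : TSG 3 lf3 t μ h g th hd ts s) : TLC t v μ th h hd P N Pd Nd (lc1 s c X) :=
  ⟨hX.N.mul a3 hP hc, hX.Q.mul a3 hP hc, hX.Nd.mul a3 hP hc, hX.Qd.mul a3 hP hc,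
    hc.sub a3 (hX.Q.mul a3 hP hc), hs.mc, hs.m2, hs.hh, hs.hd, hs.it⟩

section
variable {μ : ℂ} {th h hd : ℝ} {P N Pd Nd : Mt} {K : LC}

/-! ### the real side: exact runs -/

theorem cst_n (hP : PT 3 t) (n : ℕ) : TOK 3 lf3 t ((n : ℝ) : ℂ)
    (cst A3 (Nat.mul n (nat_lit 281474976710656)) (nat_lit 0)) := by
  refine TOK.cst' a3 hP ?_
  have e : (((Nat.mul n (nat_lit 281474976710656) : ℕ)) : ℂ) = (n : ℂ) * UU := by
    show ((n * 281474976710656 : ℕ) : ℂ) = _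
    unfold UU
    push_cast
    norm_num
  rw [e]
  push_cast
  ring

theorem TOK_g1 (hP : PT 3 t) {H : Mo T3} (hh : TOK 3 lf3 t ((h : ℝ) : ℂ) H) :
    TOK 3 lf3 t ((h ^ 2 - 1 : ℝ) : ℂ) (g1M H) :=
  tc ((hh.mul a3 hP hh).sub a3 (TOK_on a3 hP)) (by push_cast; ring)

structure TCH (t : ℕ → ℝ) (h : ℝ) (n : ℕ) (x : CH) : Prop where
  S : TOK 3 lf3 t ((chS h n : ℝ) : ℂ) x.S
  C : TOK 3 lf3 t ((chC h n : ℝ) : ℂ) x.C
  D : TOK 3 lf3 t ((chD h n : ℝ) : ℂ) x.D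

theorem TCH_all (hP : PT 3 t) {H G : Mo T3} (hh : TOK 3 lf3 t ((h : ℝ) : ℂ) H)
    (hg : TOK 3 lf3 t ((h ^ 2 - 1 : ℝ) : ℂ) G) (n : ℕ) : TCH t h n (chN H G n) := by
  induction n with
  | zero =>
    refine ⟨tc (TOK_ze a3 hP) ?_, tc (TOK_on a3 hP) ?_, tc (TOK_ze a3 hP) ?_⟩
    · rw [chS_zero]; simp
    · rw [chC_zero]; simp
    · rw [chD_zero]; simp
  | succ n ih =>
    refine ⟨tc (ih.C.add a3 (hh.mul a3 hP ih.S)) ?_,
      tc ((hh.mul a3 hP ih.C).add a3 (hg.mul a3 hP ih.S)) ?_,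
      tc (((cst_n hP (n + 1)).mul a3 hP ih.S).add a3 (hh.mul a3 hP ih.D)) ?_⟩
    · rw [chS_succ]; push_cast; ring
    · rw [chC_succ]; push_cast; ring
    · rw [chD_succ]; push_cast; ring

theorem TOK_lam (hP : PT 3 t) (hμ : star μ * μ = 1) (H : TLC t v μ th h hd P N Pd Nd K) :
    TOK 3 lf3 t (-star μ ^ 2 / μ) (lamM K.s) := by
  have h1 : TOK 3 lf3 t (-(star μ) ^ 2) (nuM A3 K.s) :=
    TOK_neg a3 hP (tc (H.m2.conj a3) (star_pow μ 2))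
  refine tc (H.mc.mul a3 hP h1) ?_
  have h0 : μ ≠ 0 := by
    intro h0
    rw [h0, mul_zero] at hμ
    exact zero_ne_one hμ
  rw [eq_div_iff h0]
  linear_combination (-star μ ^ 2) * hμ

theorem TV_xt (hP : PT 3 t) (hμ : star μ * μ = 1) (H : TLC t v μ th h hd P N Pd Nd K) (n : ℕ) :
    TV 3 lf3 t (xT (chS h n) (chC h n) ((-star μ ^ 2 / μ) ^ n) P N * rfJ 1 v) (xtM K n) := by
  have hx := TCH_all hP H.h (TOK_g1 hP H.h) n
  have hl := TOK_pow a3 hP (TOK_lam hP hμ H) n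
  refine (((TV.smul a3 hP hx.S H.N).add a3 (TV.smul a3 hP hx.C H.C)).add a3
    (TV.smul a3 hP hl H.Q)).congr ?_
  rw [xT]
  simp only [add_mul, sub_mul, smul_mul_assoc, one_mul]
  module

theorem TV_xd (hP : PT 3 t) (hμ : star μ * μ = 1) (H : TLC t v μ th h hd P N Pd Nd K) (n : ℕ) :
    TV 3 lf3 t (xD n (chS h n) (chC h n) (chD h n) hd (-2 * th - th) ((-star μ ^ 2 / μ) ^ n) P N
      Pd Nd * rfJ 1 v) (xdM K n) := by
  have hx := TCH_all hP H.h (TOK_g1 hP H.h) n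
  have hl := TOK_pow a3 hP (TOK_lam hP hμ H) n
  have hn := cst_n hP n
  have h3 : TOK 3 lf3 t (-(3 * (Complex.I * (th : ℂ)))) (m3M K.s.it) :=
    tc (TOK_neg a3 hP (H.it.add a3 (TOK_db a3 H.it))) (by ring)
  refine ((((TV.smul a3 hP (H.hd.mul a3 hP hx.D) H.N).add a3
    (TV.smul a3 hP (H.hd.mul a3 hP (hn.mul a3 hP hx.S)) H.C)).add a3
    ((TV.smul a3 hP hx.S H.Nd).add a3 (TV.smul a3 hP (hl.sub a3 hx.C) H.Qd))).add a3
    (TV.smul a3 hP (h3.mul a3 hP (hn.mul a3 hP hl)) H.Q)).congr ?_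
  generalize (-star μ ^ 2 / μ) ^ n = lam
  rw [xD]
  simp only [add_mul, sub_mul, smul_mul_assoc, one_mul, neg_mul, smul_neg, smul_sub]
  push_cast
  module

/-- `R + 2 H` -/
theorem TV_r2 {F : FH T3} (hF : HOK 3 lf3 t v vd F) {S' : Mt} {Sr : V9 T3}
    (hr : TV 3 lf3 t (hR v vd S') Sr) :
    TV 3 lf3 t (hR v vd S' + (2 : ℂ) • hH v vd) (r2M F Sr) :=
  (hr.add a3 (hF.hh.add a3 hF.hh)).congr (by rw [two_smul])

end

/-! ### the real side: exact runs, items -/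

section
variable {T : TK κ γ} {KV : κ → (ℕ → ℝ) → Mt} {F : FH T3} {k1 k2 kt : κ} {S S' : Mt}
  {Sl Sr : V9 T3} {φ : ℝ} {g : Sy} {μ : ℂ} {th h hd : ℝ} {P N Pd Nd : Mt} {K : LC}

theorem mu_norm {μ : ℂ} (hμ : star μ * μ = 1) : ‖μ‖ = 1 := by
  have h : ((‖μ‖ ^ 2 : ℝ) : ℂ) = 1 := by
    rw [← Pool.Agent.Helper6.MONO.W2.nsq μ, mul_comm]
    exact hμ
  have h2 : ‖μ‖ ^ 2 = 1 := by exact_mod_cast h
  nlinarith [norm_nonneg μ]

theorem nu_norm {μ : ℂ} (hμ : star μ * μ = 1) : ‖-star μ ^ 2‖ = 1 := by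
  rw [norm_neg, norm_pow, norm_star, mu_norm hμ, one_pow]

theorem mu_ne {μ : ℂ} (hμ : star μ * μ = 1) : μ ≠ 0 := by
  intro h0
  rw [h0, mul_zero] at hμ
  exact zero_ne_one hμ

/-- AN EXACT RUN -/
theorem bxK_ok (hT : TKL KV T) (hP : PT 3 t) (h2 : brJ 1 v v = 2) (h2' : (brJ 1 vd v).re = 0)
    (hF : HOK 3 lf3 t v vd F) (H : SPC (rfJ 1 v * sDm φ g.1 g.2) (rfd 1 0 v vd * sDm φ g.1 g.2) μ
      (-star μ ^ 2) th (-2 * th) h hd P N Pd Nd) (hμ : star μ * μ = 1)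
    (hK : TLC t v μ th h hd P N Pd Nd K) (hl : TV 3 lf3 t (hL v vd S) Sl)
    (hr : TV 3 lf3 t (hR v vd S') Sr) {n : ℕ} {d : γ}
    (hb : bxK T F K n k1 k2 Sl Sr d = true) :
    NT (cK v (KV k1 t)) (cK v (KV k2 t)) (nX v vd (nM φ v g.1 g.2 (n - 1))
      (nMd φ v vd g.1 g.2 (n - 1)) S S') (nM φ v g.1 g.2 (n - 1)) := by
  obtain ⟨b1, b2⟩ := andB_t' hb
  have hn : 1 ≤ n := Nat.le_of_ble_eq_true b1
  have hM := TV_xt hP hμ hK n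
  have hD := TV_xd hP hμ hK n
  exact gi_exact H h2 h2' (mu_ne hμ) hn (hT.t3 b2 hP hM (hD.add a3 ((hM.mul a3 hP hl).sub a3
    ((TV_r2 hF hr).mul a3 hP hM))))

theorem bxI_ok (hT : TKL KV T) (hP : PT 3 t) (h2 : brJ 1 v v = 2)
    (hF : HOK 3 lf3 t v vd F) (H : SPC (rfJ 1 v * sDm φ g.1 g.2) (rfd 1 0 v vd * sDm φ g.1 g.2) μ
      (-star μ ^ 2) th (-2 * th) h hd P N Pd Nd) (hμ : star μ * μ = 1)
    (hK : TLC t v μ th h hd P N Pd Nd K) {n : ℕ} {m : Mu}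
    (hb : bxI K n m (T.km k1) (kcM T F kt) = true) :
    IN (cK v (KV k1 t)) (cK v (KV kt t)) v (nM φ v g.1 g.2 (n - 1)) := by
  obtain ⟨b1, b2⟩ := andB_t' hb
  have hn : 1 ≤ n := Nat.le_of_ble_eq_true b1
  have hM := TV_xt hP hμ hK n
  have hc : HK 3 lf3 t (trK v (KV kt t)) (kcM T F kt) := HK_tr a3 hP hF.hv (hT.km (k := kt) hP)
  refine inn_exact H h2 (mu_ne hμ) hn (fun u hu => ?_)
  rw [← Pool.Agent.Helper82.TST.hr_cong]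
  exact (hc.g9 a3 hP hM).incl hP (hT.km hP) Lw3_ok b2 u hu

/-! ### the real side: the tail -/

theorem nth_t {β : Type} {f : β → Bool} : ∀ {l : List β} {n : ℕ}, nth l f n = true →
    ∃ x, l[n]? = some x ∧ f x = true
  | [], _, h => absurd (show false = true from h) (by simp)
  | x :: l, 0, h => ⟨x, rfl, h⟩
  | x :: l, n + 1, h => by
    obtain ⟨y, h1, h2⟩ := nth_t (show nth l f n = true from h)
    exact ⟨y, by simpa using h1, h2⟩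

/-- the condition of a piece for the length `n` -/
def bcR (h : ℝ) (bp : List BP) (i n : ℕ) : Prop := ∃ b : BP, bp[i]? = some b ∧
  (b.t0 : ℝ) / UU ≤ chR h n ∧ chR h n ≤ (b.t1 : ℝ) / UU ∧ 1 / chS h n ≤ (b.de : ℝ) / UU ∧ 2 ≤ n

/-- the vertex -/
def zB (b : BP) : ℂ := ⟨(b.zr : ℝ) / UU, (b.zi : ℝ) / UU⟩

theorem zB_cz (b : BP) : zB b = cz ⟨Z.p b.zr, Z.p b.zi⟩ / UU := by
  apply Complex.ext
  · rw [Complex.div_ofReal_re]
    show (b.zr : ℝ) / UU = ((zv (Z.p b.zr) : ℤ) : ℝ) / UU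
    rw [zv_p]; simp
  · rw [Complex.div_ofReal_im]
    show (b.zi : ℝ) / UU = ((zv (Z.p b.zi) : ℤ) : ℝ) / UU
    rw [zv_p]; simp

theorem IzB_cz (b : BP) : Complex.I * zB b = cz ⟨Z.m b.zi, Z.p b.zr⟩ / UU := by
  apply Complex.ext
  · rw [Complex.div_ofReal_re]
    show (Complex.I * zB b).re = ((zv (Z.m b.zi) : ℤ) : ℝ) / UU
    have : zv (Z.m b.zi) = -(b.zi : ℤ) := rfl
    rw [this]
    simp [zB]
    ring
  · rw [Complex.div_ofReal_im]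
    show (Complex.I * zB b).im = ((zv (Z.p b.zr) : ℤ) : ℝ) / UU
    rw [zv_p]
    simp [zB]

theorem TOK_cz (hP : PT 3 t) (C : Cx) : TOK 3 lf3 t (cz C / UU) (cstC A3 C (nat_lit 0)) := by
  refine TOK_cstC a3 hP ?_
  rw [mul_div_cancel₀ _ UUc_ne, sub_self, norm_zero]
  exact Nat.cast_nonneg _

theorem z_sq (b : BP) : ‖zB b‖ ^ 2 = (b.zr : ℝ) / UU * ((b.zr : ℝ) / UU) +
    (b.zi : ℝ) / UU * ((b.zi : ℝ) / UU) := by
  rw [Complex.sq_norm, Complex.normSq_apply]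
  rfl

theorem q4T_ok (hT : TKL KV T) {u : ℝ} (hP : PT 4 (tu 3 t u)) {gs : List γ} {n : ℕ}
    {M U V X : V9 T4} {Mr Ur Xr : Mt} {z : ℂ} (hM : TV 4 lf4 (tu 3 t u) Mr M)
    (hU : TV 4 lf4 (tu 3 t u) (z • Ur) U) (hV : TV 4 lf4 (tu 3 t u) ((Complex.I * z) • Ur) V)
    (hX : TV 4 lf4 (tu 3 t u) Xr X) (h : q4T T k1 k2 gs n M U V X = true) :
    T4 (KV k1 t) (KV k2 t) Xr Mr Ur z := by
  obtain ⟨h1, h2⟩ := andB_t' h
  obtain ⟨h3, h4⟩ := andB_t' h1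
  obtain ⟨h5, h6⟩ := andB_t' h2
  obtain ⟨g0, _, k0⟩ := nth_t h3
  obtain ⟨g1, _, k1'⟩ := nth_t h4
  obtain ⟨g2, _, k2'⟩ := nth_t h5
  obtain ⟨g3, _, k3⟩ := nth_t h6
  have e1 := hT.t4 k0 hP (hM.add a4 hU) hX
  have e2 := hT.t4 k1' hP (hM.add a4 hV) hX
  have e3 := hT.t4 k2' hP (hM.sub a4 hU) hX
  have e4 := hT.t4 k3 hP (hM.sub a4 hV) hX
  rw [hT.up, hT.up] at e1 e2 e3 e4
  exact ⟨⟨e1, e2⟩, ⟨e3, e4⟩⟩

theorem rho_ok (hP : PT 3 t) {b : BP} {ρ : ℂ} (h : ‖ρ‖ ≤ (b.de : ℝ) / UU) :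
    TOK 3 lf3 t ρ (rhoM b) := by
  refine TOK.cst a3 hP _ _ ?_
  have e : ((nat_lit 0 : ℕ) : ℂ) = 0 := Nat.cast_zero
  rw [e, sub_zero, norm_mul, Complex.norm_real, Real.norm_of_nonneg UU_pos.le]
  rw [le_div_iff₀ UU_pos] at h
  linarith

theorem eta_ok (hP : PT 3 t) {η : ℂ} (h : ‖η‖ ≤ 1) : TOK 3 lf3 t η etaM := by
  refine TOK.cst a3 hP _ _ ?_
  have e : ((nat_lit 0 : ℕ) : ℂ) = 0 := Nat.cast_zero
  rw [e, sub_zero, norm_mul, Complex.norm_real, Real.norm_of_nonneg UU_pos.le]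
  have e2 : (((nat_lit 281474976710656 : ℕ)) : ℝ) = UU := UU_nat
  rw [e2]
  nlinarith [UU_pos]

/-- facts of a piece -/
theorem pc_z {b : BP} (h : pcB b = true) {ρ : ℂ} (hρ : ‖ρ‖ ≤ (b.de : ℝ) / UU) :
    2 * ‖ρ‖ ^ 2 ≤ ‖zB b‖ ^ 2 := by
  have h1 := Nat.le_of_ble_eq_true (andB_t' h).1
  have h2 : 2 * ((b.de : ℝ) * b.de) ≤ (b.zr : ℝ) * b.zr + (b.zi : ℝ) * b.zi := by
    exact_mod_cast h1
  have h3 : ‖ρ‖ ^ 2 ≤ ((b.de : ℝ) / UU) ^ 2 := pow_le_pow_left₀ (norm_nonneg _) hρ 2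
  rw [z_sq]
  have hU : 0 < UU ^ 2 := pow_pos UU_pos 2
  have e1 : (b.zr : ℝ) / UU * ((b.zr : ℝ) / UU) + (b.zi : ℝ) / UU * ((b.zi : ℝ) / UU) =
      ((b.zr : ℝ) * b.zr + (b.zi : ℝ) * b.zi) / UU ^ 2 := by ring
  have e2 : 2 * ((b.de : ℝ) / UU) ^ 2 = 2 * ((b.de : ℝ) * b.de) / UU ^ 2 := by ring
  calc 2 * ‖ρ‖ ^ 2 ≤ 2 * ((b.de : ℝ) / UU) ^ 2 := by linarith
    _ ≤ _ := by rw [e1, e2]; exact div_le_div_of_nonneg_right h2 hU.le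

theorem UU_96 : ((nat_lit 79228162514264337593543950336 : ℕ) : ℝ) = UU * UU := by
  unfold UU; norm_num

theorem pc_a {b : BP} (h : pcB b = true) (he : b.ex = false) {r om : ℝ} (hr : 0 < r)
    (h0 : (b.t0 : ℝ) / UU ≤ r) (h1 : r ≤ (b.t1 : ℝ) / UU) {G : ℝ} (hG : 0 ≤ G) (ho : om * r = G)
    (h3 : om ≤ r) : (b.ka : ℝ) / UU * G ≤ om ∧
      om ≤ (if b.kb = 0 then r else (b.kb : ℝ) / UU * G) := by
  have h2 := (andB_t' h).2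
  rw [he] at h2
  obtain ⟨a1, a2⟩ := andB_t' (show andB _ _ = true from h2)
  have a1' := Nat.le_of_ble_eq_true a1
  have hU := UU_pos
  have k1 : (b.ka : ℝ) * b.t1 ≤ UU * UU := by
    rw [← UU_96]
    exact_mod_cast a1'
  have o0 : 0 ≤ om := by
    by_contra hc
    push Not at hc
    have := mul_neg_of_neg_of_pos hc hr
    linarith
  constructor
  · rw [← ho]
    have e1 : (b.ka : ℝ) / UU * (om * r) = om * ((b.ka : ℝ) / UU * r) := by ring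
    rw [e1]
    have e2 : (b.ka : ℝ) / UU * r ≤ 1 := by
      calc (b.ka : ℝ) / UU * r ≤ (b.ka : ℝ) / UU * ((b.t1 : ℝ) / UU) :=
            mul_le_mul_of_nonneg_left h1 (by positivity)
        _ = ((b.ka : ℝ) * b.t1) / (UU * UU) := by ring
        _ ≤ 1 := by rw [div_le_one (by positivity)]; exact k1
    nlinarith
  · by_cases hk : b.kb = 0
    · rw [if_pos hk]; exact h3
    · rw [if_neg hk]
      have hk' : Nat.beq b.kb (nat_lit 0) = false := by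
        rw [Bool.eq_false_iff]
        intro h4
        exact hk (Nat.eq_of_beq_eq_true h4)
      rw [hk'] at a2
      have a3' := Nat.le_of_ble_eq_true (show Nat.ble _ _ = true from a2)
      have k2 : UU * UU ≤ (b.kb : ℝ) * b.t0 := by
        rw [← UU_96]
        exact_mod_cast a3'
      rw [← ho]
      have e1 : (b.kb : ℝ) / UU * (om * r) = om * ((b.kb : ℝ) / UU * r) := by ring
      rw [e1]
      have e2 : 1 ≤ (b.kb : ℝ) / UU * r := by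
        calc 1 ≤ ((b.kb : ℝ) * b.t0) / (UU * UU) := by rw [one_le_div (by positivity)]; exact k2
          _ = (b.kb : ℝ) / UU * ((b.t0 : ℝ) / UU) := by ring
          _ ≤ (b.kb : ℝ) / UU * r := mul_le_mul_of_nonneg_left h0 (by positivity)
      nlinarith

section
variable {u : ℝ} {b : BP} {r : ℝ} {Rm : Mo T4}

theorem TV_m (hP : PT 4 (tu 3 t u)) (h0 : 0 ≤ u) (h1 : u ≤ 1)
    (hK : TLC t v μ th h hd P N Pd Nd K) (hr : TOK 4 lf4 (tu 3 t u) ((r : ℝ) : ℂ) Rm) :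
    TV 4 lf4 (tu 3 t u) (N * rfJ 1 v + (r : ℂ) • (rfJ 1 v - (1 - P) * rfJ 1 v)) (mM K Rm) :=
  (vU hK.N h0 h1).add a4 (TV.smul a4 hP hr (vU hK.C h0 h1))

theorem TV_aK (hP3 : PT 3 t) (h0 : 0 ≤ u) (h1 : u ≤ 1) (hK : TLC t v μ th h hd P N Pd Nd K)
    (k : ℕ) : TV 4 lf4 (tu 3 t u) (aF ((k : ℝ) / UU * (h ^ 2 - 1)) (rfJ 1 v) (N * rfJ 1 v)
      ((1 - P) * rfJ 1 v)) (aK K k) := by
  have e : TOK 3 lf3 t (((k : ℝ) / UU * (h ^ 2 - 1) : ℝ) : ℂ)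
      (mulM A3 (cst A3 k (nat_lit 0)) (g1M K.s.h)) :=
    tc ((cst_nat a3 hP3 k).mul a3 hP3 (TOK_g1 hP3 hK.h)) (by push_cast; ring)
  exact vU (hK.N.add a3 (TV.smul a3 hP3 e hK.C)) h0 h1

theorem TV_aHi (hP3 : PT 3 t) (hP : PT 4 (tu 3 t u)) (h0 : 0 ≤ u) (h1 : u ≤ 1)
    (hK : TLC t v μ th h hd P N Pd Nd K) (hr : TOK 4 lf4 (tu 3 t u) ((r : ℝ) : ℂ) Rm) (b : BP) :
    TV 4 lf4 (tu 3 t u) (aF (if b.kb = 0 then r else (b.kb : ℝ) / UU * (h ^ 2 - 1)) (rfJ 1 v)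
      (N * rfJ 1 v) ((1 - P) * rfJ 1 v)) (aHi K b Rm) := by
  unfold aHi
  by_cases hk : b.kb = 0
  · rw [if_pos hk, hk]
    exact TV_m hP h0 h1 hK hr
  · have hk' : Nat.beq b.kb (nat_lit 0) = false := by
      rw [Bool.eq_false_iff]
      intro h4
      exact hk (Nat.eq_of_beq_eq_true h4)
    rw [if_neg hk, hk']
    exact TV_aK hP3 h0 h1 hK b.kb

theorem TV_aEx (hP3 : PT 3 t) (hP : PT 4 (tu 3 t u)) (h0 : 0 ≤ u) (h1 : u ≤ 1)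
    (hK : TLC t v μ th h hd P N Pd Nd K) (hr : TOK 4 lf4 (tu 3 t u) ((r : ℝ) : ℂ) Rm) :
    TV 4 lf4 (tu 3 t u) (aE r h (rfJ 1 v) (N * rfJ 1 v) ((1 - P) * rfJ 1 v)) (aEx K Rm) :=
  (TV.smul a4 hP hr (vU hK.N h0 h1)).add a4
    (vU (TV.smul a3 hP3 (TOK_g1 hP3 hK.h) hK.C) h0 h1)

theorem TV_tt (hP3 : PT 3 t) (hP : PT 4 (tu 3 t u)) (h0 : 0 ≤ u) (h1 : u ≤ 1)
    (hK : TLC t v μ th h hd P N Pd Nd K) (hr : TOK 4 lf4 (tu 3 t u) ((r : ℝ) : ℂ) Rm) {ρ : ℂ}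
    (hρ : ‖ρ‖ ≤ (b.de : ℝ) / UU) :
    TV 4 lf4 (tu 3 t u) (tF r ρ (rfJ 1 v) (N * rfJ 1 v) ((1 - P) * rfJ 1 v)) (ttM K b Rm) := by
  refine ((vU (hK.N.add a3 (TV.smul a3 hP3 (rho_ok hP3 hρ) hK.Q)) h0 h1).add a4
    (TV.smul a4 hP hr (vU hK.C h0 h1))).congr ?_
  rw [tF]
  abel

theorem TV_bb (hP3 : PT 3 t) (hP : PT 4 (tu 3 t u)) (h0 : 0 ≤ u) (h1 : u ≤ 1)
    (hK : TLC t v μ th h hd P N Pd Nd K) (hr : TOK 4 lf4 (tu 3 t u) ((r : ℝ) : ℂ) Rm) {ρ η : ℂ}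
    (hρ : ‖ρ‖ ≤ (b.de : ℝ) / UU) (hη : ‖η‖ ≤ 1) :
    TV 4 lf4 (tu 3 t u) (bb r h hd (-2 * th - th) ρ η (rfJ 1 v) ((1 - P) * rfJ 1 v)
      (Nd * rfJ 1 v) (-Pd * rfJ 1 v)) (bbM K b Rm) := by
  have h3 : TOK 3 lf3 t (Complex.I * ((-2 * th - th : ℝ) : ℂ)) (m3M K.s.it) :=
    tc (TOK_neg a3 hP3 (hK.it.add a3 (TOK_db a3 hK.it))) (by push_cast; ring)
  have e1 := (hK.Nd.add a3 (TV.smul a3 hP3 (rho_ok hP3 hρ) hK.Qd)).add a3
    (TV.smul a3 hP3 (eta_ok hP3 hη) (TV.smul a3 hP3 h3 hK.Q))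
  have e2 := TV.smul a3 hP3 (tc (hK.h.mul a3 hP3 hK.hd)
    (show (h : ℂ) * hd = ((h * hd : ℝ) : ℂ) by push_cast; ring)) hK.C
  exact TV.smul a4 hP hr ((vU e2 h0 h1).add a4 (TV.smul a4 hP hr ((vU e1 h0 h1).sub a4
    (TV.smul a4 hP hr (vU hK.Qd h0 h1)))))

theorem TOK_h4 (hP3 : PT 3 t) (h0 : 0 ≤ u) (h1 : u ≤ 1) (hK : TLC t v μ th h hd P N Pd Nd K) :
    TOK 4 lf4 (tu 3 t u) ((hd / 4 : ℝ) : ℂ) (h4M K) :=
  tU (tc (TOK_hf a3 hP3 (TOK_hf a3 hP3 hK.hd)) (by push_cast; ring)) h0 h1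

theorem TV_z0 (hP3 : PT 3 t) (h0 : 0 ≤ u) (h1 : u ≤ 1) (hK : TLC t v μ th h hd P N Pd Nd K)
    (b : BP) : TV 4 lf4 (tu 3 t u) (zB b • ((1 - P) * rfJ 1 v)) (z0M K b) :=
  vU (TV.smul a3 hP3 (tc (TOK_cz hP3 _) (zB_cz b).symm) hK.Q) h0 h1
theorem TV_z1 (hP3 : PT 3 t) (h0 : 0 ≤ u) (h1 : u ≤ 1) (hK : TLC t v μ th h hd P N Pd Nd K)
    (b : BP) : TV 4 lf4 (tu 3 t u) ((Complex.I * zB b) • ((1 - P) * rfJ 1 v)) (z1M K b) :=
  vU (TV.smul a3 hP3 (tc (TOK_cz hP3 _) (IzB_cz b).symm) hK.Q) h0 h1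

end

/-- A PIECE OF THE TAIL -/
theorem btK_ok (hT : TKL KV T) (hP : PT 3 t) (h2 : brJ 1 v v = 2) (h2' : (brJ 1 vd v).re = 0)
    (hF : HOK 3 lf3 t v vd F) (H : SPC (rfJ 1 v * sDm φ g.1 g.2) (rfd 1 0 v vd * sDm φ g.1 g.2) μ
      (-star μ ^ 2) th (-2 * th) h hd P N Pd Nd) (hμ : star μ * μ = 1) (hh : 1 ≤ h)
    (hd0 : 0 ≤ hd) (hK : TLC t v μ th h hd P N Pd Nd K) (hl : TV 3 lf3 t (hL v vd S) Sl)
    (hr : TV 3 lf3 t (hR v vd S') Sr) {bp : List BP} {i : ℕ} {gs : List γ}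
    (hb : btK T F K bp i k1 k2 Sl Sr gs = true) {n : ℕ} (hn : bcR h bp i n) :
    NT (cK v (KV k1 t)) (cK v (KV k2 t)) (nX v vd (nM φ v g.1 g.2 (n - 1))
      (nMd φ v vd g.1 g.2 (n - 1)) S S') (nM φ v g.1 g.2 (n - 1)) := by
  obtain ⟨b, hbi, hb1⟩ := nth_t hb
  obtain ⟨b', hbi', c0, c1, c2, hn2⟩ := hn
  have eb : b' = b := by rw [hbi] at hbi'; exact (Option.some.inj hbi').symm
  subst eb
  obtain ⟨p1, p2⟩ := andB_t' hb1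
  have hn1 : 1 ≤ n := by omega
  have hr0 := chR_pos hh hn1
  have hU : UU = 2 ^ 48 := by unfold UU; norm_num
  obtain ⟨u, h0, h1, hP4, hrm⟩ := cr_ex (τ := chR h n) (a := b'.t0) (b := b'.t1) a3 hP
    (by norm_num) (by rw [← hU]; exact c0) (by rw [← hU]; exact c1)
  have hR : TOK 4 lf4 (tu 3 t u) ((chR h n : ℝ) : ℂ) (rrM b') := hrm
  have nq := chQ_norm (mu_norm hμ) (nu_norm hμ) hh hn1
  have hρ : ‖chQ μ (-star μ ^ 2) h n‖ ≤ (b'.de : ℝ) / UU := by rw [nq]; exact c2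
  have hη : ‖(n : ℂ) * chQ μ (-star μ ^ 2) h n‖ ≤ 1 := by
    rw [norm_mul, nq, Complex.norm_natCast, mul_one_div,
      div_le_one (Pool.Agent.Helper6.MONO.W2.chS_pos hh hn1)]
    exact Pool.Agent.Helper6.MONO.W2.chS_ge hh n
  have hz := pc_z p1 hρ
  have hM := TV_m hP4 h0 h1 hK hR
  have hz0 := TV_z0 hP h0 h1 hK b'
  have hz1 := TV_z1 hP h0 h1 hK b'
  have h4 := TOK_h4 hP h0 h1 hK
  have hbb := TV_bb hP hP4 h0 h1 hK hR hρ hη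
  have htt := TV_tt hP hP4 h0 h1 hK hR hρ
  have hL4 := vU hl h0 h1
  have hR4 := vU (TV_r2 hF hr) h0 h1
  have hr2 := hR.mul a4 hP4 hR
  have hom := chO_mul hh hn1
  have hole := chO_le hh hn1
  have hG : 0 ≤ h ^ 2 - 1 := by nlinarith
  have p2' : bt1 T F K k1 k2 Sl Sr gs b' (rrM b') (mulM A4 (rrM b') (rrM b')) (mM K (rrM b'))
    (z0M K b') (z1M K b') (ttM K b' (rrM b')) (bbM K b' (rrM b')) = true := p2
  unfold bt1 at p2'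
  cases hex : b'.ex with
  | true =>
    rw [hex] at p2'
    obtain ⟨q1, q2⟩ := andB_t' (show btE _ _ _ _ _ _ _ _ _ _ = true from p2')
    have hA := TV_aEx hP hP4 h0 h1 hK hR
    have A1 := q4T_ok hT hP4 hM hz0 hz1 hA q1
    have B1 := q4T_ok hT hP4 hM hz0 hz1 (((TV.smul a4 hP4 h4 hA).add a4
      (TV.smul a4 hP4 hR hbb)).add a4 (((TV.smul a4 hP4 (hR.mul a4 hP4 hr2) htt).mul a4 hP4
        hL4).sub a4 (hR4.mul a4 hP4 (TV.smul a4 hP4 (hR.mul a4 hP4 hr2) htt)))) q2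
    refine gi_tailE H h2 h2' (mu_ne hμ) hh hd0 hn2 hz rfl rfl rfl rfl rfl A1 ?_
    have e : ∀ X Y : Mt, X = Y → T4 (KV k1 t) (KV k2 t) X (N * rfJ 1 v + (chR h n : ℂ) •
        (rfJ 1 v - (1 - P) * rfJ 1 v)) ((1 - P) * rfJ 1 v) (zB b') → T4 (KV k1 t) (KV k2 t) Y
        (N * rfJ 1 v + (chR h n : ℂ) • (rfJ 1 v - (1 - P) * rfJ 1 v)) ((1 - P) * rfJ 1 v)
        (zB b') := fun X Y e h => e ▸ h
    refine e _ _ ?_ B1
    rw [bF, gg]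
    simp only [smul_add, smul_sub, smul_smul, smul_mul_assoc, mul_smul_comm]
    push_cast
    module
  | false =>
    rw [hex] at p2'
    obtain ⟨q1, q2⟩ := andB_t' (show btF _ _ _ _ _ _ _ _ _ _ _ _ = true from p2')
    obtain ⟨q3, q4⟩ := andB_t' q1
    obtain ⟨q5, q6⟩ := andB_t' q2
    obtain ⟨o1, o2⟩ := pc_a p1 hex hr0 c0 c1 hG hom hole
    have hA := TV_aK hP h0 h1 hK b'.ka
    have hA2 := TV_aHi hP hP4 h0 h1 hK hR b'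
    have hg := ((TV.smul a4 hP4 hr2 htt).mul a4 hP4 hL4).sub a4
      (hR4.mul a4 hP4 (TV.smul a4 hP4 hr2 htt))
    have A1 := q4T_ok hT hP4 hM hz0 hz1 hA q3
    have A2 := q4T_ok hT hP4 hM hz0 hz1 hA2 q4
    have B1 := q4T_ok hT hP4 hM hz0 hz1 (((TV.smul a4 hP4 h4 hA).add a4 hbb).add a4 hg) q5
    have B2 := q4T_ok hT hP4 hM hz0 hz1 (((TV.smul a4 hP4 h4 hA2).add a4 hbb).add a4 hg) q6
    have e2 : ((chR h n ^ 2 : ℝ) : ℂ) = (chR h n : ℂ) * (chR h n : ℂ) := by push_cast; ring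
    refine gi_tail H h2 h2' (mu_ne hμ) hh hd0 hn2 o1 o2 hz rfl rfl rfl rfl rfl A1 A2 ?_ ?_
    · rw [bF, gg, e2, ← add_assoc]
      exact B1
    · rw [bF, gg, e2, ← add_assoc]
      exact B2

/-! ### the inclusion of the tail -/

theorem HK_ad {L1 L2 : Mt} {X Y : KM T4} {t : ℕ → ℝ} (h1 : HK 4 lf4 t L1 X)
    (h2 : HK 4 lf4 t L2 Y) : HK 4 lf4 t (L1 + L2) (adK A4 X Y) := by
  refine ⟨h1.a.add a4 h2.a, h1.b.add a4 h2.b, h1.c.add a4 h2.c, h1.x.add a4 h2.x,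
    h1.y.add a4 h2.y, h1.w.add a4 h2.w, fun i j => ?_⟩
  rw [Matrix.add_apply, Matrix.add_apply, star_add, h1.hm i j, h2.hm i j]

theorem i4T_ok {u : ℝ} (hP : PT 4 (tu 3 t u)) {K1 Kc Uc Mr : Mt} {X1 Xc W : KM T4} {M : V9 T4}
    {e : ℝ} (h1 : HK 4 lf4 (tu 3 t u) K1 X1) (hc : HK 4 lf4 (tu 3 t u) Kc Xc)
    (hW : HK 4 lf4 (tu 3 t u) ((e : ℂ) • (Ucᴴ * Kc * Uc)) W) (hM : TV 4 lf4 (tu 3 t u) Mr M)
    {m : Mu} (h : i4T m X1 Xc W M = true) : ∀ w ∈ NZ K1, 0 ≤ hr (vF Kc Mr Uc e) w :=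
  fun w hw => (HK_ad (hc.g9 a4 hP hM) hW).incl hP h1 Lw4_ok h w hw

theorem btI_ok (hT : TKL KV T) (hP : PT 3 t) (h2 : brJ 1 v v = 2)
    (hF : HOK 3 lf3 t v vd F) (H : SPC (rfJ 1 v * sDm φ g.1 g.2) (rfd 1 0 v vd * sDm φ g.1 g.2) μ
      (-star μ ^ 2) th (-2 * th) h hd P N Pd Nd) (hμ : star μ * μ = 1) (hh : 1 ≤ h)
    (hK : TLC t v μ th h hd P N Pd Nd K) {bp : List BP} {i : ℕ} {m : Mu}
    (hb : btI K bp i m (T.km k1) (kcM T F kt) = true) {n : ℕ} (hn : bcR h bp i n) :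
    IN (cK v (KV k1 t)) (cK v (KV kt t)) v (nM φ v g.1 g.2 (n - 1)) := by
  obtain ⟨b, hbi, hb1⟩ := nth_t hb
  obtain ⟨b', hbi', c0, c1, c2, hn2⟩ := hn
  have eb : b' = b := by rw [hbi] at hbi'; exact (Option.some.inj hbi').symm
  subst eb
  obtain ⟨p1, p2⟩ := andB_t' hb1
  obtain ⟨p3, p4⟩ := andB_t' p2
  obtain ⟨q0, q1⟩ := andB_t' p3
  obtain ⟨q2, q3⟩ := andB_t' p4
  have hn1 : 1 ≤ n := by omega
  have hU : UU = 2 ^ 48 := by unfold UU; norm_num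
  obtain ⟨u, h0, h1, hP4, hrm⟩ := cr_ex (τ := chR h n) (a := b'.t0) (b := b'.t1) a3 hP
    (by norm_num) (by rw [← hU]; exact c0) (by rw [← hU]; exact c1)
  have hR : TOK 4 lf4 (tu 3 t u) ((chR h n : ℝ) : ℂ) (rrM b') := hrm
  have nq := chQ_norm (mu_norm hμ) (nu_norm hμ) hh hn1
  have hρ : ‖chQ μ (-star μ ^ 2) h n‖ ≤ (b'.de : ℝ) / UU := by rw [nq]; exact c2
  have hz := pc_z p1 hρ
  have hM := TV_m hP4 h0 h1 hK hR
  have hz0 := TV_z0 hP h0 h1 hK b'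
  have hz1 := TV_z1 hP h0 h1 hK b'
  have hc : HK 3 lf3 t (cK v (KV kt t)) (kcM T F kt) := HK_tr a3 hP hF.hv (hT.km (k := kt) hP)
  have k4 := kU (hT.km (k := k1) hP) h0 h1
  have c4 := kU hc h0 h1
  have he : TOK 4 lf4 (tu 3 t u) ((chR h n ^ 2 - (h ^ 2 - 1) - ‖zB b'‖ ^ 2 : ℝ) : ℂ)
      (e1M K b' (rrM b')) := by
    refine tc ((hR.mul a4 hP4 hR).sub a4 (tU ((TOK_g1 hP hK.h).add a3
      (((cst_nat a3 hP b'.zr).mul a3 hP (cst_nat a3 hP b'.zr)).add a3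
        ((cst_nat a3 hP b'.zi).mul a3 hP (cst_nat a3 hP b'.zi)))) h0 h1)) ?_
    rw [z_sq]
    push_cast
    ring
  have hW := (kU (hc.g9 a3 hP hK.Q) h0 h1).sm a4 hP4 he
  exact inn_tail H h2 (mu_norm hμ) (nu_norm hμ) hh hn1 hz rfl rfl rfl rfl
    (i4T_ok hP4 k4 c4 hW (hM.add a4 hz0) q0) (i4T_ok hP4 k4 c4 hW (hM.add a4 hz1) q1)
    (i4T_ok hP4 k4 c4 hW (hM.sub a4 hz0) q2) (i4T_ok hP4 k4 c4 hW (hM.sub a4 hz1) q3)

end

end Pool.Agent.Helper62.NBW
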