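import Pool.Agent.Helper90.CX.CT2

/-!
Square root models of KerT (MP_c75db0, star frame): from a model of `a ≥ 0` and approximate control
values `s` of its square root to a model of `√a`, by a residual test; bounds of real numbers from
their models.
-/

set_option autoImplicit false
noncomputable section
namespace Pool.Agent.Helper62.SQM

open Pool.Agent.Helper90.C75
open Pool.Agent.Helper90.KMT
open Pool.Agent.Helper90.KMO
open Pool.Agent.Helper86.C75 (Z)
open Pool.Agent.Helper86.CX (Cx andB)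
open Pool.Agent.Helper86.CT (Alg Mo er mk)

/-! ### the kernel side -/

/-- the residual of `s s = f` -/
def resS {α : Type} (A : Alg α) (F S : Mo α) : Nat :=
  Nat.add (Nat.add (Nat.add (Nat.add (A.nb (A.sub (A.mul S.v S.v) F.v)) (nat_lit 16))
    (Nat.shiftRight (er S.l S.l) (nat_lit 48))) (nat_lit 1)) F.r
/-- the first bound of the distance: `e / m` -/
def sq1 (e m : Nat) : Nat := Nat.add (Nat.div (Nat.mul e (nat_lit 281474976710656)) m) (nat_lit 1)
/-- the second bound of the distance: `e / (2 m - first bound)` -/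
def sq2 (e m : Nat) : Nat :=
  Nat.add (Nat.div (Nat.mul e (nat_lit 281474976710656)) (Nat.sub (Nat.add m m) (sq1 e m)))
    (nat_lit 1)
/-- THE MODEL OF `√f`: control values `S.v`, `m` a lower bound of the real parts -/
def sqM {α : Type} (A : Alg α) (m : Nat) (F S : Mo α) : Mo α :=
  ⟨S.v, sq2 (resS A F S) m, S.B, S.l⟩
/-- the control values are in the disc of radius `c - m` around `c` -/
def cenOK {α : Type} (A : Alg α) (m c r : Nat) (s : α) : Bool :=
  Nat.ble (Nat.add (Nat.add (A.nb (A.sub s (A.cs ⟨Z.p c, Z.p (nat_lit 0)⟩))) r) m) c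
/-- THE TEST -/
def sqOK {α : Type} (A : Alg α) (m c : Nat) (F S : Mo α) : Bool :=
  andB (cenOK A m c (nat_lit 0) S.v) (andB (Nat.ble (nat_lit 1) m) (Nat.ble (sq1 (resS A F S) m) m))

/-! ### bounds of the mean -/

section

variable {α : Type} {D : ℕ} {lf : α → Vt D → ℂ} {A : Alg α} {t : ℕ → ℝ}

theorem cz_nat (c : ℕ) : cz ⟨Z.p c, Z.p (nat_lit 0)⟩ = (c : ℂ) := by
  apply Complex.ext
  · show ((zv (Z.p c) : ℤ) : ℝ) = _
    rw [zv_p]; simp
  · show ((zv (Z.p (nat_lit 0)) : ℤ) : ℝ) = _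
    rw [zv_p]; simp

/-- the mean is in a disc around a constant -/
theorem avg_cen (hA : AOK D lf A) (hP : PT D t) (s : α) (c : ℕ) :
    ‖avg (wtT D t) (lf s) - c‖ ≤ (A.nb (A.sub s (A.cs ⟨Z.p c, Z.p (nat_lit 0)⟩)) : ℕ) := by
  have e : avg (wtT D t) (lf s) - c =
      avg (wtT D t) (lf (A.sub s (A.cs ⟨Z.p c, Z.p (nat_lit 0)⟩))) := by
    have e1 : lf (A.sub s (A.cs ⟨Z.p c, Z.p (nat_lit 0)⟩)) = fun v => lf s v - (c : ℂ) := by
      funext v
      rw [hA.law.hsub, hA.cst, cz_nat]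
    rw [e1, avg_sub, avg_const hP.w]
  rw [e]
  exact norm_avg_le hP.w (hA.mag _)

/-- LOWER BOUND of the real part -/
theorem TOK_lb (hA : AOK D lf A) (hP : PT D t) {f : ℂ} {F : Mo α} (hf : TOK D lf t f F) {m c : ℕ}
    (h : cenOK A m c F.r F.v = true) : (m : ℝ) ≤ UU * f.re := by
  have h1 : A.nb (A.sub F.v (A.cs ⟨Z.p c, Z.p (nat_lit 0)⟩)) + F.r + m ≤ c :=
    Nat.le_of_ble_eq_true h
  have h2 : ((A.nb (A.sub F.v (A.cs ⟨Z.p c, Z.p (nat_lit 0)⟩)) : ℕ) : ℝ) + F.r + m ≤ c := by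
    exact_mod_cast h1
  have h3 := avg_cen hA hP F.v c
  have h4 : ‖(UU : ℂ) * f - avg (wtT D t) (lf F.v)‖ ≤ F.r := hf.mod
  have h5 : ‖(UU : ℂ) * f - c‖ ≤ c - m := by
    have e : (UU : ℂ) * f - c = (UU * f - avg (wtT D t) (lf F.v)) +
        (avg (wtT D t) (lf F.v) - c) := by ring
    rw [e]
    exact (norm_add_le _ _).trans (by linarith)
  have h6 := (Complex.abs_re_le_norm _).trans h5
  have h7 := (abs_le.1 h6).1
  have h8 : ((UU : ℂ) * f - c).re = UU * f.re - c := by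
    rw [Complex.sub_re, Complex.re_ofReal_mul, Complex.natCast_re]
  rw [h8] at h7
  linarith

/-- UPPER BOUND of the real part -/
theorem TOK_ub (hA : AOK D lf A) (hP : PT D t) {f : ℂ} {F : Mo α} (hf : TOK D lf t f F) {m c : ℕ}
    (h : cenOK A m c F.r F.v = true) : UU * f.re ≤ 2 * (c : ℝ) - m := by
  have h1 : A.nb (A.sub F.v (A.cs ⟨Z.p c, Z.p (nat_lit 0)⟩)) + F.r + m ≤ c :=
    Nat.le_of_ble_eq_true h
  have h2 : ((A.nb (A.sub F.v (A.cs ⟨Z.p c, Z.p (nat_lit 0)⟩)) : ℕ) : ℝ) + F.r + m ≤ c := by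
    exact_mod_cast h1
  have h3 := avg_cen hA hP F.v c
  have h4 : ‖(UU : ℂ) * f - avg (wtT D t) (lf F.v)‖ ≤ F.r := hf.mod
  have h5 : ‖(UU : ℂ) * f - c‖ ≤ c - m := by
    have e : (UU : ℂ) * f - c = (UU * f - avg (wtT D t) (lf F.v)) +
        (avg (wtT D t) (lf F.v) - c) := by ring
    rw [e]
    exact (norm_add_le _ _).trans (by linarith)
  have h6 := (Complex.abs_re_le_norm _).trans h5
  have h7 := (abs_le.1 h6).2
  have h8 : ((UU : ℂ) * f - c).re = UU * f.re - c := by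
    rw [Complex.sub_re, Complex.re_ofReal_mul, Complex.natCast_re]
  rw [h8] at h7
  linarith

/-! ### the residual -/

theorem resS_le (hA : AOK D lf A) (hP : PT D t) {f : ℂ} {F S : Mo α} (hf : TOK D lf t f F)
    (hS : VT D lf S) : ‖(UU : ℂ) * f - avg (wtT D t) (lf S.v) * avg (wtT D t) (lf S.v) / UU‖ ≤
      (resS A F S : ℕ) := by
  have hU := UU_pos
  have hUc := UUc_ne
  have h1 := vt_cov hP hS hS
  have h2 := avg_mul hA hP S.v S.v
  have h4 : ‖(UU : ℂ) * f - avg (wtT D t) (lf F.v)‖ ≤ F.r := hf.mod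
  set σ := avg (wtT D t) (lf S.v)
  set G := avg (wtT D t) (lf F.v) with hG
  set P := avg (wtT D t) (mulT D (lf S.v) (lf S.v))
  set Q := avg (wtT D t) (lf (A.mul S.v S.v)) with hQ
  have h3 : ‖Q - G‖ ≤ (A.nb (A.sub (A.mul S.v S.v) F.v) : ℕ) := by
    have e : Q - G = avg (wtT D t) (lf (A.sub (A.mul S.v S.v) F.v)) := by
      rw [hQ, hG, ← avg_sub]
      congr 1
      funext v
      exact (hA.law.hsub _ _ v).symm
    rw [e]
    exact norm_avg_le hP.w (hA.mag _)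
  have h5 : ‖(P - σ * σ) / UU‖ ≤ (Nat.shiftRight (er S.l S.l) (nat_lit 48) : ℕ) + 1 := by
    rw [norm_div, norm_UU]
    exact (div_le_div_of_nonneg_right h1 hU.le).trans (shr_le _).2
  have e : (UU : ℂ) * f - σ * σ / UU = (UU * f - G) - (Q - G) + (Q - P / UU) + (P - σ * σ) / UU := by
    field_simp
    ring
  rw [e]
  have g1 := norm_add_le ((UU * f - G) - (Q - G) + (Q - P / UU)) ((P - σ * σ) / UU)
  have g2 := norm_add_le ((UU * f - G) - (Q - G)) (Q - P / UU)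
  have g3 := norm_sub_le ((UU : ℂ) * f - G) (Q - G)
  have g4 : ((resS A F S : ℕ) : ℝ) = (A.nb (A.sub (A.mul S.v S.v) F.v) : ℕ) + 16 +
      (Nat.shiftRight (er S.l S.l) (nat_lit 48) : ℕ) + 1 + F.r := by
    unfold resS
    rw [c_add, c_add, c_add, c_add]
    norm_num
  rw [g4]
  linarith

/-! ### the square root -/

/-- the real inequality -/
theorem root_dist {y m e r : ℝ} {σ : ℂ} (hy : 0 ≤ y) (hm : m ≤ σ.re) (hm0 : 0 < m)
    (he : ‖(y : ℂ) ^ 2 - σ ^ 2‖ ≤ e) (hr : e / m ≤ r) (hrm : r < 2 * m) :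
    ‖(y : ℂ) - σ‖ ≤ e / (2 * m - r) ∧ m - r ≤ y := by
  have h1 : ‖(y : ℂ) - σ‖ * ‖(y : ℂ) + σ‖ ≤ e := by
    rw [← norm_mul]
    refine le_trans (le_of_eq ?_) he
    congr 1
    ring
  have h2 : y + m ≤ ‖(y : ℂ) + σ‖ := by
    refine le_trans ?_ (Complex.re_le_norm _)
    rw [Complex.add_re, Complex.ofReal_re]
    linarith
  have hd : 0 ≤ ‖(y : ℂ) - σ‖ := norm_nonneg _
  have h3 : ‖(y : ℂ) - σ‖ * m ≤ e := by
    refine le_trans (mul_le_mul_of_nonneg_left ?_ hd) h1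
    linarith
  have h4 : ‖(y : ℂ) - σ‖ ≤ r := by
    refine le_trans ?_ hr
    rwa [le_div_iff₀ hm0]
  have h5 : m - r ≤ y := by
    have h6 := (Complex.abs_re_le_norm ((y : ℂ) - σ)).trans h4
    have h7 := (abs_le.1 h6).1
    rw [Complex.sub_re, Complex.ofReal_re] at h7
    linarith
  refine ⟨?_, h5⟩
  rw [le_div_iff₀ (by linarith)]
  refine le_trans (mul_le_mul_of_nonneg_left ?_ hd) h1
  linarith

/-- THE MODEL OF THE SQUARE ROOT -/
theorem TOK_sqrt (hA : AOK D lf A) (hP : PT D t) {a : ℝ} (ha : 0 ≤ a) {F : Mo α}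
    (hf : TOK D lf t (a : ℂ) F) {s : α} {m c : ℕ}
    (h : sqOK A m c F (mk A s (nat_lit 0)) = true) :
    TOK D lf t ((√a : ℝ) : ℂ) (sqM A m F (mk A s (nat_lit 0))) ∧ 0 < a := by
  have hU := UU_pos
  have hUc := UUc_ne
  obtain ⟨h1, h23⟩ := andB_t h
  obtain ⟨h2, h3⟩ := andB_t h23
  set S := mk A s (nat_lit 0) with hS
  have hSv : VT D lf S := vt_mk hA _ _
  have hm1 : 1 ≤ m := Nat.le_of_ble_eq_true h2
  have hm0 : (0 : ℝ) < m := by exact_mod_cast hm1
  have hq1 : sq1 (resS A F S) m ≤ m := Nat.le_of_ble_eq_true h3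
  set q1 := sq1 (resS A F S) m with hq1'
  have hq2 : (q1 : ℝ) ≤ m := by exact_mod_cast hq1
  -- the mean of the control values
  set σ := avg (wtT D t) (lf S.v) with hσ
  have hre : (m : ℝ) ≤ σ.re := by
    have g1 : A.nb (A.sub S.v (A.cs ⟨Z.p c, Z.p (nat_lit 0)⟩)) + 0 + m ≤ c :=
      Nat.le_of_ble_eq_true h1
    have g2 : ((A.nb (A.sub S.v (A.cs ⟨Z.p c, Z.p (nat_lit 0)⟩)) : ℕ) : ℝ) + m ≤ c := by
      exact_mod_cast (by omega : A.nb (A.sub S.v (A.cs ⟨Z.p c, Z.p (nat_lit 0)⟩)) + m ≤ c)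
    have g3 := (Complex.abs_re_le_norm _).trans (avg_cen hA hP S.v c)
    have g4 := (abs_le.1 g3).1
    rw [Complex.sub_re, Complex.natCast_re] at g4
    linarith
  -- the residual
  have hres := resS_le hA hP hf hSv
  set E := resS A F S with hE
  set y := UU * √a with hy
  have hy0 : 0 ≤ y := mul_nonneg hU.le (Real.sqrt_nonneg _)
  have he : ‖((y : ℝ) : ℂ) ^ 2 - σ ^ 2‖ ≤ E * UU := by
    have e1 : ((y : ℝ) : ℂ) ^ 2 = UU * (UU * (a : ℂ)) := by
      have e2 : y ^ 2 = UU * (UU * a) := by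
        rw [hy, mul_pow, Real.sq_sqrt ha]
        ring
      have e3 : ((y : ℝ) : ℂ) ^ 2 = ((y ^ 2 : ℝ) : ℂ) := by push_cast; ring
      rw [e3, e2]
      push_cast
      ring
    have e4 : ((y : ℝ) : ℂ) ^ 2 - σ ^ 2 = UU * (UU * (a : ℂ) - σ * σ / UU) := by
      rw [e1]
      field_simp
    rw [e4, norm_mul, norm_UU, mul_comm]
    exact mul_le_mul_of_nonneg_right hres hU.le
  have g2 : ((nat_lit 281474976710656 : ℕ) : ℝ) = UU := by unfold UU; norm_num
  have g1 : ((nat_lit 1 : ℕ) : ℝ) = 1 := by norm_num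
  have hr1 : E * UU / m ≤ q1 := by
    have k := div_ub (Nat.mul E (nat_lit 281474976710656)) (Nat.lt_of_lt_of_le Nat.zero_lt_one hm1)
    rw [c_mul, g2] at k
    have k2 : ((q1 : ℕ) : ℝ) = (Nat.div (Nat.mul E (nat_lit 281474976710656)) m : ℕ) + 1 := by
      show ((Nat.add (Nat.div (Nat.mul E (nat_lit 281474976710656)) m) (nat_lit 1) : ℕ) : ℝ) = _
      rw [c_add, g1]
    rw [k2]
    exact k
  obtain ⟨k1, -⟩ := root_dist hy0 hre hm0 he hr1 (by linarith)
  have ha0 : 0 < a := by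
    rcases ha.lt_or_eq with h0 | h0
    · exact h0
    · exfalso
      have h6 : y = 0 := by rw [hy, ← h0, Real.sqrt_zero, mul_zero]
      have h7 : (m : ℝ) * m ≤ E * UU := by
        refine le_trans ?_ he
        rw [h6, Complex.ofReal_zero, zero_pow two_ne_zero, zero_sub, norm_neg, norm_pow, sq]
        have h8 := hre.trans (Complex.re_le_norm σ)
        exact mul_le_mul h8 h8 hm0.le (norm_nonneg _)
      have h9 : (m : ℝ) ≤ E * UU / m := by
        rw [le_div_iff₀ hm0]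
        exact h7
      have k3 : (Nat.div (Nat.mul E (nat_lit 281474976710656)) m : ℕ) + 1 ≤ m := hq1
      have k4 : m * m ≤ E * 281474976710656 := by
        have : (m : ℝ) * m ≤ (E : ℝ) * 281474976710656 := by
          have e0 : UU = 281474976710656 := rfl
          rw [e0] at h7
          exact h7
        exact_mod_cast this
      have k5 : m ≤ E * 281474976710656 / m := (Nat.le_div_iff_mul_le hm1).2 k4
      have k6 : E * 281474976710656 / m + 1 ≤ m := k3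
      omega
  refine ⟨⟨⟨hSv.bd, hSv.len, hSv.dl⟩, ?_⟩, ha0⟩
  show ‖(UU : ℂ) * ((√a : ℝ) : ℂ) - σ‖ ≤ ((sq2 E m : ℕ) : ℝ)
  have e5 : (UU : ℂ) * ((√a : ℝ) : ℂ) = ((y : ℝ) : ℂ) := by
    rw [hy]
    push_cast
    ring
  rw [e5]
  refine k1.trans ?_
  have hb : 0 < Nat.sub (Nat.add m m) q1 := by
    show 0 < m + m - q1
    omega
  have k := div_ub (Nat.mul E (nat_lit 281474976710656)) hb
  rw [c_mul, g2] at k
  have hb2 : ((Nat.sub (Nat.add m m) q1 : ℕ) : ℝ) = 2 * m - q1 := by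
    show ((m + m - q1 : ℕ) : ℝ) = _
    rw [Nat.cast_sub (by omega)]
    push_cast
    ring
  rw [hb2] at k
  have k2 : ((sq2 E m : ℕ) : ℝ) = (Nat.div (Nat.mul E (nat_lit 281474976710656))
      (Nat.sub (Nat.add m m) q1) : ℕ) + 1 := by
    show ((Nat.add (Nat.div (Nat.mul E (nat_lit 281474976710656))
      (Nat.sub (Nat.add m m) q1)) (nat_lit 1) : ℕ) : ℝ) = _
    rw [c_add, g1]
  rw [k2]
  exact k

end

end Pool.Agent.Helper62.SQM
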